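import Pool.Agent.KosQ2.Defs2

/-!
# Hilbert functions of quotients by ideals with a monomial basis; monomial ideals
-/

set_option autoImplicit false

namespace Pool.Agent.KosQ2

open MvPolynomial

universe u

theorem homSub_eq (K : Type u) [Field K] (n j : ℕ) :
    homogeneousSubmodule (Fin n) K j = restrictSupport K {d : Fin n →₀ ℕ | d.degree = j} :=
  homogeneousSubmodule_eq_finsupp_supported _ _ _

/-- General criterion: if the monomials in the finite set `N` of exponents of degree `j` span the
degree `j` piece modulo `I` and are independent modulo `I`, then the degree `j` piece of the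
quotient has dimension `N.card`. -/
theorem finrank_piece {K : Type u} [Field K] {n : ℕ} (I : Ideal (MvPolynomial (Fin n) K)) (j : ℕ)
    (N : Finset (Fin n →₀ ℕ)) (hN : ∀ u ∈ N, u.degree = j)
    (hspan : ∀ u : Fin n →₀ ℕ, u.degree = j →
      ∃ q : MvPolynomial (Fin n) K, (↑q.support ⊆ (N : Set (Fin n →₀ ℕ))) ∧
        monomial u 1 - q ∈ I)
    (hind : ∀ q : MvPolynomial (Fin n) K, (↑q.support ⊆ (N : Set (Fin n →₀ ℕ))) →
      q ∈ I → q = 0) :
    Module.finrank K (Submodule.map (Ideal.Quotient.mkₐ K I).toLinearMap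
      (homogeneousSubmodule (Fin n) K j)) = N.card := by
  have hV : Module.finrank K (restrictSupport K (N : Set (Fin n →₀ ℕ))) = N.card := by
    rw [Module.finrank_eq_card_basis (basisRestrictSupport K (N : Set (Fin n →₀ ℕ)))]
    simp
  have himg : Submodule.map (Ideal.Quotient.mkₐ K I).toLinearMap
      (homogeneousSubmodule (Fin n) K j) =
      Submodule.map (Ideal.Quotient.mkₐ K I).toLinearMap
      (restrictSupport K (N : Set (Fin n →₀ ℕ))) := by
    apply le_antisymm
    · rw [Submodule.map_le_iff_le_comap, homSub_eq, restrictSupport_eq_span, Submodule.span_le]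
      rintro _ ⟨u, hu, rfl⟩
      obtain ⟨q, hq, hI⟩ := hspan u hu
      refine ⟨q, hq, ?_⟩
      have := (Ideal.Quotient.eq (I := I) (x := monomial u 1) (y := q)).2 hI
      exact this.symm
    · apply Submodule.map_mono
      rw [homSub_eq]
      exact restrictSupport_mono _ (fun u hu => hN u (by simpa using hu))
  rw [himg, ← hV]
  have hinj : Function.Injective
      ((Ideal.Quotient.mkₐ K I).toLinearMap.domRestrict
        (restrictSupport K (N : Set (Fin n →₀ ℕ)))) := by
    rw [← LinearMap.ker_eq_bot, LinearMap.ker_eq_bot']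
    rintro ⟨q, hq⟩ h0
    have h1 : Ideal.Quotient.mk I q = 0 := h0
    have h2 : q = 0 := hind q hq (Ideal.Quotient.eq_zero_iff_mem.1 h1)
    simp [h2]
  have h3 := LinearMap.finrank_range_of_inj hinj
  rw [LinearMap.range_domRestrict] at h3
  exact h3

/-- exponents `u` of degree `j` not divisible by any element of `E`. -/
theorem mono_mem_iff {K : Type u} [Field K] {n : ℕ} (E : Set (Fin n →₀ ℕ)) (q : MvPolynomial (Fin n) K) :
    q ∈ Ideal.span ((fun e => monomial e (1 : K)) '' E) ↔ ∀ u ∈ q.support, ∃ e ∈ E, e ≤ u :=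
  mem_ideal_span_monomial_image

open Classical in
/-- Hilbert function of a monomial algebra: the number of exponents of degree `j` not divisible by
any generator. -/
theorem finrank_monomial {K : Type u} [Field K] {n : ℕ} (E : Set (Fin n →₀ ℕ)) (j : ℕ)
    (N : Finset (Fin n →₀ ℕ))
    (hN : ∀ u, u ∈ N ↔ (u.degree = j ∧ ∀ e ∈ E, ¬ e ≤ u)) :
    Module.finrank K (Submodule.map (Ideal.Quotient.mkₐ K
      (Ideal.span ((fun e => monomial e (1 : K)) '' E))).toLinearMap
      (homogeneousSubmodule (Fin n) K j)) = N.card := by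
  apply finrank_piece
  · intro u hu
    exact ((hN u).1 hu).1
  · intro u hu
    by_cases h : ∃ e ∈ E, e ≤ u
    · refine ⟨0, by simp, ?_⟩
      rw [sub_zero, mono_mem_iff]
      intro v hv
      rw [support_monomial, if_neg one_ne_zero, Finset.mem_singleton] at hv
      rw [hv]; exact h
    · refine ⟨monomial u 1, ?_, by simp⟩
      intro v hv
      rw [Finset.mem_coe, support_monomial, if_neg one_ne_zero, Finset.mem_singleton] at hv
      rw [Finset.mem_coe, hv, hN]
      exact ⟨hu, fun e he hle => h ⟨e, he, hle⟩⟩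
  · intro q hq hqI
    rw [mono_mem_iff] at hqI
    by_contra hne
    obtain ⟨u, hu⟩ := support_nonempty.2 hne
    obtain ⟨e, he, hle⟩ := hqI u hu
    exact ((hN u).1 (hq (by simpa using hu))).2 e he hle


theorem degree_finite (n j : ℕ) : {μ : Fin n →₀ ℕ | μ.degree = j}.Finite := by
  classical
  refine (Finset.finite_toSet (Finset.finsuppAntidiag (Finset.univ : Finset (Fin n)) j)).subset ?_
  intro μ hμ
  simp only [Finset.mem_coe, Finset.mem_finsuppAntidiag, Finset.subset_univ,
    and_true]
  rw [← hμ]
  exact (Finsupp.degree_eq_sum μ).symm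

theorem hilb_mon {m : ℕ} (K : Type u) [Field K] (E : Set (Fin m →₀ ℕ)) (hE : Quadratic E) (j : ℕ) :
    Module.finrank K (dpart (monIdeal K E) j) =
      Nat.card {μ : Fin m →₀ ℕ // μ.degree = j ∧ ∀ e ∈ E, ¬ e ≤ μ} := by
  classical
  have hfin : {μ : Fin m →₀ ℕ | μ.degree = j ∧ ∀ e ∈ E, ¬ e ≤ μ}.Finite :=
    (degree_finite m j).subset (fun μ hμ => hμ.1)
  rw [dpart, monIdeal, finrank_monomial E j hfin.toFinset (fun μ => by simp)]
  exact (Nat.card_eq_card_finite_toFinset hfin).symm

end Pool.Agent.KosQ2
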