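import Pool.Agent.KosQ2.BettiR
import Pool.Agent.KosQ2.Mon

/-!
# Row I: no `Tor_4` in degree five for monomial ideals satisfying `NoJoin` (helper95)
-/

set_option autoImplicit false

namespace Pool.Agent.KosQ2

universe u

variable {K : Type u} [Field K]

theorem del_pair {m : ℕ} (w v x y : Fin m) :
    (del w + del v = del x + del y) ↔ ((w = x ∧ v = y) ∨ (w = y ∧ v = x)) := by
  unfold del
  rw [Finsupp.single_add_single_eq_single_add_single one_ne_zero one_ne_zero]
  simp

/-- Coefficients at quadratic exponents outside `E`. -/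
theorem coeff_of_mem_mon {m : ℕ} (E : Set (Fin m →₀ ℕ)) (hE : Quadratic E)
    (p : MvPolynomial (Fin m) K) (hp : p ∈ monIdeal K E) (v w : Fin m)
    (h : del v + del w ∉ E) : MvPolynomial.coeff (del v + del w) p = 0 := by
  by_contra hne
  obtain ⟨e, he, hle⟩ := (mono_mem_iff E p).1 hp (del v + del w)
    (MvPolynomial.mem_support_iff.2 hne)
  have hd : (del v + del w : Fin m →₀ ℕ).degree = 2 := by
    rw [map_add, Finsupp.degree_single, Finsupp.degree_single]
  have hd2 : e.degree = 2 := by
    rw [Finsupp.degree_eq_sum]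
    exact hE e he
  obtain ⟨c, hc⟩ := le_iff_exists_add.1 hle
  have h3 : (e + c).degree = 2 := by rw [← hc, hd]
  rw [map_add, hd2] at h3
  have h4 : c.degree = 0 := by omega
  rw [(Finsupp.degree_eq_zero_iff c).1 h4, add_zero] at hc
  exact h (hc ▸ he)

theorem exists_lin {m : ℕ} (I : Ideal (MvPolynomial (Fin m) K))
    (x : MvPolynomial (Fin m) K ⧸ I) (hx : x ∈ dpart I 1) :
    ∃ a : Fin m → K, x = Ideal.Quotient.mk I
      (∑ v, MvPolynomial.C (a v) * MvPolynomial.X v) := by
  obtain ⟨p, hp, rfl⟩ := hx
  rw [MvPolynomial.homogeneousSubmodule_one_eq_span_X] at hp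
  obtain ⟨c, hc⟩ := (Submodule.mem_span_range_iff_exists_fun K).1 hp
  refine ⟨c, ?_⟩
  rw [← hc]
  simp only [MvPolynomial.smul_eq_C_mul]
  rfl

theorem pair_ne {m : ℕ} (r : Finset (Fin m)) (F : Fin m → Fin m → K) (x y : Fin m)
    (hxy : x ≠ y) :
    ∑ w ∈ rᶜ, ∑ v, F w v * (if del w + del v = del x + del y then 1 else 0) =
      (if x ∈ rᶜ then F x y else 0) + (if y ∈ rᶜ then F y x else 0) := by
  have h1 : ∀ w v : Fin m, F w v * (if del w + del v = del x + del y then (1 : K) else 0) =
      (if w = x then (if v = y then F w v else 0) else 0) +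
      (if w = y then (if v = x then F w v else 0) else 0) := by
    intro w v
    simp only [del_pair]
    by_cases ha : w = x
    · subst ha
      by_cases hb : v = y
      · subst hb
        simp [hxy]
      · simp [hb, hxy]
    · by_cases hb : w = y
      · subst hb
        by_cases hc : v = x
        · subst hc
          simp [ha]
        · simp [ha, hc]
      · simp [ha, hb]
  simp only [h1, Finset.sum_add_distrib]
  congr 1
  · rw [← Finset.sum_ite_eq' rᶜ x (fun w => F w y)]
    refine Finset.sum_congr rfl (fun w _ => ?_)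
    split_ifs
    · rw [Finset.sum_ite_eq']
      simp
    · simp
  · rw [← Finset.sum_ite_eq' rᶜ y (fun w => F w x)]
    refine Finset.sum_congr rfl (fun w _ => ?_)
    split_ifs
    · rw [Finset.sum_ite_eq']
      simp
    · simp

theorem pair_eq {m : ℕ} (r : Finset (Fin m)) (F : Fin m → Fin m → K) (x : Fin m) :
    ∑ w ∈ rᶜ, ∑ v, F w v * (if del w + del v = del x + del x then 1 else 0) =
      (if x ∈ rᶜ then F x x else 0) := by
  have h1 : ∀ w v : Fin m, F w v * (if del w + del v = del x + del x then (1 : K) else 0) =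
      (if w = x then (if v = x then F w v else 0) else 0) := by
    intro w v
    simp only [del_pair]
    by_cases ha : w = x
    · subst ha
      by_cases hb : v = w
      · subst hb
        simp
      · simp [hb]
    · simp [ha]
  simp only [h1]
  rw [← Finset.sum_ite_eq' rᶜ x (fun w => F w x)]
  refine Finset.sum_congr rfl (fun w _ => ?_)
  split_ifs
  · rw [Finset.sum_ite_eq']
    simp
  · simp

/-- The coefficients of the differential of a family of linear forms. -/
theorem coeff_kd {m : ℕ} (r : Finset (Fin m)) (a : Finset (Fin m) → Fin m → K) (x y : Fin m) :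
    MvPolynomial.coeff (del x + del y)
      (∑ w ∈ rᶜ, MvPolynomial.C (sgn w r : K) * MvPolynomial.X w *
        ∑ v, MvPolynomial.C (a (insert w r) v) * MvPolynomial.X v) =
    ∑ w ∈ rᶜ, ∑ v, ((sgn w r : K) * a (insert w r) v) *
      (if del w + del v = del x + del y then 1 else 0) := by
  rw [MvPolynomial.coeff_sum]
  refine Finset.sum_congr rfl (fun w _ => ?_)
  rw [Finset.mul_sum, MvPolynomial.coeff_sum]
  refine Finset.sum_congr rfl (fun v _ => ?_)
  have h1 : (MvPolynomial.C (sgn w r : K) * MvPolynomial.X w *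
      (MvPolynomial.C (a (insert w r) v) * MvPolynomial.X v) : MvPolynomial (Fin m) K) =
      MvPolynomial.C ((sgn w r : K) * a (insert w r) v) *
        MvPolynomial.monomial (del w + del v) 1 := by
    have h2 : (MvPolynomial.monomial (del w + del v) (1 : K)) =
        MvPolynomial.X w * MvPolynomial.X v := by
      unfold MvPolynomial.X del
      rw [MvPolynomial.monomial_mul, mul_one]
    rw [h2, map_mul]
    ring
  rw [h1, MvPolynomial.coeff_C_mul, MvPolynomial.coeff_monomial]

theorem sgn_sq {m : ℕ} (v : Fin m) (s : Finset (Fin m)) : sgn v s * sgn v s = 1 := by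
  unfold sgn
  rw [← mul_pow]
  simp

theorem sgn_ne {m : ℕ} (v : Fin m) (s : Finset (Fin m)) : ((sgn v s : ℤ) : K) ≠ 0 := by
  intro h
  have h1 : ((sgn v s * sgn v s : ℤ) : K) = 1 := by
    rw [sgn_sq]; simp
  rw [Int.cast_mul, h, mul_zero] at h1
  exact zero_ne_one h1

/-- Position signs: removing `v` first or `w` first. -/
theorem sgn_swap {m : ℕ} (r : Finset (Fin m)) (v w : Fin m) (hv : v ∉ r)
    (hvw : v < w) :
    sgn v (insert w r) = sgn v r ∧ sgn w (insert v r) = - sgn w r := by
  unfold sgn
  constructor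
  · rw [Finset.filter_insert, if_neg (not_lt.2 hvw.le)]
  · rw [Finset.filter_insert, if_pos hvw, Finset.card_insert_of_notMem, pow_succ]
    · ring
    · intro h
      exact hv (Finset.mem_filter.1 h).1

theorem betti_mon_zero {m : ℕ} (K : Type u) [Field K] (E : Set (Fin m →₀ ℕ)) (hE : Quadratic E)
    (hJ : NoJoin E) : betti (monIdeal K E) 4 5 = 0 := by
  classical
  suffices hle : kcyc (monIdeal K E) 4 5 ≤ kbd (monIdeal K E) 4 5 by
    unfold betti quotDim
    have h1 : (kbd (monIdeal K E) 4 5).comap (kcyc (monIdeal K E) 4 5).subtype = ⊤ :=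
      Submodule.comap_subtype_eq_top.2 hle
    rw [h1]
    have h2 : Subsingleton (kcyc (monIdeal K E) 4 5 ⧸
        (⊤ : Submodule K (kcyc (monIdeal K E) 4 5))) := Submodule.Quotient.subsingleton_iff.2 rfl
    exact Module.finrank_zero_of_subsingleton
  intro f hf
  obtain ⟨hf1, hf2⟩ := hf
  have hch : ∀ s, ∃ a : Fin m → K, f s = Ideal.Quotient.mk (monIdeal K E)
      (∑ v, MvPolynomial.C (a v) * MvPolynomial.X v) ∧ (s.card ≠ 4 → ∀ v, a v = 0) := by
    intro s
    by_cases hs : s.card = 4
    · obtain ⟨a, ha⟩ := exists_lin (monIdeal K E) (f s) ((hf1 s).2 hs)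
      exact ⟨a, ha, fun h => absurd hs h⟩
    · refine ⟨0, ?_, fun _ _ => rfl⟩
      have h0 : f s = 0 := by
        by_contra h
        exact hs ((hf1 s).1 h).1
      rw [h0]
      simp
  choose a ha ha0 using hch
  have hP : ∀ r : Finset (Fin m), (∑ w ∈ rᶜ, MvPolynomial.C (sgn w r : K) * MvPolynomial.X w *
      ∑ v, MvPolynomial.C (a (insert w r) v) * MvPolynomial.X v) ∈ monIdeal K E := by
    intro r
    rw [← Ideal.Quotient.eq_zero_iff_mem, map_sum]
    have h1 : kd (monIdeal K E) f r = 0 := congrFun (LinearMap.mem_ker.1 hf2) r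
    rw [kd_apply] at h1
    rw [← h1]
    refine Finset.sum_congr rfl (fun w _ => ?_)
    rw [ha (insert w r), map_mul, map_mul]
    congr 2
  have hE1 : ∀ (r : Finset (Fin m)) (x y : Fin m), x ≠ y → del x + del y ∉ E →
      (if x ∈ rᶜ then (sgn x r : K) * a (insert x r) y else 0) +
      (if y ∈ rᶜ then (sgn y r : K) * a (insert y r) x else 0) = 0 := by
    intro r x y hxy hn
    have h1 := coeff_of_mem_mon E hE _ (hP r) x y hn
    rw [coeff_kd, pair_ne r (fun w v => (sgn w r : K) * a (insert w r) v) x y hxy] at h1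
    exact h1
  have hE2 : ∀ (r : Finset (Fin m)) (x : Fin m), del x + del x ∉ E →
      (if x ∈ rᶜ then (sgn x r : K) * a (insert x r) x else 0) = 0 := by
    intro r x hn
    have h1 := coeff_of_mem_mon E hE _ (hP r) x x hn
    rw [coeff_kd, pair_eq r (fun w v => (sgn w r : K) * a (insert w r) v) x] at h1
    exact h1
  -- the values inside the index set vanish
  have hA : ∀ (s : Finset (Fin m)) (v : Fin m), v ∈ s → a s v = 0 := by
    intro s v hv
    by_cases hs : s.card = 4
    · by_cases hl : del v + del v ∈ E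
      · obtain ⟨w, hw, hwv, hn⟩ := hJ.1 s hs v hv hl
        have h1 := hE1 (s.erase w) w v hwv (by rwa [add_comm])
        rw [if_pos (Finset.mem_compl.2 (Finset.notMem_erase w s)), Finset.insert_erase hw,
          if_neg (by
            rw [Finset.mem_compl, not_not]
            exact Finset.mem_erase.2 ⟨fun h => hwv h.symm, hv⟩), add_zero] at h1
        exact (mul_eq_zero.1 h1).resolve_left (sgn_ne _ _)
      · have h1 := hE2 (s.erase v) v hl
        rw [if_pos (Finset.mem_compl.2 (Finset.notMem_erase v s)), Finset.insert_erase hv] at h1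
        exact (mul_eq_zero.1 h1).resolve_left (sgn_ne _ _)
    · exact ha0 s hs v
  -- equal values for nonadjacent vertices
  have hB : ∀ (W : Finset (Fin m)) (v w : Fin m), v ∈ W → w ∈ W → v < w → del v + del w ∉ E →
      (sgn v (W.erase v) : K) * a (W.erase v) v = (sgn w (W.erase w) : K) * a (W.erase w) w := by
    intro W v w hv hw hvw hn
    have hne : v ≠ w := ne_of_lt hvw
    have e1 : insert w ((W.erase v).erase w) = W.erase v :=
      Finset.insert_erase (Finset.mem_erase.2 ⟨hne.symm, hw⟩)
    have e2 : insert v ((W.erase v).erase w) = W.erase w := by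
      rw [Finset.erase_right_comm]
      exact Finset.insert_erase (Finset.mem_erase.2 ⟨hne, hv⟩)
    have hvr : v ∉ (W.erase v).erase w := fun h =>
      (Finset.notMem_erase v W) (Finset.mem_of_mem_erase h)
    have h1 := hE1 ((W.erase v).erase w) v w hne hn
    rw [if_pos (Finset.mem_compl.2 hvr),
      if_pos (Finset.mem_compl.2 (Finset.notMem_erase _ _)), e1, e2] at h1
    obtain ⟨h2, h3⟩ := sgn_swap ((W.erase v).erase w) v w hvr hvw
    rw [e1] at h2
    rw [e2] at h3
    have h4 : ((sgn v ((W.erase v).erase w) : ℤ) : K) * (sgn v ((W.erase v).erase w) : ℤ) = 1 := by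
      rw [← Int.cast_mul, sgn_sq, Int.cast_one]
    have h5 : ((sgn w ((W.erase v).erase w) : ℤ) : K) * (sgn w ((W.erase v).erase w) : ℤ) = 1 := by
      rw [← Int.cast_mul, sgn_sq, Int.cast_one]
    rw [h2, h3, Int.cast_neg]
    linear_combination ((sgn v ((W.erase v).erase w) : ℤ) : K) *
      ((sgn w ((W.erase v).erase w) : ℤ) : K) * h1 -
      ((sgn w ((W.erase v).erase w) : ℤ) : K) * a (W.erase w) w * h4 -
      ((sgn v ((W.erase v).erase w) : ℤ) : K) * a (W.erase v) v * h5
  have hC : ∀ W : Finset (Fin m), ∃ γ : K, W.card = 5 → ∀ v ∈ W,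
      (sgn v (W.erase v) : K) * a (W.erase v) v = γ := by
    intro W
    by_cases hW : W.card = 5
    · have hne : W.Nonempty := by
        rw [← Finset.card_pos, hW]
        norm_num
      obtain ⟨v0, hv0⟩ := hne
      refine ⟨(sgn v0 (W.erase v0) : K) * a (W.erase v0) v0, fun _ => ?_⟩
      by_contra hcon
      push Not at hcon
      obtain ⟨v1, hv1, hne1⟩ := hcon
      obtain ⟨p, hp, q, hq, hpq⟩ := hJ.2
        (W.filter (fun v => (sgn v (W.erase v) : K) * a (W.erase v) v =
          (sgn v0 (W.erase v0) : K) * a (W.erase v0) v0))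
        (W.filter (fun v => ¬ ((sgn v (W.erase v) : K) * a (W.erase v) v =
          (sgn v0 (W.erase v0) : K) * a (W.erase v0) v0)))
        ⟨v0, Finset.mem_filter.2 ⟨hv0, rfl⟩⟩ ⟨v1, Finset.mem_filter.2 ⟨hv1, hne1⟩⟩
        (Finset.disjoint_filter_filter_not W W _)
        (by rw [Finset.filter_union_filter_not_eq, hW])
      obtain ⟨hpW, hp1⟩ := Finset.mem_filter.1 hp
      obtain ⟨hqW, hq1⟩ := Finset.mem_filter.1 hq
      have hpq' : p ≠ q := by
        intro h
        rw [h] at hp1
        exact hq1 hp1
      rcases lt_or_gt_of_ne hpq' with h | h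
      · exact hq1 ((hB W p q hpW hqW h hpq).symm.trans hp1)
      · exact hq1 ((hB W q p hqW hpW h (by rwa [add_comm])).trans hp1)
    · exact ⟨0, fun h => absurd h hW⟩
  choose γ hγ using hC
  refine ⟨fun W => if W.card = 5 then Ideal.Quotient.mk (monIdeal K E) (MvPolynomial.C (γ W))
    else 0, ?_, ?_⟩
  · intro s
    refine ⟨fun h => ⟨?_, le_rfl⟩, fun h => ?_⟩
    · by_contra h5
      exact h (if_neg h5)
    · have h1 : (if s.card = 5 then Ideal.Quotient.mk (monIdeal K E) (MvPolynomial.C (γ s))
        else 0) = Ideal.Quotient.mk (monIdeal K E) (MvPolynomial.C (γ s)) := if_pos h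
      change (if s.card = 5 then Ideal.Quotient.mk (monIdeal K E) (MvPolynomial.C (γ s))
        else 0) ∈ _
      rw [h1]
      refine ⟨MvPolynomial.C (γ s), ?_, rfl⟩
      exact MvPolynomial.isHomogeneous_C (Fin m) (γ s)
  · funext s
    rw [kd_apply]
    by_cases hs : s.card = 4
    · rw [ha s, map_sum, ← Finset.sum_subset (Finset.subset_univ sᶜ)]
      · refine Finset.sum_congr rfl (fun v hv => ?_)
        have hvs : v ∉ s := Finset.mem_compl.1 hv
        have hc5 : (insert v s).card = 5 := by
          rw [Finset.card_insert_of_notMem hvs, hs]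
        rw [if_pos hc5, ← hγ (insert v s) hc5 v (Finset.mem_insert_self v s),
          Finset.erase_insert hvs]
        have h4 : ((sgn v s : ℤ) : K) * (sgn v s : ℤ) = 1 := by
          rw [← Int.cast_mul, sgn_sq, Int.cast_one]
        have h6 : ((sgn v s : ℤ) : MvPolynomial (Fin m) K ⧸ monIdeal K E) =
            Ideal.Quotient.mk (monIdeal K E) (MvPolynomial.C ((sgn v s : ℤ) : K)) := by
          rw [map_intCast, map_intCast]
        rw [h6, ← map_mul, ← map_mul]
        congr 1
        have h7 : (MvPolynomial.C (((sgn v s : ℤ) : K)) * MvPolynomial.C (((sgn v s : ℤ) : K)) :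
            MvPolynomial (Fin m) K) = 1 := by
          rw [← map_mul, h4, map_one]
        rw [map_mul]
        linear_combination (MvPolynomial.C (a s v) * MvPolynomial.X v) * h7
      · intro v _ hv
        have hvs : v ∈ s := by
          by_contra h
          exact hv (Finset.mem_compl.2 h)
        rw [hA s v hvs, map_zero, zero_mul, map_zero]
    · have h0 : f s = 0 := by
        by_contra h
        exact hs ((hf1 s).1 h).1
      rw [h0]
      refine Finset.sum_eq_zero (fun v hv => ?_)
      have hvs : v ∉ s := Finset.mem_compl.1 hv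
      rw [if_neg, mul_zero]
      rw [Finset.card_insert_of_notMem hvs]
      intro h
      exact hs (by omega)

end Pool.Agent.KosQ2
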