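import Pool.Agent.KosQ2.Defs2

/-!
# Row J: a nonzero class in `Tor_4` of degree five (helper28)
-/

set_option autoImplicit false

namespace Pool.Agent.KosQ2

universe u

variable {K : Type u} [Field K]

theorem coeff_irr_sq {n : ℕ} (p : MvPolynomial (Fin n) K) (hp : p ∈ irr n K ^ 2) (i : Fin n) :
    MvPolynomial.coeff (del i) p = 0 := by
  rw [pow_two] at hp
  refine Submodule.mul_induction_on hp ?_ ?_
  · intro a ha b hb
    have ha' : MvPolynomial.coeff 0 a = 0 := by
      have h := (RingHom.mem_ker).1 ha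
      rwa [MvPolynomial.constantCoeff_eq] at h
    have hb' : MvPolynomial.coeff 0 b = 0 := by
      have h := (RingHom.mem_ker).1 hb
      rwa [MvPolynomial.constantCoeff_eq] at h
    rw [MvPolynomial.coeff_mul]
    refine Finset.sum_eq_zero ?_
    rintro ⟨x, y⟩ hxy
    rw [Finset.HasAntidiagonal.mem_antidiagonal] at hxy
    have hd : x.degree + y.degree = 1 := by
      have h := congrArg Finsupp.degree hxy
      simpa [map_add] using h
    rcases Nat.eq_zero_or_pos x.degree with h0 | h0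
    · have hx : x = 0 := (Finsupp.degree_eq_zero_iff x).1 h0
      simp [hx, ha']
    · have hy : y = 0 := (Finsupp.degree_eq_zero_iff y).1 (by omega)
      simp [hy, hb']
  · intro a b ha hb
    rw [MvPolynomial.coeff_add, ha, hb, add_zero]

/-- Equality in the quotient gives equality of the coefficients of degree one. -/
theorem coeff_eq_of_mk {n : ℕ} (I : Ideal (MvPolynomial (Fin n) K)) (hI2 : I ≤ irr n K ^ 2)
    (p q : MvPolynomial (Fin n) K)
    (h : Ideal.Quotient.mk I p = Ideal.Quotient.mk I q) (i : Fin n) :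
    MvPolynomial.coeff (del i) p = MvPolynomial.coeff (del i) q := by
  have h1 : p - q ∈ I := Ideal.Quotient.eq.1 h
  have h2 := coeff_irr_sq (p - q) (hI2 h1) i
  rw [MvPolynomial.coeff_sub] at h2
  exact sub_eq_zero.1 h2

theorem dpart_finite {n : ℕ} (I : Ideal (MvPolynomial (Fin n) K)) (j : ℕ) :
    Module.Finite K (dpart I j) := by
  have h : (dpart I j).FG := by
    refine Submodule.FG.map _ ?_
    exact MvPolynomial.homogeneousSubmodule_fg (Fin n) K j
  exact Module.Finite.iff_fg.2 h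

theorem kpart_finite {n : ℕ} (I : Ideal (MvPolynomial (Fin n) K)) (i j : ℕ) :
    Module.Finite K (kpart I i j) := by
  have := dpart_finite I (j - i)
  let L : (Finset (Fin n) → dpart I (j - i)) →ₗ[K]
      (Finset (Fin n) → MvPolynomial (Fin n) K ⧸ I) :=
    LinearMap.pi fun s => (dpart I (j - i)).subtype ∘ₗ LinearMap.proj s
  have hle : kpart I i j ≤ LinearMap.range L := by
    intro f hf
    have hf' : ∀ s, f s ∈ dpart I (j - i) := by
      intro s
      by_cases hs : s.card = i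
      · exact (hf s).2 hs
      · have h0 : f s = 0 := by
          by_contra h
          exact hs ((hf s).1 h).1
        rw [h0]
        exact Submodule.zero_mem _
    refine ⟨fun s => ⟨f s, hf' s⟩, ?_⟩
    funext s
    rfl
  have : Module.Finite K (LinearMap.range L) := inferInstance
  exact Submodule.finiteDimensional_of_le hle

/-- The cycle. -/
noncomputable def omg (I : Ideal (MvPolynomial (Fin 9) K)) :
    Finset (Fin 9) → MvPolynomial (Fin 9) K ⧸ I := fun s =>
  if s = {5, 6, 7, 8} then Ideal.Quotient.mk I (MvPolynomial.X 4)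
  else if s = {4, 6, 7, 8} then - Ideal.Quotient.mk I (MvPolynomial.X 5)
  else if s = {4, 5, 7, 8} then Ideal.Quotient.mk I (MvPolynomial.X 6) else 0

theorem X_mem_dpart {n : ℕ} (I : Ideal (MvPolynomial (Fin n) K)) (v : Fin n) :
    Ideal.Quotient.mk I (MvPolynomial.X v) ∈ dpart I 1 := by
  refine ⟨MvPolynomial.X v, ?_, rfl⟩
  exact MvPolynomial.isHomogeneous_X K v

theorem omg_mem_kpart (I : Ideal (MvPolynomial (Fin 9) K)) : omg I ∈ kpart I 4 5 := by
  intro s
  have hc : ∀ s : Finset (Fin 9), s = {5, 6, 7, 8} ∨ s = {4, 6, 7, 8} ∨ s = {4, 5, 7, 8} →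
      s.card = 4 := by
    rintro s (h | h | h) <;> subst h <;> decide
  refine ⟨fun h => ⟨?_, by norm_num⟩, fun _ => ?_⟩
  · apply hc
    by_contra hcon
    push Not at hcon
    apply h
    unfold omg
    rw [if_neg hcon.1, if_neg hcon.2.1, if_neg hcon.2.2]
  · unfold omg
    split_ifs
    · exact X_mem_dpart I 4
    · exact Submodule.neg_mem _ (X_mem_dpart I 5)
    · exact X_mem_dpart I 6
    · exact Submodule.zero_mem _


theorem kd_apply {n : ℕ} (I : Ideal (MvPolynomial (Fin n) K))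
    (f : Finset (Fin n) → MvPolynomial (Fin n) K ⧸ I) (s : Finset (Fin n)) :
    kd I f s = ∑ v ∈ sᶜ, (sgn v s : MvPolynomial (Fin n) K ⧸ I) *
      Ideal.Quotient.mk I (MvPolynomial.X v) * f (insert v s) := rfl

theorem omg_a (I : Ideal (MvPolynomial (Fin 9) K)) :
    omg I {5, 6, 7, 8} = Ideal.Quotient.mk I (MvPolynomial.X 4) := by
  unfold omg
  rw [if_pos rfl]

theorem omg_b (I : Ideal (MvPolynomial (Fin 9) K)) :
    omg I {4, 6, 7, 8} = - Ideal.Quotient.mk I (MvPolynomial.X 5) := by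
  unfold omg
  rw [if_neg (by decide), if_pos rfl]

theorem omg_c (I : Ideal (MvPolynomial (Fin 9) K)) :
    omg I {4, 5, 7, 8} = Ideal.Quotient.mk I (MvPolynomial.X 6) := by
  unfold omg
  rw [if_neg (by decide), if_neg (by decide), if_pos rfl]

theorem omg_zero (I : Ideal (MvPolynomial (Fin 9) K)) (s : Finset (Fin 9))
    (h1 : s ≠ {5, 6, 7, 8}) (h2 : s ≠ {4, 6, 7, 8}) (h3 : s ≠ {4, 5, 7, 8}) : omg I s = 0 := by
  unfold omg
  rw [if_neg h1, if_neg h2, if_neg h3]

/-- The term of `v` at `s` vanishes unless `v` is one of `4, 5, 6` and `s` is the rest. -/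
theorem term_zero (I : Ideal (MvPolynomial (Fin 9) K))
    (hxy : ∀ i j : Fin 9, (i = 4 ∨ i = 5 ∨ i = 6) → (j = 7 ∨ j = 8) →
      MvPolynomial.X i * MvPolynomial.X j ∈ I) (s : Finset (Fin 9)) (v : Fin 9) (hv : v ∉ s)
    (hne : ¬ ((v = 4 ∧ (s = {6, 7, 8} ∨ s = {5, 7, 8})) ∨ (v = 5 ∧ (s = {6, 7, 8} ∨ s = {4, 7, 8})) ∨
      (v = 6 ∧ (s = {5, 7, 8} ∨ s = {4, 7, 8})))) :
    Ideal.Quotient.mk I (MvPolynomial.X v) * omg I (insert v s) = 0 := by
  have hz : ∀ i j : Fin 9, (i = 4 ∨ i = 5 ∨ i = 6) → (j = 7 ∨ j = 8) →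
      Ideal.Quotient.mk I (MvPolynomial.X j) * Ideal.Quotient.mk I (MvPolynomial.X i) = 0 := by
    intro i j hi hj
    rw [← map_mul, mul_comm]
    exact Ideal.Quotient.eq_zero_iff_mem.2 (hxy i j hi hj)
  have hs : ∀ A : Finset (Fin 9), insert v s = A → v ∈ A ∧ s = A.erase v := by
    intro A hA
    refine ⟨by rw [← hA]; exact Finset.mem_insert_self v s, ?_⟩
    rw [← hA, Finset.erase_insert hv]
  by_cases hA : insert v s = {5, 6, 7, 8}
  · rw [hA, omg_a]
    obtain ⟨hvA, hsA⟩ := hs _ hA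
    have hv' : v = 5 ∨ v = 6 ∨ v = 7 ∨ v = 8 := by simpa using hvA
    rcases hv' with h | h | h | h
    · exfalso; apply hne; right; left; refine ⟨h, Or.inl ?_⟩; rw [hsA, h]; decide
    · exfalso; apply hne; right; right; refine ⟨h, Or.inl ?_⟩; rw [hsA, h]; decide
    · exact hz 4 v (Or.inl rfl) (Or.inl h)
    · exact hz 4 v (Or.inl rfl) (Or.inr h)
  by_cases hB : insert v s = {4, 6, 7, 8}
  · rw [hB, omg_b]
    suffices h0 : Ideal.Quotient.mk I (MvPolynomial.X v) * Ideal.Quotient.mk I (MvPolynomial.X 5) = 0 by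
      linear_combination (-1 : MvPolynomial (Fin 9) K ⧸ I) * h0
    obtain ⟨hvA, hsA⟩ := hs _ hB
    have hv' : v = 4 ∨ v = 6 ∨ v = 7 ∨ v = 8 := by simpa using hvA
    rcases hv' with h | h | h | h
    · exfalso; apply hne; left; refine ⟨h, Or.inl ?_⟩; rw [hsA, h]; decide
    · exfalso; apply hne; right; right; refine ⟨h, Or.inr ?_⟩; rw [hsA, h]; decide
    · exact hz 5 v (Or.inr (Or.inl rfl)) (Or.inl h)
    · exact hz 5 v (Or.inr (Or.inl rfl)) (Or.inr h)
  by_cases hC : insert v s = {4, 5, 7, 8}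
  · rw [hC, omg_c]
    obtain ⟨hvA, hsA⟩ := hs _ hC
    have hv' : v = 4 ∨ v = 5 ∨ v = 7 ∨ v = 8 := by simpa using hvA
    rcases hv' with h | h | h | h
    · exfalso; apply hne; left; refine ⟨h, Or.inr ?_⟩; rw [hsA, h]; decide
    · exfalso; apply hne; right; left; refine ⟨h, Or.inr ?_⟩; rw [hsA, h]; decide
    · exact hz 6 v (Or.inr (Or.inr rfl)) (Or.inl h)
    · exact hz 6 v (Or.inr (Or.inr rfl)) (Or.inr h)
  rw [omg_zero I _ hA hB hC, mul_zero]

theorem sum_two {n : ℕ} {M : Type u} [AddCommMonoid M] (s : Finset (Fin n)) (g : Fin n → M)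
    (a b : Fin n) (ha : a ∈ sᶜ) (hb : b ∈ sᶜ) (hab : a ≠ b)
    (h : ∀ v ∈ sᶜ, v ≠ a → v ≠ b → g v = 0) : ∑ v ∈ sᶜ, g v = g a + g b := by
  rw [← Finset.sum_subset (s₁ := {a, b})]
  · rw [Finset.sum_pair hab]
  · intro x hx
    rcases Finset.mem_insert.1 hx with h1 | h1
    · rw [h1]; exact ha
    · rw [Finset.mem_singleton.1 h1]; exact hb
  · intro x hx hx2
    apply h x hx
    · intro h1; apply hx2; rw [h1]; simp
    · intro h1; apply hx2; rw [h1]; simp

theorem kd_omg (I : Ideal (MvPolynomial (Fin 9) K))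
    (hxy : ∀ i j : Fin 9, (i = 4 ∨ i = 5 ∨ i = 6) → (j = 7 ∨ j = 8) →
      MvPolynomial.X i * MvPolynomial.X j ∈ I) : kd I (omg I) = 0 := by
  funext s
  rw [kd_apply, Pi.zero_apply]
  by_cases h1 : s = {6, 7, 8}
  · subst h1
    rw [sum_two _ _ 4 5 (by decide) (by decide) (by decide)]
    · have e1 : (insert 4 {6, 7, 8} : Finset (Fin 9)) = {4, 6, 7, 8} := rfl
      have e2 : (insert 5 {6, 7, 8} : Finset (Fin 9)) = {5, 6, 7, 8} := rfl
      have e3 : sgn 4 ({6, 7, 8} : Finset (Fin 9)) = 1 := by decide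
      have e4 : sgn 5 ({6, 7, 8} : Finset (Fin 9)) = 1 := by decide
      rw [e1, e2, e3, e4, omg_a, omg_b]
      push_cast
      ring
    · intro v hv h4 h5
      rw [mul_assoc, term_zero I hxy _ v (Finset.mem_compl.1 hv), mul_zero]
      rintro (h | h | h)
      · exact h4 h.1
      · exact h5 h.1
      · rcases h.2 with h | h
        · exact absurd h (by decide)
        · exact absurd h (by decide)
  by_cases h2 : s = {5, 7, 8}
  · subst h2
    rw [sum_two _ _ 4 6 (by decide) (by decide) (by decide)]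
    · have e1 : (insert 4 {5, 7, 8} : Finset (Fin 9)) = {4, 5, 7, 8} := rfl
      have e2 : (insert 6 {5, 7, 8} : Finset (Fin 9)) = {5, 6, 7, 8} := by decide
      have e3 : sgn 4 ({5, 7, 8} : Finset (Fin 9)) = 1 := by decide
      have e4 : sgn 6 ({5, 7, 8} : Finset (Fin 9)) = -1 := by decide
      rw [e1, e2, e3, e4, omg_a, omg_c]
      push_cast
      ring
    · intro v hv h4 h5
      rw [mul_assoc, term_zero I hxy _ v (Finset.mem_compl.1 hv), mul_zero]
      rintro (h | h | h)
      · exact h4 h.1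
      · rcases h.2 with h | h
        · exact absurd h (by decide)
        · exact absurd h (by decide)
      · exact h5 h.1
  by_cases h3 : s = {4, 7, 8}
  · subst h3
    rw [sum_two _ _ 5 6 (by decide) (by decide) (by decide)]
    · have e1 : (insert 5 {4, 7, 8} : Finset (Fin 9)) = {4, 5, 7, 8} := by decide
      have e2 : (insert 6 {4, 7, 8} : Finset (Fin 9)) = {4, 6, 7, 8} := by decide
      have e3 : sgn 5 ({4, 7, 8} : Finset (Fin 9)) = -1 := by decide
      have e4 : sgn 6 ({4, 7, 8} : Finset (Fin 9)) = -1 := by decide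
      rw [e1, e2, e3, e4, omg_b, omg_c]
      push_cast
      ring
    · intro v hv h4 h5
      rw [mul_assoc, term_zero I hxy _ v (Finset.mem_compl.1 hv), mul_zero]
      rintro (h | h | h)
      · rcases h.2 with h | h
        · exact absurd h (by decide)
        · exact absurd h (by decide)
      · exact h4 h.1
      · exact h5 h.1
  refine Finset.sum_eq_zero (fun v hv => ?_)
  rw [mul_assoc, term_zero I hxy _ v (Finset.mem_compl.1 hv), mul_zero]
  rintro (h | h | h)
  · rcases h.2 with h | h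
    · exact h1 h
    · exact h2 h
  · rcases h.2 with h | h
    · exact h1 h
    · exact h3 h
  · rcases h.2 with h | h
    · exact h2 h
    · exact h3 h

theorem coeff_del_X {n : ℕ} (i : Fin n) :
    MvPolynomial.coeff (del i) (MvPolynomial.X i : MvPolynomial (Fin n) K) = 1 := by
  rw [MvPolynomial.coeff_X]
  exact if_pos rfl

/-- The coefficient of `x_i` in the value of a boundary. -/
theorem bd_coeff {n : ℕ} (I : Ideal (MvPolynomial (Fin n) K)) (hI2 : I ≤ irr n K ^ 2)
    (p : Finset (Fin n) → MvPolynomial (Fin n) K)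
    (hp : ∀ s, p s = MvPolynomial.C (MvPolynomial.coeff 0 (p s)))
    (g : Finset (Fin n) → MvPolynomial (Fin n) K ⧸ I)
    (hg : ∀ s, g s = Ideal.Quotient.mk I (p s)) (s : Finset (Fin n))
    (q : MvPolynomial (Fin n) K) (hq : kd I g s = Ideal.Quotient.mk I q) (i : Fin n)
    (hi : i ∉ s) :
    (sgn i s : K) * MvPolynomial.coeff 0 (p (insert i s)) = MvPolynomial.coeff (del i) q := by
  rw [kd_apply] at hq
  have h1 : Ideal.Quotient.mk I (∑ v ∈ sᶜ, MvPolynomial.C (sgn v s : K) * MvPolynomial.X v *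
      MvPolynomial.C (MvPolynomial.coeff 0 (p (insert v s)))) = Ideal.Quotient.mk I q := by
    rw [← hq, map_sum]
    refine Finset.sum_congr rfl (fun v _ => ?_)
    rw [hg, map_mul, map_mul, ← hp]
    congr 2
  have h2 := coeff_eq_of_mk I hI2 _ _ h1 i
  have hcf : ∀ (a b : K) (v : Fin n), MvPolynomial.coeff (del i)
      (MvPolynomial.C a * MvPolynomial.X v * MvPolynomial.C b : MvPolynomial (Fin n) K) =
      a * (b * MvPolynomial.coeff (del i) (MvPolynomial.X v : MvPolynomial (Fin n) K)) := by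
    intro a b v
    rw [mul_assoc, MvPolynomial.coeff_C_mul, mul_comm (MvPolynomial.X v),
      MvPolynomial.coeff_C_mul]
  rw [← h2, MvPolynomial.coeff_sum, Finset.sum_eq_single i]
  · rw [hcf, coeff_del_X, mul_one]
  · intro v _ hvi
    rw [hcf]
    have h3 : MvPolynomial.coeff (del i) (MvPolynomial.X v : MvPolynomial (Fin n) K) = 0 := by
      rw [MvPolynomial.coeff_X]
      rw [if_neg]
      intro h
      exact hvi ((Finsupp.single_left_inj one_ne_zero).1 h)
    rw [h3, mul_zero, mul_zero]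
  · intro h
    exact absurd (Finset.mem_compl.2 hi) h

theorem omg_not_bd (I : Ideal (MvPolynomial (Fin 9) K)) (hI2 : I ≤ irr 9 K ^ 2) :
    omg I ∉ kbd I 4 5 := by
  rintro ⟨g, hg, hgo⟩
  have hch : ∀ s, ∃ p : MvPolynomial (Fin 9) K,
      p = MvPolynomial.C (MvPolynomial.coeff 0 p) ∧ g s = Ideal.Quotient.mk I p := by
    intro s
    by_cases hs : s.card = 5
    · obtain ⟨p, hp, hpg⟩ := (hg s).2 hs
      refine ⟨p, ?_, hpg.symm⟩
      have hp' : p.IsHomogeneous 0 := hp
      exact MvPolynomial.totalDegree_eq_zero_iff_eq_C.1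
        (Nat.le_zero.1 hp'.totalDegree_le)
    · refine ⟨0, by simp, ?_⟩
      rw [map_zero]
      by_contra h
      exact hs ((hg s).1 h).1
  choose p hp hgp using hch
  have h1 := bd_coeff I hI2 p hp g hgp {5, 6, 7, 8} (MvPolynomial.X 4)
    (by rw [hgo, omg_a]) 4 (by decide)
  have h2 := bd_coeff I hI2 p hp g hgp {4, 5, 6, 7} 0
    (by rw [hgo, omg_zero I _ (by decide) (by decide) (by decide), map_zero]) 8 (by decide)
  have e1 : (insert 4 {5, 6, 7, 8} : Finset (Fin 9)) = {4, 5, 6, 7, 8} := rfl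
  have e2 : (insert 8 {4, 5, 6, 7} : Finset (Fin 9)) = {4, 5, 6, 7, 8} := by decide
  have e3 : sgn 4 ({5, 6, 7, 8} : Finset (Fin 9)) = 1 := by decide
  have e4 : sgn 8 ({4, 5, 6, 7} : Finset (Fin 9)) = 1 := by decide
  rw [e1, e3, coeff_del_X] at h1
  rw [e2, e4, MvPolynomial.coeff_zero] at h2
  exact one_ne_zero (h1.symm.trans h2)

theorem betti_pos (K : Type u) [Field K] (I : Ideal (MvPolynomial (Fin 9) K))
    (hI : Homog I) (hI2 : I ≤ irr 9 K ^ 2)
    (hxy : ∀ i j : Fin 9, (i = 4 ∨ i = 5 ∨ i = 6) → (j = 7 ∨ j = 8) →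
      MvPolynomial.X i * MvPolynomial.X j ∈ I) : 0 < betti I 4 5 := by
  have _ := hI
  have hfin := kpart_finite I 4 5
  have hfin2 : Module.Finite K (kcyc I 4 5) :=
    Submodule.finiteDimensional_of_le (inf_le_left : kcyc I 4 5 ≤ kpart I 4 5)
  have hmem : omg I ∈ kcyc I 4 5 := by
    refine ⟨omg_mem_kpart I, ?_⟩
    exact LinearMap.mem_ker.2 (kd_omg I hxy)
  unfold betti quotDim
  have hnt : Nontrivial (kcyc I 4 5 ⧸ (kbd I 4 5).comap (kcyc I 4 5).subtype) := by
    refine ⟨⟨Submodule.Quotient.mk ⟨omg I, hmem⟩, 0, ?_⟩⟩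
    intro h
    rw [Submodule.Quotient.mk_eq_zero] at h
    exact omg_not_bd I hI2 h
  exact Module.finrank_pos

end Pool.Agent.KosQ2
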