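import Pool.Agent.KosQ2.Defs2

/-!
# Row H, inclusion-exclusion for outside neighbours (helper17)
-/

set_option autoImplicit false

namespace Pool.Agent.KosQ2

theorem mem_nbS {m : ℕ} (E : Set (Fin m →₀ ℕ)) (c : Fin 4 → Fin m) (T : Finset (Fin 4))
    (z : Fin m) : z ∈ nbS E c T ↔ (∀ i, c i ≠ z) ∧ ∃ i ∈ T, del (c i) + del z ∈ E := by
  unfold nbS
  simp

theorem nbS_union {m : ℕ} (E : Set (Fin m →₀ ℕ)) (c : Fin 4 → Fin m) (S T : Finset (Fin 4)) :
    nbS E c (S ∪ T) = nbS E c S ∪ nbS E c T := by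
  ext z
  simp only [Finset.mem_union, mem_nbS]
  constructor
  · rintro ⟨h, i, hi | hi, hE⟩
    · exact Or.inl ⟨h, i, hi, hE⟩
    · exact Or.inr ⟨h, i, hi, hE⟩
  · rintro (⟨h, i, hi, hE⟩ | ⟨h, i, hi, hE⟩)
    · exact ⟨h, i, Or.inl hi, hE⟩
    · exact ⟨h, i, Or.inr hi, hE⟩

theorem card2 {α : Type} [DecidableEq α] (A B : Finset α) :
    (A ∪ B).card + (A ∩ B).card = A.card + B.card := Finset.card_union_add_card_inter A B

theorem card3 {α : Type} [DecidableEq α] (A B C : Finset α) :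
    (A ∪ (B ∪ C)).card + (A ∩ B).card + (A ∩ C).card + (B ∩ C).card =
      A.card + B.card + C.card + (A ∩ B ∩ C).card := by
  have h1 := card2 A (B ∪ C)
  have h2 := card2 B C
  have h3 : A ∩ (B ∪ C) = (A ∩ B) ∪ (A ∩ C) := Finset.inter_union_distrib_left A B C
  have h4 := card2 (A ∩ B) (A ∩ C)
  have h5 : (A ∩ B) ∩ (A ∩ C) = A ∩ B ∩ C := by
    ext x; simp only [Finset.mem_inter]; tauto
  rw [h3] at h1
  rw [h5] at h4
  omega

theorem card4 {α : Type} [DecidableEq α] (A B C D : Finset α) :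
    (A ∪ (B ∪ (C ∪ D))).card + (A ∩ B).card + (A ∩ C).card + (A ∩ D).card + (B ∩ C).card +
      (B ∩ D).card + (C ∩ D).card + (A ∩ B ∩ C ∩ D).card =
      A.card + B.card + C.card + D.card + (A ∩ B ∩ C).card + (A ∩ B ∩ D).card +
        (A ∩ C ∩ D).card + (B ∩ C ∩ D).card := by
  have h1 := card2 A (B ∪ (C ∪ D))
  have h2 := card3 B C D
  have h3 : A ∩ (B ∪ (C ∪ D)) = (A ∩ B) ∪ ((A ∩ C) ∪ (A ∩ D)) := by
    rw [Finset.inter_union_distrib_left, Finset.inter_union_distrib_left]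
  have h4 := card3 (A ∩ B) (A ∩ C) (A ∩ D)
  have h5 : (A ∩ B) ∩ (A ∩ C) = A ∩ B ∩ C := by
    ext x; simp only [Finset.mem_inter]; tauto
  have h6 : (A ∩ B) ∩ (A ∩ D) = A ∩ B ∩ D := by
    ext x; simp only [Finset.mem_inter]; tauto
  have h7 : (A ∩ C) ∩ (A ∩ D) = A ∩ C ∩ D := by
    ext x; simp only [Finset.mem_inter]; tauto
  have h8 : A ∩ B ∩ C ∩ (A ∩ D) = A ∩ B ∩ C ∩ D := by
    ext x; simp only [Finset.mem_inter]; tauto
  rw [h3] at h1
  rw [h5, h6, h7, h8] at h4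
  omega

theorem nb2 {m : ℕ} (E : Set (Fin m →₀ ℕ)) (c : Fin 4 → Fin m) (i j : Fin 4) :
    (nbS E c {i, j}).card + (nbS E c {i} ∩ nbS E c {j}).card =
      (nbS E c {i}).card + (nbS E c {j}).card := by
  have h : nbS E c {i, j} = nbS E c {i} ∪ nbS E c {j} := by
    rw [← nbS_union]
    rfl
  rw [h]
  exact card2 _ _

theorem nb3 {m : ℕ} (E : Set (Fin m →₀ ℕ)) (c : Fin 4 → Fin m) (i j k : Fin 4) :
    (nbS E c {i, j, k}).card + (nbS E c {i} ∩ nbS E c {j}).card +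
      (nbS E c {i} ∩ nbS E c {k}).card + (nbS E c {j} ∩ nbS E c {k}).card =
      (nbS E c {i}).card + (nbS E c {j}).card + (nbS E c {k}).card +
        (nbS E c {i} ∩ nbS E c {j} ∩ nbS E c {k}).card := by
  have h : nbS E c {i, j, k} = nbS E c {i} ∪ (nbS E c {j} ∪ nbS E c {k}) := by
    rw [← nbS_union, ← nbS_union]
    rfl
  rw [h]
  exact card3 _ _ _

theorem nb4 {m : ℕ} (E : Set (Fin m →₀ ℕ)) (c : Fin 4 → Fin m) :
    (nbS E c {0, 1, 2, 3}).card + (nbS E c {0} ∩ nbS E c {1}).card +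
      (nbS E c {0} ∩ nbS E c {2}).card + (nbS E c {0} ∩ nbS E c {3}).card +
      (nbS E c {1} ∩ nbS E c {2}).card + (nbS E c {1} ∩ nbS E c {3}).card +
      (nbS E c {2} ∩ nbS E c {3}).card +
      (nbS E c {0} ∩ nbS E c {1} ∩ nbS E c {2} ∩ nbS E c {3}).card =
      (nbS E c {0}).card + (nbS E c {1}).card + (nbS E c {2}).card + (nbS E c {3}).card +
        (nbS E c {0} ∩ nbS E c {1} ∩ nbS E c {2}).card +
        (nbS E c {0} ∩ nbS E c {1} ∩ nbS E c {3}).card +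
        (nbS E c {0} ∩ nbS E c {2} ∩ nbS E c {3}).card +
        (nbS E c {1} ∩ nbS E c {2} ∩ nbS E c {3}).card := by
  have h : nbS E c {0, 1, 2, 3} =
      nbS E c {0} ∪ (nbS E c {1} ∪ (nbS E c {2} ∪ nbS E c {3})) := by
    rw [← nbS_union, ← nbS_union, ← nbS_union]
    rfl
  rw [h]
  exact card4 _ _ _ _

/-- If all pairs of chosen vertices are independent, every subset is independent. -/
theorem indS_univ {m : ℕ} (E : Set (Fin m →₀ ℕ)) (c : Fin 4 → Fin m)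
    (hind : ∀ i j, i ≠ j → del (c i) + del (c j) ∉ E) : indS E c = Finset.univ := by
  classical
  ext T
  unfold indS
  simp only [Finset.mem_filter, Finset.mem_univ, true_and, iff_true]
  intro i _ j _ hij
  exact hind i j hij

end Pool.Agent.KosQ2
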