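import Pool.Agent.KosQ2.Defs2

/-!
# Row H, last step (helper28): small neighbourhoods exclude joins
-/

set_option autoImplicit false

namespace Pool.Agent.KosQ2

theorem mem_nbS_single {m : ℕ} (E : Set (Fin m →₀ ℕ)) (c : Fin 4 → Fin m) (i : Fin 4)
    (z : Fin m) : z ∈ nbS E c {i} ↔ (∀ j, c j ≠ z) ∧ del (c i) + del z ∈ E := by
  unfold nbS
  simp

theorem noJoin_side {m : ℕ} (E : Set (Fin m →₀ ℕ)) (c : Fin 4 → Fin m)
    (h1 : ∀ i, (({i} : Finset (Fin 4)) ∩ loopS E c).card + (nbS E c {i}).card ≤ 3)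
    (h2 : ∀ i j, i ≠ j → (nbS E c {i} ∩ nbS E c {j}).card ≤ 1)
    (h3 : ∀ z, (∀ i, c i ≠ z) → ∃ i, del (c i) + del z ∉ E)
    (P Q : Finset (Fin m)) (hP : P.Nonempty) (hQ : Q.Nonempty) (hd : Disjoint P Q)
    (h5 : (P ∪ Q).card = 5) (hPc : ∀ p ∈ P, ∃ i, c i = p) (hQc : ∀ q ∈ Q, ∀ i, c i ≠ q)
    (hall : ∀ p ∈ P, ∀ q ∈ Q, del p + del q ∈ E) : False := by
  classical
  rw [Finset.card_union_of_disjoint hd] at h5
  have hsub : ∀ i, c i ∈ P → Q ⊆ nbS E c {i} := by
    intro i hi q hq
    exact (mem_nbS_single E c i q).2 ⟨hQc q hq, hall _ hi q hq⟩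
  -- `Q` has at most three elements
  obtain ⟨p, hp⟩ := hP
  obtain ⟨i, hi⟩ := hPc p hp
  have hip : c i ∈ P := by rw [hi]; exact hp
  have hQ3 : Q.card ≤ 3 := by
    have := Finset.card_le_card (hsub i hip)
    have := h1 i
    omega
  -- a second element of `P`
  have hP2 : 1 < P.card := by omega
  obtain ⟨p', hp', hne⟩ := Finset.exists_mem_ne hP2 p
  obtain ⟨j, hj⟩ := hPc p' hp'
  have hjp : c j ∈ P := by rw [hj]; exact hp'
  have hij : i ≠ j := by
    intro h
    apply hne
    rw [← hj, ← h, hi]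
  have hQ1 : Q.card ≤ 1 := by
    refine le_trans (Finset.card_le_card ?_) (h2 i j hij)
    exact Finset.subset_inter (hsub i hip) (hsub j hjp)
  -- so all four are in `P`
  have hP4 : 4 ≤ P.card := by omega
  have hPim : P ⊆ Finset.univ.image c := by
    intro x hx
    obtain ⟨k, hk⟩ := hPc x hx
    rw [← hk]
    exact Finset.mem_image_of_mem c (Finset.mem_univ k)
  have hcard : (Finset.univ.image c).card ≤ 4 := by
    refine le_trans Finset.card_image_le ?_
    simp
  have hEq : P = Finset.univ.image c := Finset.eq_of_subset_of_card_le hPim (by omega)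
  obtain ⟨q, hq⟩ := hQ
  obtain ⟨k, hk⟩ := h3 q (hQc q hq)
  apply hk
  apply hall _ _ q hq
  rw [hEq]
  exact Finset.mem_image_of_mem c (Finset.mem_univ k)

theorem noJoin_of_small {m : ℕ} (E : Set (Fin m →₀ ℕ)) (c : Fin 4 → Fin m)
    (hF : ∀ v w, (∀ i, c i ≠ v) → (∀ i, c i ≠ w) → del v + del w ∉ E)
    (hind : ∀ i j, i ≠ j → del (c i) + del (c j) ∉ E)
    (h1 : ∀ i, (({i} : Finset (Fin 4)) ∩ loopS E c).card + (nbS E c {i}).card ≤ 3)
    (h2 : ∀ i j, i ≠ j → (nbS E c {i} ∩ nbS E c {j}).card ≤ 1)
    (h3 : ∀ z, (∀ i, c i ≠ z) → ∃ i, del (c i) + del z ∉ E) : NoJoin E := by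
  classical
  -- an edge between different vertices has exactly one end among the chosen ones
  have hcc : ∀ i j, c i ≠ c j → del (c i) + del (c j) ∉ E := by
    intro i j h
    apply hind
    intro h'
    exact h (by rw [h'])
  refine ⟨?_, ?_⟩
  · intro s hs v hv hvE
    by_contra hcon
    push Not at hcon
    by_cases hvc : ∀ i, c i ≠ v
    · exact hF v v hvc hvc hvE
    · push Not at hvc
      obtain ⟨i, hi⟩ := hvc
      subst hi
      have hsub : s.erase (c i) ⊆ nbS E c {i} := by
        intro w hw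
        have hw1 := Finset.ne_of_mem_erase hw
        have hw2 := Finset.mem_of_mem_erase hw
        have hE := hcon w hw2 hw1
        refine (mem_nbS_single E c i w).2 ⟨?_, hE⟩
        intro j hj
        subst hj
        exact hcc i j hw1.symm hE
      have hc3 : 3 ≤ (nbS E c {i}).card := by
        refine le_trans ?_ (Finset.card_le_card hsub)
        rw [Finset.card_erase_of_mem hv, hs]
      have hl : (({i} : Finset (Fin 4)) ∩ loopS E c).card = 1 := by
        have : ({i} : Finset (Fin 4)) ∩ loopS E c = {i} := by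
          apply Finset.inter_eq_left.2
          intro x hx
          rw [Finset.mem_singleton.1 hx]
          unfold loopS
          simp [hvE]
        rw [this, Finset.card_singleton]
      have := h1 i
      omega
  · intro P Q hP hQ hd h5
    by_contra hcon
    push Not at hcon
    have hside : ∀ p ∈ P, ∀ q ∈ Q, p ≠ q := by
      intro p hp q hq h
      subst h
      exact Finset.disjoint_left.1 hd hp hq
    by_cases hex : ∃ p ∈ P, ∃ i, c i = p
    · -- `P` inside, `Q` outside
      obtain ⟨p, hp, i, hi⟩ := hex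
      have hQc : ∀ q ∈ Q, ∀ j, c j ≠ q := by
        intro q hq j hj
        have hE := hcon p hp q hq
        have hne := hside p hp q hq
        rw [← hi, ← hj] at hE hne
        exact hcc i j hne hE
      have hPc : ∀ p ∈ P, ∃ i, c i = p := by
        intro p' hp'
        by_contra hno
        push Not at hno
        obtain ⟨q, hq⟩ := hQ
        exact hF p' q hno (hQc q hq) (hcon p' hp' q hq)
      exact noJoin_side E c h1 h2 h3 P Q hP hQ hd h5 hPc hQc hcon
    · -- `P` outside, `Q` inside
      push Not at hex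
      have hPc : ∀ p ∈ P, ∀ i, c i ≠ p := hex
      have hQc : ∀ q ∈ Q, ∃ i, c i = q := by
        intro q hq
        by_contra hno
        push Not at hno
        obtain ⟨p, hp⟩ := hP
        exact hF p q (hPc p hp) hno (hcon p hp q hq)
      refine noJoin_side E c h1 h2 h3 Q P hQ hP hd.symm (by rw [Finset.union_comm]; exact h5)
        hQc hPc ?_
      intro q hq p hp
      rw [add_comm]
      exact hcon p hp q hq

end Pool.Agent.KosQ2
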