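import Mathlib

/-!
# Row H, the arithmetic of the coefficients 3, 4, 5
-/

set_option autoImplicit false

namespace Pool.Agent.KosQ2
theorem arith (m01 m02 m03 m12 m13 m23 t012 t013 t023 t123 q : ℕ)
    (b01 : m01 ≤ 1) (b02 : m02 ≤ 1) (b03 : m03 ≤ 1) (b12 : m12 ≤ 2) (b13 : m13 ≤ 2)
    (b23 : m23 ≤ 2) (hM : m01 + m02 + m03 + m12 + m13 + m23 = 3)
    (q1 : q ≤ t012) (q2 : q ≤ t013) (q3 : q ≤ t023) (q4 : q ≤ t123)
    (h4 : (((3 - m01).choose 2 : ℕ) : ℤ) + ((3 - m02).choose 2 : ℕ) + ((3 - m03).choose 2 : ℕ) +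
      ((4 - m12).choose 2 : ℕ) + ((4 - m13).choose 2 : ℕ) + ((4 - m23).choose 2 : ℕ) =
      20 + (t012 + t013 + t023 + t123))
    (h5 : -((((3 - m01).choose 3 : ℕ) : ℤ) + ((3 - m02).choose 3 : ℕ) + ((3 - m03).choose 3 : ℕ) +
      ((4 - m12).choose 3 : ℕ) + ((4 - m13).choose 3 : ℕ) + ((4 - m23).choose 3 : ℕ)) +
      (((5 + t012 - (m01 + m02 + m12)).choose 2 : ℕ) + ((5 + t013 - (m01 + m03 + m13)).choose 2 : ℕ)
      + ((5 + t023 - (m02 + m03 + m23)).choose 2 : ℕ)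
      + ((6 + t123 - (m12 + m13 + m23)).choose 2 : ℕ)) -
      (4 + (t012 + t013 + t023 + t123) - q) = 8) :
    m12 ≤ 1 ∧ m13 ≤ 1 ∧ m23 ≤ 1 ∧ q = 0 := by
  have a1 : ∀ m : ℕ, m ≤ 1 → (((3 - m).choose 2 : ℕ) : ℤ) = 3 - 2 * m := by
    intro m hm
    interval_cases m <;> simp
  have a2 : ∀ m : ℕ, m ≤ 2 → ((((4 - m).choose 2 : ℕ) : ℤ) = 6 - 3 * m ∧ m ≤ 1) ∨
      ((((4 - m).choose 2 : ℕ) : ℤ) = 1 ∧ m = 2) := by
    intro m hm
    interval_cases m <;> simp [Nat.choose]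
  have e1 := a1 m01 b01
  have e2 := a1 m02 b02
  have e3 := a1 m03 b03
  have e4 := a2 m12 b12
  have e5 := a2 m13 b13
  have e6 := a2 m23 b23
  have hT : t012 + t013 + t023 + t123 ≤ 1 := by omega
  refine ⟨?_, ?_, ?_, by omega⟩
  · by_contra hcon
    have hm : m12 = 2 := by omega
    have z13 : m13 = 0 := by omega
    have z23 : m23 = 0 := by omega
    have y1 : t012 = 0 := by omega
    have y2 : t013 = 0 := by omega
    have y3 : t023 = 0 := by omega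
    have y4 : t123 = 0 := by omega
    have y5 : q = 0 := by omega
    clear h4 e1 e2 e3 e4 e5 e6 a1 a2 hcon b12 b13 b23 hT q1 q2 q3 q4
    subst hm z13 z23 y1 y2 y3 y4 y5
    interval_cases m01 <;> interval_cases m02 <;> interval_cases m03 <;>
      first | omega | (norm_num [Nat.choose] at h5)
  · by_contra hcon
    have hm : m13 = 2 := by omega
    have z13 : m12 = 0 := by omega
    have z23 : m23 = 0 := by omega
    have y1 : t012 = 0 := by omega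
    have y2 : t013 = 0 := by omega
    have y3 : t023 = 0 := by omega
    have y4 : t123 = 0 := by omega
    have y5 : q = 0 := by omega
    clear h4 e1 e2 e3 e4 e5 e6 a1 a2 hcon b12 b13 b23 hT q1 q2 q3 q4
    subst hm z13 z23 y1 y2 y3 y4 y5
    interval_cases m01 <;> interval_cases m02 <;> interval_cases m03 <;>
      first | omega | (norm_num [Nat.choose] at h5)
  · by_contra hcon
    have hm : m23 = 2 := by omega
    have z13 : m12 = 0 := by omega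
    have z23 : m13 = 0 := by omega
    have y1 : t012 = 0 := by omega
    have y2 : t013 = 0 := by omega
    have y3 : t023 = 0 := by omega
    have y4 : t123 = 0 := by omega
    have y5 : q = 0 := by omega
    clear h4 e1 e2 e3 e4 e5 e6 a1 a2 hcon b12 b13 b23 hT q1 q2 q3 q4
    subst hm z13 z23 y1 y2 y3 y4 y5
    interval_cases m01 <;> interval_cases m02 <;> interval_cases m03 <;>
      first | omega | (norm_num [Nat.choose] at h5)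

theorem arith1 (k0 k1 k2 k3 k01 k02 k03 k12 k13 k23 k012 k013 k023 k123 k0123
      m01 m02 m03 m12 m13 m23 t012 t013 t023 t123 q : ℕ)
    (a0 : k0 = 1) (a1 : k1 = 2) (a2 : k2 = 2) (a3 : k3 = 2)
    (r01 : k01 + m01 = k0 + k1) (r02 : k02 + m02 = k0 + k2) (r03 : k03 + m03 = k0 + k3)
    (r12 : k12 + m12 = k1 + k2) (r13 : k13 + m13 = k1 + k3) (r23 : k23 + m23 = k2 + k3)
    (r012 : k012 + m01 + m02 + m12 = k0 + k1 + k2 + t012)
    (r013 : k013 + m01 + m03 + m13 = k0 + k1 + k3 + t013)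
    (r023 : k023 + m02 + m03 + m23 = k0 + k2 + k3 + t023)
    (r123 : k123 + m12 + m13 + m23 = k1 + k2 + k3 + t123)
    (r : k0123 + m01 + m02 + m03 + m12 + m13 + m23 + q =
      k0 + k1 + k2 + k3 + t012 + t013 + t023 + t123)
    (p01 : 2 ≤ k01) (p02 : 2 ≤ k02) (p03 : 2 ≤ k03) (p12 : 2 ≤ k12) (p13 : 2 ≤ k13)
    (p23 : 2 ≤ k23) (q1 : q ≤ t012) (q2 : q ≤ t013) (q3 : q ≤ t023) (q4 : q ≤ t123)
    (h3 : ((k0.choose 2 : ℕ) : ℤ) + ((k1.choose 2 : ℕ) : ℤ) + ((k2.choose 2 : ℕ) : ℤ) +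
      ((k3.choose 2 : ℕ) : ℤ) - k01 - k02 - k03 - k12 - k13 - k23 = -15)
    (h4 : -((k0.choose 3 : ℕ) : ℤ) - ((k1.choose 3 : ℕ) : ℤ) - ((k2.choose 3 : ℕ) : ℤ) -
      ((k3.choose 3 : ℕ) : ℤ) + ((k01.choose 2 : ℕ) : ℤ) + ((k02.choose 2 : ℕ) : ℤ) +
      ((k03.choose 2 : ℕ) : ℤ) + ((k12.choose 2 : ℕ) : ℤ) + ((k13.choose 2 : ℕ) : ℤ) +
      ((k23.choose 2 : ℕ) : ℤ) - k012 - k013 - k023 - k123 = 5)
    (h5 : ((k0.choose 4 : ℕ) : ℤ) + ((k1.choose 4 : ℕ) : ℤ) + ((k2.choose 4 : ℕ) : ℤ) +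
      ((k3.choose 4 : ℕ) : ℤ) - ((k01.choose 3 : ℕ) : ℤ) - ((k02.choose 3 : ℕ) : ℤ) -
      ((k03.choose 3 : ℕ) : ℤ) - ((k12.choose 3 : ℕ) : ℤ) - ((k13.choose 3 : ℕ) : ℤ) -
      ((k23.choose 3 : ℕ) : ℤ) + ((k012.choose 2 : ℕ) : ℤ) + ((k013.choose 2 : ℕ) : ℤ) +
      ((k023.choose 2 : ℕ) : ℤ) + ((k123.choose 2 : ℕ) : ℤ) - k0123 = 8) :
    m01 ≤ 1 ∧ m02 ≤ 1 ∧ m03 ≤ 1 ∧ m12 ≤ 1 ∧ m13 ≤ 1 ∧ m23 ≤ 1 ∧ q = 0 := by
  subst a0 a1 a2 a3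
  have s1 : (1 : ℕ).choose 2 = 0 := rfl
  have s2 : (2 : ℕ).choose 2 = 1 := rfl
  have s3 : (1 : ℕ).choose 3 = 0 := rfl
  have s4 : (2 : ℕ).choose 3 = 0 := rfl
  have s5 : (1 : ℕ).choose 4 = 0 := rfl
  have s6 : (2 : ℕ).choose 4 = 0 := rfl
  rw [s1, s2] at h3
  rw [s3, s4] at h4
  rw [s5, s6] at h5
  have v01 : k01 = 3 - m01 := by omega
  have v02 : k02 = 3 - m02 := by omega
  have v03 : k03 = 3 - m03 := by omega
  have v12 : k12 = 4 - m12 := by omega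
  have v13 : k13 = 4 - m13 := by omega
  have v23 : k23 = 4 - m23 := by omega
  have v012 : k012 = 5 + t012 - (m01 + m02 + m12) := by omega
  have v013 : k013 = 5 + t013 - (m01 + m03 + m13) := by omega
  have v023 : k023 = 5 + t023 - (m02 + m03 + m23) := by omega
  have v123 : k123 = 6 + t123 - (m12 + m13 + m23) := by omega
  have hM : m01 + m02 + m03 + m12 + m13 + m23 = 3 := by omega
  have w : (k0123 : ℤ) = 4 + (t012 + t013 + t023 + t123) - q := by omega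
  have w4 : (k012 : ℤ) + k013 + k023 + k123 = 15 + (t012 + t013 + t023 + t123) := by omega
  have key := arith m01 m02 m03 m12 m13 m23 t012 t013 t023 t123 q (by omega) (by omega)
    (by omega) (by omega) (by omega) (by omega) hM q1 q2 q3 q4
    (by rw [← v01, ← v02, ← v03, ← v12, ← v13, ← v23]; push_cast at h4 ⊢; linarith)
    (by rw [← v01, ← v02, ← v03, ← v12, ← v13, ← v23, ← v012, ← v013, ← v023, ← v123]
        push_cast at h5 ⊢; linarith)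
  obtain ⟨x1, x2, x3, x4⟩ := key
  exact ⟨by omega, by omega, by omega, x1, x2, x3, x4⟩

theorem four_cases (k0 k1 k2 k3 : ℕ)
    (l0 : 1 ≤ k0) (l1 : 1 ≤ k1) (l2 : 1 ≤ k2) (l3 : 1 ≤ k3) (hs : k0 + k1 + k2 + k3 = 7)
    (u01 : ¬ (k0 = 1 ∧ k1 = 1)) (u02 : ¬ (k0 = 1 ∧ k2 = 1)) (u03 : ¬ (k0 = 1 ∧ k3 = 1))
    (u12 : ¬ (k1 = 1 ∧ k2 = 1)) (u13 : ¬ (k1 = 1 ∧ k3 = 1)) (u23 : ¬ (k2 = 1 ∧ k3 = 1)) :
    (k0 = 1 ∧ k1 = 2 ∧ k2 = 2 ∧ k3 = 2) ∨ (k1 = 1 ∧ k0 = 2 ∧ k2 = 2 ∧ k3 = 2) ∨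
      (k2 = 1 ∧ k0 = 2 ∧ k1 = 2 ∧ k3 = 2) ∨ (k3 = 1 ∧ k0 = 2 ∧ k1 = 2 ∧ k2 = 2) := by
  omega

theorem arith2 (k0 k1 k2 k3 k01 k02 k03 k12 k13 k23 k012 k013 k023 k123 k0123
      m01 m02 m03 m12 m13 m23 t012 t013 t023 t123 q : ℕ)
    (l0 : 1 ≤ k0) (l1 : 1 ≤ k1) (l2 : 1 ≤ k2) (l3 : 1 ≤ k3) (hs : k0 + k1 + k2 + k3 = 7)
    (u01 : ¬ (k0 = 1 ∧ k1 = 1)) (u02 : ¬ (k0 = 1 ∧ k2 = 1)) (u03 : ¬ (k0 = 1 ∧ k3 = 1))
    (u12 : ¬ (k1 = 1 ∧ k2 = 1)) (u13 : ¬ (k1 = 1 ∧ k3 = 1)) (u23 : ¬ (k2 = 1 ∧ k3 = 1))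
    (r01 : k01 + m01 = k0 + k1) (r02 : k02 + m02 = k0 + k2) (r03 : k03 + m03 = k0 + k3)
    (r12 : k12 + m12 = k1 + k2) (r13 : k13 + m13 = k1 + k3) (r23 : k23 + m23 = k2 + k3)
    (r012 : k012 + m01 + m02 + m12 = k0 + k1 + k2 + t012)
    (r013 : k013 + m01 + m03 + m13 = k0 + k1 + k3 + t013)
    (r023 : k023 + m02 + m03 + m23 = k0 + k2 + k3 + t023)
    (r123 : k123 + m12 + m13 + m23 = k1 + k2 + k3 + t123)
    (r : k0123 + m01 + m02 + m03 + m12 + m13 + m23 + q =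
      k0 + k1 + k2 + k3 + t012 + t013 + t023 + t123)
    (p01 : 2 ≤ k01) (p02 : 2 ≤ k02) (p03 : 2 ≤ k03) (p12 : 2 ≤ k12) (p13 : 2 ≤ k13)
    (p23 : 2 ≤ k23) (q1 : q ≤ t012) (q2 : q ≤ t013) (q3 : q ≤ t023) (q4 : q ≤ t123)
    (h3 : ((k0.choose 2 : ℕ) : ℤ) + ((k1.choose 2 : ℕ) : ℤ) + ((k2.choose 2 : ℕ) : ℤ) +
      ((k3.choose 2 : ℕ) : ℤ) - k01 - k02 - k03 - k12 - k13 - k23 = -15)
    (h4 : -((k0.choose 3 : ℕ) : ℤ) - ((k1.choose 3 : ℕ) : ℤ) - ((k2.choose 3 : ℕ) : ℤ) -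
      ((k3.choose 3 : ℕ) : ℤ) + ((k01.choose 2 : ℕ) : ℤ) + ((k02.choose 2 : ℕ) : ℤ) +
      ((k03.choose 2 : ℕ) : ℤ) + ((k12.choose 2 : ℕ) : ℤ) + ((k13.choose 2 : ℕ) : ℤ) +
      ((k23.choose 2 : ℕ) : ℤ) - k012 - k013 - k023 - k123 = 5)
    (h5 : ((k0.choose 4 : ℕ) : ℤ) + ((k1.choose 4 : ℕ) : ℤ) + ((k2.choose 4 : ℕ) : ℤ) +
      ((k3.choose 4 : ℕ) : ℤ) - ((k01.choose 3 : ℕ) : ℤ) - ((k02.choose 3 : ℕ) : ℤ) -
      ((k03.choose 3 : ℕ) : ℤ) - ((k12.choose 3 : ℕ) : ℤ) - ((k13.choose 3 : ℕ) : ℤ) -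
      ((k23.choose 3 : ℕ) : ℤ) + ((k012.choose 2 : ℕ) : ℤ) + ((k013.choose 2 : ℕ) : ℤ) +
      ((k023.choose 2 : ℕ) : ℤ) + ((k123.choose 2 : ℕ) : ℤ) - k0123 = 8) :
    k0 ≤ 2 ∧ k1 ≤ 2 ∧ k2 ≤ 2 ∧ k3 ≤ 2 ∧
    m01 ≤ 1 ∧ m02 ≤ 1 ∧ m03 ≤ 1 ∧ m12 ≤ 1 ∧ m13 ≤ 1 ∧ m23 ≤ 1 ∧ q = 0 := by
  have hc : (k0 = 1 ∧ k1 = 2 ∧ k2 = 2 ∧ k3 = 2) ∨ (k1 = 1 ∧ k0 = 2 ∧ k2 = 2 ∧ k3 = 2) ∨
      (k2 = 1 ∧ k0 = 2 ∧ k1 = 2 ∧ k3 = 2) ∨ (k3 = 1 ∧ k0 = 2 ∧ k1 = 2 ∧ k2 = 2) :=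
    four_cases k0 k1 k2 k3 l0 l1 l2 l3 hs u01 u02 u03 u12 u13 u23
  clear l0 l1 l2 l3 hs u01 u02 u03 u12 u13 u23
  rcases hc with ⟨a0, a1, a2, a3⟩ | ⟨a0, a1, a2, a3⟩ | ⟨a0, a1, a2, a3⟩ | ⟨a0, a1, a2, a3⟩
  · obtain ⟨x1, x2, x3, x4, x5, x6, x7⟩ := arith1 k0 k1 k2 k3 k01 k02 k03 k12 k13 k23 k012 k013 k023 k123 k0123
      m01 m02 m03 m12 m13 m23 t012 t013 t023 t123 q a0 a1 a2 a3
      (by linarith only [r01]) (by linarith only [r02]) (by linarith only [r03]) (by linarith only [r12]) (by linarith only [r13]) (by linarith only [r23])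
      (by linarith only [r012]) (by linarith only [r013]) (by linarith only [r023]) (by linarith only [r123]) (by linarith only [r])
      p01 p02 p03 p12 p13 p23 q1 q2 q3 q4
      (by linarith only [h3]) (by linarith only [h4]) (by linarith only [h5])
    exact ⟨(a0.trans_le (by norm_num)), a1.le, a2.le, a3.le, x1, x2, x3, x4, x5, x6, x7⟩
  · obtain ⟨x1, x2, x3, x4, x5, x6, x7⟩ := arith1 k1 k0 k2 k3 k01 k12 k13 k02 k03 k23 k012 k013 k123 k023 k0123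
      m01 m12 m13 m02 m03 m23 t012 t013 t123 t023 q a0 a1 a2 a3
      (by linarith only [r01]) (by linarith only [r12]) (by linarith only [r13]) (by linarith only [r02]) (by linarith only [r03]) (by linarith only [r23])
      (by linarith only [r012]) (by linarith only [r013]) (by linarith only [r123]) (by linarith only [r023]) (by linarith only [r])
      p01 p12 p13 p02 p03 p23 q1 q2 q4 q3
      (by linarith only [h3]) (by linarith only [h4]) (by linarith only [h5])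
    exact ⟨a1.le, (a0.trans_le (by norm_num)), a2.le, a3.le, x1, x4, x5, x2, x3, x6, x7⟩
  · obtain ⟨x1, x2, x3, x4, x5, x6, x7⟩ := arith1 k2 k0 k1 k3 k02 k12 k23 k01 k03 k13 k012 k023 k123 k013 k0123
      m02 m12 m23 m01 m03 m13 t012 t023 t123 t013 q a0 a1 a2 a3
      (by linarith only [r02]) (by linarith only [r12]) (by linarith only [r23]) (by linarith only [r01]) (by linarith only [r03]) (by linarith only [r13])
      (by linarith only [r012]) (by linarith only [r023]) (by linarith only [r123]) (by linarith only [r013]) (by linarith only [r])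
      p02 p12 p23 p01 p03 p13 q1 q3 q4 q2
      (by linarith only [h3]) (by linarith only [h4]) (by linarith only [h5])
    exact ⟨a1.le, a2.le, (a0.trans_le (by norm_num)), a3.le, x4, x1, x5, x2, x6, x3, x7⟩
  · obtain ⟨x1, x2, x3, x4, x5, x6, x7⟩ := arith1 k3 k0 k1 k2 k03 k13 k23 k01 k02 k12 k013 k023 k123 k012 k0123
      m03 m13 m23 m01 m02 m12 t013 t023 t123 t012 q a0 a1 a2 a3
      (by linarith only [r03]) (by linarith only [r13]) (by linarith only [r23]) (by linarith only [r01]) (by linarith only [r02]) (by linarith only [r12])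
      (by linarith only [r013]) (by linarith only [r023]) (by linarith only [r123]) (by linarith only [r012]) (by linarith only [r])
      p03 p13 p23 p01 p02 p12 q2 q3 q4 q1
      (by linarith only [h3]) (by linarith only [h4]) (by linarith only [h5])
    exact ⟨a1.le, a2.le, a3.le, (a0.trans_le (by norm_num)), x4, x5, x1, x6, x2, x3, x7⟩

end Pool.Agent.KosQ2
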