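import Pool.Agent.KosQ2.ClassI
import Pool.Agent.KosQ2.ClassJ
import Pool.Agent.KosQ2.ClassR

/-!
# Row H: the numbers of a quadratic monomial ideal with the h-polynomial of the example
-/

set_option autoImplicit false

namespace Pool.Agent.KosQ2

open Polynomial

theorem coeff_q (k j : ℕ) : ((1 - X : ℤ[X]) ^ k).coeff j = (-1) ^ j * (k.choose j : ℤ) := by
  induction k generalizing j with
  | zero =>
    cases j with
    | zero => simp
    | succ j => simp [coeff_one]
  | succ k ih =>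
    have h : (1 - X : ℤ[X]) ^ (k + 1) = (1 - X) ^ k - (1 - X) ^ k * X := by ring
    rw [h, coeff_sub]
    cases j with
    | zero =>
      rw [ih]
      simp
    | succ j =>
      rw [coeff_mul_X, ih, ih, Nat.choose_succ_succ]
      push_cast
      ring

theorem coeff_term (t k j : ℕ) : ((X : ℤ[X]) ^ t * (1 - X) ^ k).coeff j =
    if t ≤ j then (-1) ^ (j - t) * (k.choose (j - t) : ℤ) else 0 := by
  rw [coeff_X_pow_mul', coeff_q]

theorem eval_term (t k : ℕ) : ((X : ℤ[X]) ^ t * (1 - X) ^ k).eval 1 = if k = 0 then 1 else 0 := by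
  rcases Nat.eq_zero_or_pos k with h | h
  · subst h; simp
  · simp [h.ne']

theorem deriv_term (t k : ℕ) : (derivative ((X : ℤ[X]) ^ t * (1 - X) ^ k)).eval 1 =
    (if k = 0 then (t : ℤ) else 0) - (if k = 1 then 1 else 0) := by
  rcases k with _ | _ | k
  · simp [derivative_X_pow]
  · simp [derivative_mul, derivative_X_pow]
  · have h : derivative ((1 - X : ℤ[X]) ^ (k + 1 + 1)) =
        C ((k + 1 + 1 : ℕ) : ℤ) * (1 - X) ^ (k + 1) * derivative (1 - X) := derivative_pow _ _
    rw [derivative_mul, h]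
    simp

variable {m : ℕ} (E : Set (Fin m →₀ ℕ)) (c : Fin 4 → Fin m)

/-- The number `n_T`. -/
noncomputable def nT (T : Finset (Fin 4)) : ℕ := (T ∩ loopS E c).card + (nbS E c T).card

theorem nT_empty : nT E c ∅ = 0 := by
  unfold nT nbS
  simp

theorem mem_indS_empty : ∅ ∈ indS E c := by
  unfold indS
  simp

theorem mem_indS_single (i : Fin 4) : {i} ∈ indS E c := by
  unfold indS
  simp

theorem mem_indS_pair (i j : Fin 4) (h : i ≠ j) : {i, j} ∈ indS E c ↔
    del (c i) + del (c j) ∉ E := by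
  unfold indS
  simp only [Finset.mem_filter, Finset.mem_univ, true_and, Finset.mem_insert,
    Finset.mem_singleton]
  constructor
  · intro hh
    exact hh i (Or.inl rfl) j (Or.inr rfl) h
  · rintro hh a (rfl | rfl) b (rfl | rfl) hab
    · exact absurd rfl hab
    · exact hh
    · rw [add_comm]; exact hh
    · exact absurd rfl hab

/-- Step 1: all exponents are at least 4. -/
theorem le_nT (hP : (∑ T ∈ indS E c, X ^ T.card *
      (1 - X) ^ ((4 - T.card) + (T ∩ loopS E c).card + (nbS E c T).card) : ℤ[X])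
      = (1 - X) ^ 4 * hR) : ∀ T ∈ indS E c, T.card ≤ nT E c T := by
  intro T hT
  by_contra hlt
  push Not at hlt
  obtain ⟨T0, hT0, hmin⟩ := Finset.exists_min_image (indS E c)
    (fun T => (4 - T.card) + nT E c T) ⟨T, hT⟩
  have hT4 : T.card ≤ 4 := by
    simpa using Finset.card_le_univ T
  have he : (4 - T0.card) + nT E c T0 < 4 := by
    have := hmin T hT
    omega
  set e := (4 - T0.card) + nT E c T0 with hedef
  have hne : ((1 - X : ℤ[X]) ^ e) ≠ 0 := by
    apply pow_ne_zero
    intro h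
    have := congrArg (fun p : ℤ[X] => p.eval 0) h
    simp at this
  have h1 : (1 - X : ℤ[X]) ^ e * (∑ T ∈ indS E c, X ^ T.card *
      (1 - X) ^ ((4 - T.card) + nT E c T - e)) =
      (1 - X) ^ e * ((1 - X) ^ (4 - e) * hR) := by
    rw [← mul_assoc, ← pow_add, Nat.add_sub_of_le he.le, ← hP, Finset.mul_sum]
    apply Finset.sum_congr rfl
    intro T' hT'
    have h2 : e ≤ (4 - T'.card) + nT E c T' := hmin T' hT'
    have h3 : (4 - T'.card) + (T' ∩ loopS E c).card + (nbS E c T').card =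
        e + ((4 - T'.card) + nT E c T' - e) := by
      rw [Nat.add_sub_of_le h2]
      unfold nT
      ring
    rw [h3, pow_add]
    ring
  have h2 := mul_left_cancel₀ hne h1
  have h3 := congrArg (fun p : ℤ[X] => p.eval 1) h2
  simp only [eval_finsetSum, eval_term] at h3
  rw [Finset.sum_boole] at h3
  have h4 : ((1 - X : ℤ[X]) ^ (4 - e) * hR).eval 1 = 0 := by
    rw [eval_mul, eval_pow]
    have : 4 - e ≠ 0 := by omega
    simp [this]
  rw [h4] at h3
  have h5 : T0 ∈ (indS E c).filter (fun T => (4 - T.card) + nT E c T - e = 0) := by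
    rw [Finset.mem_filter]
    exact ⟨hT0, by rw [← hedef, Nat.sub_self]⟩
  have h6 : ((indS E c).filter (fun T => (4 - T.card) + nT E c T - e = 0)).card = 0 := by
    exact_mod_cast h3
  rw [Finset.card_eq_zero] at h6
  rw [h6] at h5
  simp at h5

/-- Step 2. -/
theorem sum_eq (hP : (∑ T ∈ indS E c, X ^ T.card *
      (1 - X) ^ ((4 - T.card) + (T ∩ loopS E c).card + (nbS E c T).card) : ℤ[X])
      = (1 - X) ^ 4 * hR) :
    (∑ T ∈ indS E c, X ^ T.card * (1 - X) ^ (nT E c T - T.card) : ℤ[X]) = hR := by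
  have hne : ((1 - X : ℤ[X]) ^ 4) ≠ 0 := by
    apply pow_ne_zero
    intro h
    have := congrArg (fun p : ℤ[X] => p.eval 0) h
    simp at this
  apply mul_left_cancel₀ hne
  rw [← hP, Finset.mul_sum]
  apply Finset.sum_congr rfl
  intro T hT
  have h1 := le_nT E c hP T hT
  have hT4 : T.card ≤ 4 := by
    simpa using Finset.card_le_univ T
  have h3 : (4 - T.card) + (T ∩ loopS E c).card + (nbS E c T).card =
      4 + (nT E c T - T.card) := by
    unfold nT at h1 ⊢
    omega
  rw [h3, pow_add]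
  ring

/-- The exponents `k_T = n_T - |T|`. -/
noncomputable def kT (T : Finset (Fin 4)) : ℕ := nT E c T - T.card

theorem hR_eval : hR.eval 1 = 1 := by
  simp [hR]

theorem hR_deriv : (derivative hR).eval 1 = -1 := by
  unfold hR
  simp

/-- `k_T = 0` only for the empty set. -/
theorem kT_pos (hS : (∑ T ∈ indS E c, X ^ T.card * (1 - X) ^ (kT E c T) : ℤ[X]) = hR) :
    ∀ T ∈ indS E c, T ≠ ∅ → 1 ≤ kT E c T := by
  intro T hT hne
  by_contra hlt
  have h0 : kT E c T = 0 := by omega
  have h3 := congrArg (fun p : ℤ[X] => p.eval 1) hS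
  simp only [eval_finsetSum, eval_term, hR_eval] at h3
  rw [Finset.sum_boole] at h3
  have h4 : ((indS E c).filter (fun T => kT E c T = 0)).card = 1 := by exact_mod_cast h3
  have h5 : ({∅, T} : Finset (Finset (Fin 4))) ⊆ (indS E c).filter (fun T => kT E c T = 0) := by
    intro U hU
    rw [Finset.mem_insert, Finset.mem_singleton] at hU
    rw [Finset.mem_filter]
    rcases hU with rfl | rfl
    · refine ⟨mem_indS_empty E c, ?_⟩
      unfold kT
      rw [nT_empty]
      simp
    · exact ⟨hT, h0⟩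
  have h6 := Finset.card_le_card h5
  rw [h4, Finset.card_pair hne.symm] at h6
  omega

theorem card_one (hS : (∑ T ∈ indS E c, X ^ T.card * (1 - X) ^ (kT E c T) : ℤ[X]) = hR) :
    ((indS E c).filter (fun T => kT E c T = 1)).card = 1 := by
  have h3 := congrArg (fun p : ℤ[X] => (derivative p).eval 1) hS
  simp only [derivative_sum, eval_finsetSum, deriv_term, hR_deriv] at h3
  rw [Finset.sum_sub_distrib, Finset.sum_boole] at h3
  have h4 : ∑ T ∈ indS E c, (if kT E c T = 0 then (T.card : ℤ) else 0) = 0 := by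
    apply Finset.sum_eq_zero
    intro T hT
    split_ifs with h
    · by_cases hne : T = ∅
      · subst hne; simp
      · have := kT_pos E c hS T hT hne
        omega
    · rfl
  rw [h4] at h3
  have h5 : (((indS E c).filter (fun T => kT E c T = 1)).card : ℤ) = 1 := by
    linarith
  exact_mod_cast h5

theorem kT_uniq (hS : (∑ T ∈ indS E c, X ^ T.card * (1 - X) ^ (kT E c T) : ℤ[X]) = hR)
    (T U : Finset (Fin 4)) (hT : T ∈ indS E c) (hU : U ∈ indS E c) (h1 : kT E c T = 1)
    (h2 : kT E c U = 1) : T = U := by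
  have h := Finset.card_le_one.1 (card_one E c hS).le
  exact h T (Finset.mem_filter.2 ⟨hT, h1⟩) U (Finset.mem_filter.2 ⟨hU, h2⟩)

theorem univ16 : (Finset.univ : Finset (Finset (Fin 4))) =
    {∅, {0}, {1}, {2}, {3}, {0, 1}, {0, 2}, {0, 3}, {1, 2}, {1, 3}, {2, 3},
      {0, 1, 2}, {0, 1, 3}, {0, 2, 3}, {1, 2, 3}, {0, 1, 2, 3}} := by decide

theorem sum16 (f : Finset (Fin 4) → ℤ) : ∑ T, f T =
    f ∅ + (f {0} + (f {1} + (f {2} + (f {3} + (f {0, 1} + (f {0, 2} + (f {0, 3} + (f {1, 2} +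
      (f {1, 3} + (f {2, 3} + (f {0, 1, 2} + (f {0, 1, 3} + (f {0, 2, 3} + (f {1, 2, 3} +
        f {0, 1, 2, 3})))))))))))))) := by
  rw [univ16]
  repeat rw [Finset.sum_insert (by decide)]
  rw [Finset.sum_singleton]

theorem coeff_eq (hS : (∑ T ∈ indS E c, X ^ T.card * (1 - X) ^ (kT E c T) : ℤ[X]) = hR) (j : ℕ) :
    ∑ T, (if T ∈ indS E c then (if T.card ≤ j then
      (-1) ^ (j - T.card) * ((kT E c T).choose (j - T.card) : ℤ) else 0) else 0) = hR.coeff j := by
  rw [← hS, finsetSum_coeff, ← Finset.sum_filter]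
  simp only [coeff_term]
  apply Finset.sum_congr
  · ext T; simp
  · intros; rfl

theorem hR_coeff2 : hR.coeff 2 = -1 := by
  unfold hR
  simp [coeff_X, coeff_one, coeff_X_pow]
theorem hR_coeff3 : hR.coeff 3 = -11 := by
  unfold hR
  simp [coeff_X, coeff_one, coeff_X_pow]
theorem hR_coeff4 : hR.coeff 4 = 6 := by
  unfold hR
  simp [coeff_X, coeff_one, coeff_X_pow]
theorem hR_coeff5 : hR.coeff 5 = 8 := by
  unfold hR
  simp [coeff_X, coeff_one, coeff_X_pow]

/-- All pairs are independent, and the sum of the `k_i` is 7. -/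
theorem pairs (hS : (∑ T ∈ indS E c, X ^ T.card * (1 - X) ^ (kT E c T) : ℤ[X]) = hR) :
    (∀ i j : Fin 4, i ≠ j → {i, j} ∈ indS E c) ∧
      kT E c {0} + kT E c {1} + kT E c {2} + kT E c {3} = 7 := by
  have h := coeff_eq E c hS 2
  rw [sum16, hR_coeff2] at h
  have h0 := mem_indS_empty E c
  have s0 := mem_indS_single E c 0
  have s1 := mem_indS_single E c 1
  have s2 := mem_indS_single E c 2
  have s3 := mem_indS_single E c 3
  have k0 : kT E c ∅ = 0 := by
    unfold kT
    rw [nT_empty]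
    simp
  have c1 : ∀ i : Fin 4, ({i} : Finset (Fin 4)).card = 1 := fun i => Finset.card_singleton i
  have c01 : ({0, 1} : Finset (Fin 4)).card = 2 := rfl
  have c02 : ({0, 2} : Finset (Fin 4)).card = 2 := rfl
  have c03 : ({0, 3} : Finset (Fin 4)).card = 2 := rfl
  have c12 : ({1, 2} : Finset (Fin 4)).card = 2 := rfl
  have c13 : ({1, 3} : Finset (Fin 4)).card = 2 := rfl
  have c23 : ({2, 3} : Finset (Fin 4)).card = 2 := rfl
  have c012 : ({0, 1, 2} : Finset (Fin 4)).card = 3 := rfl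
  have c013 : ({0, 1, 3} : Finset (Fin 4)).card = 3 := rfl
  have c023 : ({0, 2, 3} : Finset (Fin 4)).card = 3 := rfl
  have c123 : ({1, 2, 3} : Finset (Fin 4)).card = 3 := rfl
  have c0123 : ({0, 1, 2, 3} : Finset (Fin 4)).card = 4 := rfl
  simp only [h0, s0, s1, s2, s3, if_true, k0, Finset.card_empty, c1, c01, c02, c03, c12, c13, c23,
    c012, c013, c023, c123, c0123] at h
  norm_num at h
  have p0 := kT_pos E c hS _ s0 (by decide)
  have p1 := kT_pos E c hS _ s1 (by decide)
  have p2 := kT_pos E c hS _ s2 (by decide)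
  have p3 := kT_pos E c hS _ s3 (by decide)
  have u : ∀ i j : Fin 4, i ≠ j → ¬ (kT E c {i} = 1 ∧ kT E c {j} = 1) := by
    rintro i j hij ⟨a, b⟩
    have := kT_uniq E c hS _ _ (mem_indS_single E c i) (mem_indS_single E c j) a b
    exact hij (Finset.singleton_injective this)
  have u01 := u 0 1 (by decide)
  have u02 := u 0 2 (by decide)
  have u03 := u 0 3 (by decide)
  have u12 := u 1 2 (by decide)
  have u13 := u 1 3 (by decide)
  have u23 := u 2 3 (by decide)
  have key : ({0, 1} : Finset (Fin 4)) ∈ indS E c ∧ ({0, 2} : Finset (Fin 4)) ∈ indS E c ∧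
      ({0, 3} : Finset (Fin 4)) ∈ indS E c ∧ ({1, 2} : Finset (Fin 4)) ∈ indS E c ∧
      ({1, 3} : Finset (Fin 4)) ∈ indS E c ∧ ({2, 3} : Finset (Fin 4)) ∈ indS E c ∧
      kT E c {0} + kT E c {1} + kT E c {2} + kT E c {3} = 7 := by
    have b1 : ∀ p : Prop, ∀ _ : Decidable p, (if p then (1 : ℤ) else 0) ≤ 1 ∧
        ((if p then (1 : ℤ) else 0) = 1 → p) := by
      intro p _
      split_ifs with hp
      · exact ⟨le_refl _, fun _ => hp⟩
      · exact ⟨by norm_num, fun hh => absurd hh (by norm_num)⟩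
    obtain ⟨q01, r01⟩ := b1 (({0, 1} : Finset (Fin 4)) ∈ indS E c) inferInstance
    obtain ⟨q02, r02⟩ := b1 (({0, 2} : Finset (Fin 4)) ∈ indS E c) inferInstance
    obtain ⟨q03, r03⟩ := b1 (({0, 3} : Finset (Fin 4)) ∈ indS E c) inferInstance
    obtain ⟨q12, r12⟩ := b1 (({1, 2} : Finset (Fin 4)) ∈ indS E c) inferInstance
    obtain ⟨q13, r13⟩ := b1 (({1, 3} : Finset (Fin 4)) ∈ indS E c) inferInstance
    obtain ⟨q23, r23⟩ := b1 (({2, 3} : Finset (Fin 4)) ∈ indS E c) inferInstance
    have e1 : (if ({0, 1} : Finset (Fin 4)) ∈ indS E c then (1 : ℤ) else 0) = 1 := by omega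
    refine ⟨r01 (by omega), r02 (by omega), r03 (by omega), r12 (by omega), r13 (by omega),
      r23 (by omega), by omega⟩
  obtain ⟨a, b, d, e, f, g, hh⟩ := key
  refine ⟨?_, hh⟩
  intro i j hij
  have sw : ∀ x y : Fin 4, ({x, y} : Finset (Fin 4)) ∈ indS E c → ({y, x} : Finset (Fin 4)) ∈ indS E c := by
    intro x y h
    rw [Finset.pair_comm]
    exact h
  fin_cases i <;> fin_cases j <;> first
    | exact absurd rfl hij
    | assumption
    | (apply sw; assumption)

theorem hind_of (hS : (∑ T ∈ indS E c, X ^ T.card * (1 - X) ^ (kT E c T) : ℤ[X]) = hR) :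
    ∀ i j, i ≠ j → del (c i) + del (c j) ∉ E := by
  intro i j hij
  exact (mem_indS_pair E c i j hij).1 ((pairs E c hS).1 i j hij)

theorem coeff_eq' (hS : (∑ T ∈ indS E c, X ^ T.card * (1 - X) ^ (kT E c T) : ℤ[X]) = hR) (j : ℕ) :
    ∑ T : Finset (Fin 4), (if T.card ≤ j then
      (-1) ^ (j - T.card) * ((kT E c T).choose (j - T.card) : ℤ) else 0) = hR.coeff j := by
  rw [← coeff_eq E c hS j]
  apply Finset.sum_congr rfl
  intro T _
  have hm : T ∈ indS E c := by
    rw [indS_univ E c (hind_of E c hS)]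
    exact Finset.mem_univ T
  rw [if_pos hm]

/-- loops in a union -/
theorem loops_union (S T : Finset (Fin 4)) (hd : Disjoint S T) :
    ((S ∪ T) ∩ loopS E c).card = (S ∩ loopS E c).card + (T ∩ loopS E c).card := by
  rw [Finset.union_inter_distrib_right, Finset.card_union_of_disjoint]
  exact Finset.disjoint_of_subset_left Finset.inter_subset_left
    (Finset.disjoint_of_subset_right Finset.inter_subset_left hd)

theorem nT_pair (i j : Fin 4) (h : i ≠ j) :
    nT E c {i, j} + (nbS E c {i} ∩ nbS E c {j}).card = nT E c {i} + nT E c {j} := by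
  have h1 := nb2 E c i j
  have h2 := loops_union E c {i} {j} (by simpa using h)
  have h3 : ({i, j} : Finset (Fin 4)) = {i} ∪ {j} := rfl
  unfold nT
  rw [← h3] at h2
  omega

theorem nT_triple (i j k : Fin 4) (h : i ≠ j) (h' : i ≠ k) (h'' : j ≠ k) :
    nT E c {i, j, k} + (nbS E c {i} ∩ nbS E c {j}).card + (nbS E c {i} ∩ nbS E c {k}).card +
      (nbS E c {j} ∩ nbS E c {k}).card = nT E c {i} + nT E c {j} + nT E c {k} +
      (nbS E c {i} ∩ nbS E c {j} ∩ nbS E c {k}).card := by
  have h1 := nb3 E c i j k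
  have h2 := loops_union E c {i} {j, k} (by simp [h, h'])
  have h4 := loops_union E c {j} {k} (by simpa using h'')
  have h3 : ({i, j, k} : Finset (Fin 4)) = {i} ∪ {j, k} := rfl
  have h5 : ({j, k} : Finset (Fin 4)) = {j} ∪ {k} := rfl
  unfold nT
  rw [← h3] at h2
  rw [← h5] at h4
  omega

theorem nT_all :
    nT E c {0, 1, 2, 3} + (nbS E c {0} ∩ nbS E c {1}).card +
      (nbS E c {0} ∩ nbS E c {2}).card + (nbS E c {0} ∩ nbS E c {3}).card +
      (nbS E c {1} ∩ nbS E c {2}).card + (nbS E c {1} ∩ nbS E c {3}).card +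
      (nbS E c {2} ∩ nbS E c {3}).card +
      (nbS E c {0} ∩ nbS E c {1} ∩ nbS E c {2} ∩ nbS E c {3}).card =
      nT E c {0} + nT E c {1} + nT E c {2} + nT E c {3} +
        (nbS E c {0} ∩ nbS E c {1} ∩ nbS E c {2}).card +
        (nbS E c {0} ∩ nbS E c {1} ∩ nbS E c {3}).card +
        (nbS E c {0} ∩ nbS E c {2} ∩ nbS E c {3}).card +
        (nbS E c {1} ∩ nbS E c {2} ∩ nbS E c {3}).card := by
  have h1 := nb4 E c
  have h2 := loops_union E c {0} {1, 2, 3} (by decide)
  have h4 := loops_union E c {1} {2, 3} (by decide)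
  have h6 := loops_union E c {2} {3} (by decide)
  have h3 : ({0, 1, 2, 3} : Finset (Fin 4)) = {0} ∪ {1, 2, 3} := rfl
  have h5 : ({1, 2, 3} : Finset (Fin 4)) = {1} ∪ {2, 3} := rfl
  have h7 : ({2, 3} : Finset (Fin 4)) = {2} ∪ {3} := rfl
  unfold nT
  rw [← h3] at h2
  rw [← h5] at h4
  rw [← h7] at h6
  omega

theorem nums (hS : (∑ T ∈ indS E c, X ^ T.card * (1 - X) ^ (kT E c T) : ℤ[X]) = hR) :
    (∀ i, nT E c {i} ≤ 3) ∧ (∀ i j, i ≠ j → (nbS E c {i} ∩ nbS E c {j}).card ≤ 1) ∧
      (nbS E c {0} ∩ nbS E c {1} ∩ nbS E c {2} ∩ nbS E c {3}).card = 0 := by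
  have h3 := coeff_eq' E c hS 3
  have h4 := coeff_eq' E c hS 4
  have h5 := coeff_eq' E c hS 5
  rw [sum16] at h3 h4 h5
  rw [hR_coeff3] at h3
  rw [hR_coeff4] at h4
  rw [hR_coeff5] at h5
  have k0 : kT E c ∅ = 0 := by
    unfold kT
    rw [nT_empty]
    simp
  have c1 : ∀ i : Fin 4, ({i} : Finset (Fin 4)).card = 1 := fun i => Finset.card_singleton i
  have c01 : ({0, 1} : Finset (Fin 4)).card = 2 := rfl
  have c02 : ({0, 2} : Finset (Fin 4)).card = 2 := rfl
  have c03 : ({0, 3} : Finset (Fin 4)).card = 2 := rfl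
  have c12 : ({1, 2} : Finset (Fin 4)).card = 2 := rfl
  have c13 : ({1, 3} : Finset (Fin 4)).card = 2 := rfl
  have c23 : ({2, 3} : Finset (Fin 4)).card = 2 := rfl
  have c012 : ({0, 1, 2} : Finset (Fin 4)).card = 3 := rfl
  have c013 : ({0, 1, 3} : Finset (Fin 4)).card = 3 := rfl
  have c023 : ({0, 2, 3} : Finset (Fin 4)).card = 3 := rfl
  have c123 : ({1, 2, 3} : Finset (Fin 4)).card = 3 := rfl
  have c0123 : ({0, 1, 2, 3} : Finset (Fin 4)).card = 4 := rfl
  simp only [k0, Finset.card_empty, c1, c01, c02, c03, c12, c13, c23,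
    c012, c013, c023, c123, c0123] at h3 h4 h5
  norm_num at h3 h4 h5
  obtain ⟨-, hs⟩ := pairs E c hS
  have hmem : ∀ T, T ∈ indS E c := by
    intro T
    rw [indS_univ E c (hind_of E c hS)]
    exact Finset.mem_univ T
  have p : ∀ T : Finset (Fin 4), T ≠ ∅ → 1 ≤ kT E c T := fun T => kT_pos E c hS T (hmem T)
  have u : ∀ T U : Finset (Fin 4), T ≠ U → ¬ (kT E c T = 1 ∧ kT E c U = 1) := by
    rintro T U hTU ⟨a, b⟩
    exact hTU (kT_uniq E c hS T U (hmem T) (hmem U) a b)
  have l0 := p {0} (by decide)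
  have l1 := p {1} (by decide)
  have l2 := p {2} (by decide)
  have l3 := p {3} (by decide)
  have u01 := u {0} {1} (by decide)
  have u02 := u {0} {2} (by decide)
  have u03 := u {0} {3} (by decide)
  have u12 := u {1} {2} (by decide)
  have u13 := u {1} {3} (by decide)
  have u23 := u {2} {3} (by decide)
  -- one of the singletons has `k = 1`
  have hone : ∃ i : Fin 4, kT E c {i} = 1 := by
    rcases four_cases _ _ _ _ l0 l1 l2 l3 hs u01 u02 u03 u12 u13 u23 with h | h | h | h
    · exact ⟨0, h.1⟩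
    · exact ⟨1, h.1⟩
    · exact ⟨2, h.1⟩
    · exact ⟨3, h.1⟩
  have two : ∀ T : Finset (Fin 4), 2 ≤ T.card → 2 ≤ kT E c T := by
    intro T hT
    obtain ⟨i, hi⟩ := hone
    have hne : T ≠ {i} := by
      rintro rfl
      simp at hT
    have h1 := p T (by rintro rfl; simp at hT)
    have h2 := u T {i} hne
    by_contra hcon
    exact h2 ⟨by omega, hi⟩
  have nk : ∀ T : Finset (Fin 4), nT E c T = kT E c T + T.card := by
    intro T
    by_cases hT : T = ∅
    · subst hT
      rw [nT_empty, k0]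
      simp
    · have := p T hT
      unfold kT at this ⊢
      omega
  have e01 := nT_pair E c 0 1 (by decide)
  have e02 := nT_pair E c 0 2 (by decide)
  have e03 := nT_pair E c 0 3 (by decide)
  have e12 := nT_pair E c 1 2 (by decide)
  have e13 := nT_pair E c 1 3 (by decide)
  have e23 := nT_pair E c 2 3 (by decide)
  have e012 := nT_triple E c 0 1 2 (by decide) (by decide) (by decide)
  have e013 := nT_triple E c 0 1 3 (by decide) (by decide) (by decide)
  have e023 := nT_triple E c 0 2 3 (by decide) (by decide) (by decide)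
  have e123 := nT_triple E c 1 2 3 (by decide) (by decide) (by decide)
  have e := nT_all E c
  rw [nk, nk, nk, c01, c1, c1] at e01
  rw [nk, nk, nk, c02, c1, c1] at e02
  rw [nk, nk, nk, c03, c1, c1] at e03
  rw [nk, nk, nk, c12, c1, c1] at e12
  rw [nk, nk, nk, c13, c1, c1] at e13
  rw [nk, nk, nk, c23, c1, c1] at e23
  rw [nk, nk, nk, nk, c012, c1, c1, c1] at e012
  rw [nk, nk, nk, nk, c013, c1, c1, c1] at e013
  rw [nk, nk, nk, nk, c023, c1, c1, c1] at e023
  rw [nk, nk, nk, nk, c123, c1, c1, c1] at e123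
  rw [nk, nk, nk, nk, nk, c0123, c1, c1, c1, c1] at e
  obtain ⟨z0, z1, z2, z3, m01, m02, m03, m12, m13, m23, hq⟩ := arith2
    (kT E c {0}) (kT E c {1}) (kT E c {2}) (kT E c {3})
    (kT E c {0, 1}) (kT E c {0, 2}) (kT E c {0, 3}) (kT E c {1, 2}) (kT E c {1, 3})
    (kT E c {2, 3}) (kT E c {0, 1, 2}) (kT E c {0, 1, 3}) (kT E c {0, 2, 3}) (kT E c {1, 2, 3})
    (kT E c {0, 1, 2, 3})
    (nbS E c {0} ∩ nbS E c {1}).card (nbS E c {0} ∩ nbS E c {2}).card
    (nbS E c {0} ∩ nbS E c {3}).card (nbS E c {1} ∩ nbS E c {2}).card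
    (nbS E c {1} ∩ nbS E c {3}).card (nbS E c {2} ∩ nbS E c {3}).card
    (nbS E c {0} ∩ nbS E c {1} ∩ nbS E c {2}).card
    (nbS E c {0} ∩ nbS E c {1} ∩ nbS E c {3}).card
    (nbS E c {0} ∩ nbS E c {2} ∩ nbS E c {3}).card
    (nbS E c {1} ∩ nbS E c {2} ∩ nbS E c {3}).card
    (nbS E c {0} ∩ nbS E c {1} ∩ nbS E c {2} ∩ nbS E c {3}).card
    l0 l1 l2 l3 hs u01 u02 u03 u12 u13 u23
    (by linarith only [e01]) (by linarith only [e02]) (by linarith only [e03])
    (by linarith only [e12]) (by linarith only [e13]) (by linarith only [e23])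
    (by linarith only [e012]) (by linarith only [e013]) (by linarith only [e023])
    (by linarith only [e123]) (by linarith only [e])
    (two _ c01.ge) (two _ c02.ge) (two _ c03.ge) (two _ c12.ge) (two _ c13.ge) (two _ c23.ge)
    (Finset.card_le_card Finset.inter_subset_left)
    (Finset.card_le_card (by
      intro x hx
      simp only [Finset.mem_inter] at hx ⊢
      exact ⟨hx.1.1, hx.2⟩))
    (Finset.card_le_card (by
      intro x hx
      simp only [Finset.mem_inter] at hx ⊢
      exact ⟨⟨hx.1.1.1, hx.1.2⟩, hx.2⟩))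
    (Finset.card_le_card (by
      intro x hx
      simp only [Finset.mem_inter] at hx ⊢
      exact ⟨⟨hx.1.1.2, hx.1.2⟩, hx.2⟩))
    (by linarith only [h3]) (by linarith only [h4]) (by linarith only [h5])
  refine ⟨?_, ?_, hq⟩
  · intro i
    rw [nk, c1]
    fin_cases i
    · exact Nat.add_le_add_right z0 1
    · exact Nat.add_le_add_right z1 1
    · exact Nat.add_le_add_right z2 1
    · exact Nat.add_le_add_right z3 1
  · intro i j hij
    have sw : ∀ x y : Fin 4, (nbS E c {x} ∩ nbS E c {y}).card ≤ 1 →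
        (nbS E c {y} ∩ nbS E c {x}).card ≤ 1 := by
      intro x y h
      rw [Finset.inter_comm]
      exact h
    fin_cases i <;> fin_cases j <;> first
      | exact absurd rfl hij
      | assumption
      | (apply sw; assumption)

/-- Row H. -/
theorem noJoin_of_cover {m : ℕ} (E : Set (Fin m →₀ ℕ)) (_hE : Quadratic E)
    (c : Fin 4 → Fin m) (_hc : Function.Injective c)
    (hF : ∀ v w, (∀ i, c i ≠ v) → (∀ i, c i ≠ w) → del v + del w ∉ E)
    (hP : (∑ T ∈ indS E c, X ^ T.card *
        (1 - X) ^ ((4 - T.card) + (T ∩ loopS E c).card + (nbS E c T).card) : Polynomial ℤ)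
        = (1 - X) ^ 4 * hR) : NoJoin E := by
  have hS := sum_eq E c hP
  obtain ⟨h1, h2, h3⟩ := nums E c hS
  refine noJoin_of_small E c hF (hind_of E c hS) h1 h2 ?_
  intro z hz
  by_contra hcon
  push Not at hcon
  rw [Finset.card_eq_zero] at h3
  have hm : ∀ i, z ∈ nbS E c {i} := by
    intro i
    rw [mem_nbS]
    exact ⟨hz, i, Finset.mem_singleton_self i, hcon i⟩
  have : z ∈ nbS E c {0} ∩ nbS E c {1} ∩ nbS E c {2} ∩ nbS E c {3} := by
    simp only [Finset.mem_inter]
    exact ⟨⟨⟨hm 0, hm 1⟩, hm 2⟩, hm 3⟩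
  rw [h3] at this
  simp at this

end Pool.Agent.KosQ2
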