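import Pool.Agent.KosQ2.Series

/-!
# The Hilbert series of a quadratic monomial ideal relative to a vertex cover
-/

set_option autoImplicit false

namespace Pool.Agent.KosQ2

theorem exists_del_of_sum_two {m : ℕ} (e : Fin m →₀ ℕ) (he : ∑ i, e i = 2) :
    ∃ v w, e = del v + del w := by
  have h1 : ∃ v, e v ≠ 0 := by
    by_contra h
    push Not at h
    simp [h] at he
  obtain ⟨v, hv⟩ := h1
  have h2 : del v ≤ e := by
    intro i
    by_cases hi : v = i
    · subst hi
      simp only [Finsupp.single_eq_same]
      omega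
    · simp [hi]
  obtain ⟨f, rfl⟩ := exists_add_of_le h2
  have h3 : ∑ i, f i = 1 := by
    simp only [Finsupp.add_apply, Finset.sum_add_distrib] at he
    have h4 : ∑ i, (del v) i = 1 := by
      simp [Finsupp.single_apply]
    omega
  have h5 : ∃ w, f w ≠ 0 := by
    by_contra h
    push Not at h
    simp [h] at h3
  obtain ⟨w, hw⟩ := h5
  have h6 : del w ≤ f := by
    intro i
    by_cases hi : w = i
    · subst hi
      simp only [Finsupp.single_eq_same]
      omega
    · simp [hi]
  obtain ⟨g, rfl⟩ := exists_add_of_le h6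
  have h7 : ∑ i, g i = 0 := by
    simp only [Finsupp.add_apply, Finset.sum_add_distrib] at h3
    have h4 : ∑ i, (del w) i = 1 := by
      simp [Finsupp.single_apply]
    omega
  have h8 : g = 0 := by
    ext i
    have := (Finset.sum_eq_zero_iff.1 h7) i (Finset.mem_univ i)
    simpa using this
  exact ⟨v, w, by rw [h8, add_zero]⟩

theorem del_add_le_iff {m : ℕ} (v w : Fin m) (μ : Fin m →₀ ℕ) :
    del v + del w ≤ μ ↔ (if v = w then 2 ≤ μ v else 1 ≤ μ v ∧ 1 ≤ μ w) := by
  constructor
  · intro h
    have hv := h v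
    have hw := h w
    by_cases hvw : v = w
    · subst hvw
      simpa using hv
    · rw [if_neg hvw]
      simp [hvw, Ne.symm hvw] at hv hw
      exact ⟨hv, hw⟩
  · intro h i
    by_cases hvw : v = w
    · subst hvw
      rw [if_pos rfl] at h
      by_cases hi : v = i
      · subst hi
        simpa using h
      · simp [hi]
    · rw [if_neg hvw] at h
      by_cases hi : v = i
      · subst hi
        simp [Ne.symm hvw, h.1]
      · by_cases hi' : w = i
        · subst hi'
          simp [hi, h.2]
        · simp [hi, hi']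

theorem prod_ite_pow {m : ℕ} (S : Finset (Fin m)) (c : Polynomial ℤ) :
    ∏ v, (if v ∈ S then c else 1) = c ^ S.card := by
  rw [Finset.prod_ite_mem, Finset.univ_inter, Finset.prod_const]

open Classical in
/-- The box of the exponents `μ` with `supp μ ∩ C = T`. -/
noncomputable def boxA {m : ℕ} (E : Set (Fin m →₀ ℕ)) (C T : Finset (Fin m)) (v : Fin m) : Fin 4 :=
  if v ∈ C then
    (if v ∈ T then (if del v + del v ∈ E then 1 else 2) else 0)
  else (if ∃ u ∈ T, del u + del v ∈ E then 0 else 3)

open Polynomial in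
open Classical in
theorem prod_wt_boxA {m : ℕ} (E : Set (Fin m →₀ ℕ)) (C T : Finset (Fin m)) (hT : T ⊆ C) :
    ∏ v, wt (boxA E C T v) =
      X ^ T.card * (1 - X) ^ ((C \ T).card + (T.filter (fun v => del v + del v ∈ E)).card +
            (Finset.univ.filter (fun z => z ∉ C ∧ ∃ v ∈ T, del v + del z ∈ E)).card) := by
  rw [pow_add, pow_add, ← prod_ite_pow T, ← prod_ite_pow (C \ T), ← prod_ite_pow (T.filter _),
    ← prod_ite_pow (Finset.univ.filter _), ← Finset.prod_mul_distrib, ← Finset.prod_mul_distrib,
    ← Finset.prod_mul_distrib]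
  refine Finset.prod_congr rfl (fun v _ => ?_)
  by_cases hvC : v ∈ C
  · by_cases hvT : v ∈ T
    · by_cases hl : del v + del v ∈ E
      · simp [boxA, wt, hvC, hvT, hl]
      · simp [boxA, wt, hvC, hvT, hl]
    · simp [boxA, wt, hvC, hvT]
  · have hvT : v ∉ T := fun h => hvC (hT h)
    by_cases hn : ∃ u ∈ T, del u + del v ∈ E
    · simp [boxA, wt, hvC, hvT, hn]
    · simp [boxA, wt, hvC, hvT, hn]

open Classical in
theorem box_sum {m : ℕ} (E : Set (Fin m →₀ ℕ)) (hE : Quadratic E) (C : Finset (Fin m))
    (hC : ∀ v w, v ∉ C → w ∉ C → del v + del w ∉ E) (μ : Fin m →₀ ℕ) :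
    (if (∀ e ∈ E, ¬ e ≤ μ) then (1 : ℤ) else 0) =
      ∑ T : Finset (Fin m),
        (if T ⊆ C ∧ (∀ v ∈ T, ∀ w ∈ T, v ≠ w → del v + del w ∉ E) then (1 : ℤ) else 0) *
          ∏ v, (if allow (boxA E C T v) (μ v) then (1 : ℤ) else 0) := by
  have key : ∀ T : Finset (Fin m), T ≠ C.filter (fun v => μ v ≠ 0) →
      (if T ⊆ C ∧ (∀ v ∈ T, ∀ w ∈ T, v ≠ w → del v + del w ∉ E) then (1 : ℤ) else 0) *
          ∏ v, (if allow (boxA E C T v) (μ v) then (1 : ℤ) else 0) = 0 := by
    intro T hT
    by_cases hTC : T ⊆ C
    · have h1 : ∃ v, ¬ (v ∈ T ↔ v ∈ C.filter (fun v => μ v ≠ 0)) := by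
        by_contra h
        push Not at h
        exact hT (Finset.ext h)
      obtain ⟨v, hv⟩ := h1
      have h2 : ∏ v, (if allow (boxA E C T v) (μ v) then (1 : ℤ) else 0) = 0 := by
        refine Finset.prod_eq_zero (Finset.mem_univ v) ?_
        rw [if_neg]
        rw [Finset.mem_filter] at hv
        by_cases hvT : v ∈ T
        · have hvC := hTC hvT
          have hμ : μ v = 0 := by
            by_contra h0
            exact hv (by simp [hvT, hvC, h0])
          by_cases hl : del v + del v ∈ E
          · simp [boxA, allow, hvC, hvT, hl, hμ]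
          · simp [boxA, allow, hvC, hvT, hl, hμ]
        · have h3 : v ∈ C ∧ μ v ≠ 0 := by
            by_contra h0
            exact hv (by simp [hvT]; simpa using h0)
          simp [boxA, allow, h3.1, hvT, h3.2]
      rw [h2, mul_zero]
    · rw [if_neg (fun h => hTC h.1), zero_mul]
  rw [Finset.sum_eq_single (C.filter (fun v => μ v ≠ 0)) (fun T _ hT => key T hT)
    (fun h => absurd (Finset.mem_univ _) h)]
  rw [Finset.prod_ite_zero, Finset.prod_const_one]
  by_cases hA : ∀ e ∈ E, ¬ e ≤ μ
  · have hd : ∀ v w, del v + del w ∈ E → ¬ (if v = w then 2 ≤ μ v else 1 ≤ μ v ∧ 1 ≤ μ w) :=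
      fun v w h hle => hA _ h ((del_add_le_iff v w μ).2 hle)
    rw [if_pos hA, if_pos, if_pos, mul_one]
    · intro v _
      by_cases hvC : v ∈ C
      · by_cases hμ : μ v = 0
        · simp [boxA, allow, hvC, hμ]
        · by_cases hl : del v + del v ∈ E
          · have := hd v v hl
            rw [if_pos rfl] at this
            have h1 : μ v = 1 := by omega
            simp [boxA, allow, hvC, hl, h1]
          · have h1 : 1 ≤ μ v := by omega
            simp [boxA, allow, hvC, hμ, hl, h1]
      · by_cases hn : ∃ u ∈ C.filter (fun v => μ v ≠ 0), del u + del v ∈ E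
        · have h1 : μ v = 0 := by
            obtain ⟨u, hu, huE⟩ := hn
            rw [Finset.mem_filter] at hu
            have huv : u ≠ v := fun h => hvC (h ▸ hu.1)
            have := hd u v huE
            rw [if_neg huv] at this
            have := hu.2
            omega
          rw [boxA, if_neg hvC, if_pos hn, h1]
          simp [allow]
        · rw [boxA, if_neg hvC, if_neg hn]
          simp [allow]
    · refine ⟨Finset.filter_subset _ _, fun v hv w hw hvw hE' => ?_⟩
      rw [Finset.mem_filter] at hv hw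
      have := hd v w hE'
      rw [if_neg hvw] at this
      have h1 := hv.2
      have h2 := hw.2
      omega
  · rw [if_neg hA]
    symm
    rw [mul_eq_zero]
    push Not at hA
    obtain ⟨e, he, hle⟩ := hA
    obtain ⟨v, w, rfl⟩ := exists_del_of_sum_two e (hE e he)
    rw [del_add_le_iff] at hle
    by_cases hvw : v = w
    · subst hvw
      rw [if_pos rfl] at hle
      have hvC : v ∈ C := by
        by_contra h
        exact hC v v h h he
      right
      rw [if_neg]
      intro h
      have h1 := h v (Finset.mem_univ v)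
      have h2 : v ∈ C.filter (fun v => μ v ≠ 0) := by
        rw [Finset.mem_filter]
        exact ⟨hvC, by omega⟩
      rw [boxA, if_pos hvC, if_pos h2, if_pos he] at h1
      simp only [allow] at h1
      simp at h1
      omega
    · rw [if_neg hvw] at hle
      by_cases hvC : v ∈ C
      · have h2 : v ∈ C.filter (fun v => μ v ≠ 0) := by
          rw [Finset.mem_filter]
          exact ⟨hvC, by omega⟩
        by_cases hwC : w ∈ C
        · have h3 : w ∈ C.filter (fun v => μ v ≠ 0) := by
            rw [Finset.mem_filter]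
            exact ⟨hwC, by omega⟩
          left
          rw [if_neg]
          intro h
          exact h.2 v h2 w h3 hvw he
        · right
          rw [if_neg]
          intro h
          have h1 := h w (Finset.mem_univ w)
          rw [boxA, if_neg hwC, if_pos ⟨v, h2, he⟩] at h1
          simp only [allow] at h1
          simp at h1
          omega
      · by_cases hwC : w ∈ C
        · have h3 : w ∈ C.filter (fun v => μ v ≠ 0) := by
            rw [Finset.mem_filter]
            exact ⟨hwC, by omega⟩
          right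
          rw [if_neg]
          intro h
          have h1 := h v (Finset.mem_univ v)
          rw [add_comm] at he
          rw [boxA, if_neg hvC, if_pos ⟨w, h3, he⟩] at h1
          simp only [allow] at h1
          simp at h1
          omega
        · exact absurd he (hC v w hvC hwC)

open Polynomial in
open Classical in
theorem series_mon {m : ℕ} (E : Set (Fin m →₀ ℕ)) (hE : Quadratic E) (C : Finset (Fin m))
    (hC : ∀ v w, v ∉ C → w ∉ C → del v + del w ∉ E) :
    (1 - PowerSeries.X) ^ m *
      PowerSeries.mk (fun j => ((Nat.card {μ : Fin m →₀ ℕ // μ.degree = j ∧ ∀ e ∈ E, ¬ e ≤ μ} : ℕ) : ℤ))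
      = ((∑ T ∈ C.powerset.filter (fun T => ∀ v ∈ T, ∀ w ∈ T, v ≠ w → del v + del w ∉ E),
          X ^ T.card * (1 - X) ^ ((C \ T).card + (T.filter (fun v => del v + del v ∈ E)).card +
            (Finset.univ.filter (fun z => z ∉ C ∧ ∃ v ∈ T, del v + del z ∈ E)).card) :
          Polynomial ℤ) : PowerSeries ℤ) := by
  rw [series_of_boxes (fun μ => ∀ e ∈ E, ¬ e ≤ μ) _ (boxA E C) (box_sum E hE C hC)]
  congr 1
  rw [← Finset.sum_filter_add_sum_filter_not Finset.univ
    (fun T : Finset (Fin m) => T ⊆ C ∧ (∀ v ∈ T, ∀ w ∈ T, v ≠ w → del v + del w ∉ E))]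
  have h0 : ∑ T ∈ Finset.univ.filter (fun T : Finset (Fin m) =>
      ¬ (T ⊆ C ∧ (∀ v ∈ T, ∀ w ∈ T, v ≠ w → del v + del w ∉ E))),
      Polynomial.C (if T ⊆ C ∧ (∀ v ∈ T, ∀ w ∈ T, v ≠ w → del v + del w ∉ E) then (1 : ℤ) else 0) *
        ∏ v, wt (boxA E C T v) = 0 := by
    refine Finset.sum_eq_zero (fun T hT => ?_)
    rw [if_neg (Finset.mem_filter.1 hT).2]
    simp
  rw [h0, add_zero]
  refine Finset.sum_congr ?_ (fun T hT => ?_)
  · ext T
    simp only [Finset.mem_filter, Finset.mem_univ, true_and, Finset.mem_powerset]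
  · rw [Finset.mem_filter, Finset.mem_powerset] at hT
    rw [if_pos hT, prod_wt_boxA E C T hT.1]
    simp

end Pool.Agent.KosQ2
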