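import Pool.Agent.KosQ2.Mon
import Pool.Agent.KosQ2.MonS

/-!
# A quadratic monomial ideal with the h-polynomial of the example has a free face of codimension 4
-/

set_option autoImplicit false

namespace Pool.Agent.KosQ2

universe u

open Polynomial in
open Classical in
/-- The statement of `series_mon` for one ideal and all free faces. -/
def SeriesMon {m : ℕ} (E : Set (Fin m →₀ ℕ)) : Prop :=
  ∀ C : Finset (Fin m), (∀ v w, v ∉ C → w ∉ C → del v + del w ∉ E) →
    (1 - PowerSeries.X) ^ m *
      PowerSeries.mk (fun j => ((Nat.card {μ : Fin m →₀ ℕ // μ.degree = j ∧ ∀ e ∈ E, ¬ e ≤ μ} : ℕ) : ℤ))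
      = ((∑ T ∈ C.powerset.filter (fun T => ∀ v ∈ T, ∀ w ∈ T, v ≠ w → del v + del w ∉ E),
          X ^ T.card * (1 - X) ^ ((C \ T).card + (T.filter (fun v => del v + del v ∈ E)).card +
            (Finset.univ.filter (fun z => z ∉ C ∧ ∃ v ∈ T, del v + del z ∈ E)).card) :
          Polynomial ℤ) : PowerSeries ℤ)

open Polynomial in
theorem one_sub_X_ne : (1 - X : ℤ[X]) ≠ 0 := by
  intro h
  have := congrArg (Polynomial.eval 0) h
  simp at this

open Polynomial in
/-- Uniqueness of the order of vanishing at one. -/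
theorem order_one {a b : ℕ} {P Q : ℤ[X]} (hP : P.eval 1 ≠ 0) (hQ : Q.eval 1 ≠ 0)
    (h : (1 - X) ^ a * P = (1 - X) ^ b * Q) : a = b := by
  rcases lt_trichotomy a b with hab | hab | hab
  · exfalso
    obtain ⟨k, rfl⟩ := Nat.exists_eq_add_of_lt hab
    rw [show a + k + 1 = a + (k + 1) by ring, pow_add, mul_assoc] at h
    have h2 := mul_left_cancel₀ (pow_ne_zero a one_sub_X_ne) h
    apply hP
    rw [h2]
    simp
  · exact hab
  · exfalso
    obtain ⟨k, rfl⟩ := Nat.exists_eq_add_of_lt hab
    rw [show b + k + 1 = b + (k + 1) by ring, pow_add, mul_assoc] at h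
    have h2 := mul_left_cancel₀ (pow_ne_zero b one_sub_X_ne) h
    apply hQ
    rw [← h2]
    simp

open Polynomial in
theorem coeff_one_term (k e : ℕ) : (X ^ k * (1 - X) ^ e : ℤ[X]).coeff 1 =
    if k = 0 then -(e : ℤ) else if k = 1 then 1 else 0 := by
  have h0 : ∀ e : ℕ, ((1 - X : ℤ[X]) ^ e).coeff 0 = 1 := by
    intro e
    rw [Polynomial.coeff_zero_eq_eval_zero]
    simp
  have h1 : ∀ e : ℕ, ((1 - X : ℤ[X]) ^ e).coeff 1 = -(e : ℤ) := by
    intro e
    induction e with
    | zero => simp [Polynomial.coeff_one]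
    | succ e ih =>
      rw [pow_succ, mul_sub, mul_one, Polynomial.coeff_sub, Polynomial.coeff_mul_X, ih, h0]
      push_cast
      ring
  rcases k with _ | _ | k
  · simp [h1]
  · rw [zero_add, pow_one, Polynomial.coeff_X_mul, h0]
    simp
  · rw [Polynomial.coeff_X_pow_mul']
    simp

open Polynomial in
open Classical in
/-- The polynomial on the right hand side of `series_mon`. -/
noncomputable def PC {m : ℕ} (E : Set (Fin m →₀ ℕ)) (C : Finset (Fin m)) : ℤ[X] :=
  ∑ T ∈ C.powerset.filter (fun T => ∀ v ∈ T, ∀ w ∈ T, v ≠ w → del v + del w ∉ E),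
          X ^ T.card * (1 - X) ^ ((C \ T).card + (T.filter (fun v => del v + del v ∈ E)).card +
            (Finset.univ.filter (fun z => z ∉ C ∧ ∃ v ∈ T, del v + del z ∈ E)).card)

open Polynomial in
theorem PC_eq {m : ℕ} (K : Type u) [Field K] (E : Set (Fin m →₀ ℕ)) (hE : Quadratic E)
    (hS : SeriesMon E) (d : ℕ)
    (hd : (1 - PowerSeries.X) ^ d * hilb (monIdeal K E) = (hR : PowerSeries ℤ))
    (C : Finset (Fin m)) (hC : ∀ v w, v ∉ C → w ∉ C → del v + del w ∉ E) :
    (1 - X) ^ d * PC E C = (1 - X) ^ m * hR := by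
  apply Polynomial.coe_injective ℤ
  have hser : hilb (monIdeal K E) = PowerSeries.mk (fun j =>
      ((Nat.card {μ : Fin m →₀ ℕ // μ.degree = j ∧ ∀ e ∈ E, ¬ e ≤ μ} : ℕ) : ℤ)) := by
    ext j
    simp [hilb, hilb_mon K E hE j]
  have h1 := hS C hC
  rw [← hser] at h1
  have h2 : ((PC E C : ℤ[X]) : PowerSeries ℤ) = (1 - PowerSeries.X) ^ m * hilb (monIdeal K E) := by
    rw [h1]; rfl
  rw [Polynomial.coe_mul, Polynomial.coe_mul, h2, ← hd]
  simp only [Polynomial.coe_pow, Polynomial.coe_sub, Polynomial.coe_one, Polynomial.coe_X]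
  ring

open Polynomial in
open Classical in
theorem exists_face {m : ℕ} (E : Set (Fin m →₀ ℕ)) (d : ℕ)
    (hP : (1 - X) ^ d * PC E Finset.univ = (1 - X) ^ m * hR) :
    ∃ U : Finset (Fin m), U.card = d ∧ (∀ v ∈ U, ∀ w ∈ U, del v + del w ∉ E) ∧ m = d + 4 := by
  set F := (Finset.univ : Finset (Fin m)).powerset.filter
    (fun T => ∀ v ∈ T, ∀ w ∈ T, v ≠ w → del v + del w ∉ E) with hF
  let U : Finset (Fin m) → Finset (Fin m) := fun T => T.filter (fun v => del v + del v ∉ E)
  have hem : (∅ : Finset (Fin m)) ∈ F := by simp [hF]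
  obtain ⟨T0, hT0, hmax⟩ := Finset.exists_max_image F (fun T => (U T).card) ⟨∅, hem⟩
  have hUle : ∀ T, (U T).card ≤ m := by
    intro T
    exact (Finset.card_le_univ _).trans (by simp)
  have he : ∀ T : Finset (Fin m), (Finset.univ \ T).card +
      (T.filter (fun v => del v + del v ∈ E)).card +
      (Finset.univ.filter (fun z => z ∉ (Finset.univ : Finset (Fin m)) ∧
        ∃ v ∈ T, del v + del z ∈ E)).card = m - (U T).card := by
    intro T
    have h1 : (Finset.univ \ T).card + T.card = m := by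
      rw [Finset.card_sdiff_add_card_eq_card (Finset.subset_univ T)]
      simp
    have h2 : (T.filter (fun v => del v + del v ∈ E)).card + (U T).card = T.card :=
      Finset.card_filter_add_card_filter_not _
    have h3 : (Finset.univ.filter (fun z => z ∉ (Finset.univ : Finset (Fin m)) ∧
        ∃ v ∈ T, del v + del z ∈ E)) = ∅ := by
      ext z; simp
    rw [h3]
    simp only [Finset.card_empty]
    omega
  have hPC : PC E Finset.univ = ∑ T ∈ F, X ^ T.card * (1 - X) ^ (m - (U T).card) := by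
    unfold PC
    exact Finset.sum_congr rfl (fun T _ => by rw [he T])
  -- the order of vanishing
  have hq : PC E Finset.univ = (1 - X) ^ (m - (U T0).card) *
      ∑ T ∈ F, X ^ T.card * (1 - X) ^ ((U T0).card - (U T).card) := by
    rw [hPC, Finset.mul_sum]
    refine Finset.sum_congr rfl (fun T hT => ?_)
    have h1 := hmax T hT
    have h2 := hUle T0
    have h3 : m - (U T).card = (m - (U T0).card) + ((U T0).card - (U T).card) := by omega
    rw [h3, pow_add]
    ring
  have hq1 : (∑ T ∈ F, X ^ T.card * (1 - X) ^ ((U T0).card - (U T).card) : ℤ[X]).eval 1 ≠ 0 := by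
    rw [Polynomial.eval_finsetSum]
    apply ne_of_gt
    apply Finset.sum_pos'
    · intro T _
      simp only [Polynomial.eval_mul, Polynomial.eval_pow, Polynomial.eval_X,
        Polynomial.eval_sub, Polynomial.eval_one, sub_self, one_pow, one_mul]
      positivity
    · exact ⟨T0, hT0, by simp⟩
  have hR1 : hR.eval 1 ≠ 0 := by simp [hR]
  have hord : d + (m - (U T0).card) = m := by
    refine order_one (P := ∑ T ∈ F, X ^ T.card * (1 - X) ^ ((U T0).card - (U T).card))
      (Q := hR) hq1 hR1 ?_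
    rw [← hP, hq]
    ring
  have hUd : (U T0).card = d := by
    have := hUle T0
    omega
  refine ⟨U T0, hUd, ?_, ?_⟩
  · intro v hv w hw
    have hv' := Finset.mem_filter.1 hv
    have hw' := Finset.mem_filter.1 hw
    by_cases hvw : v = w
    · subst hvw
      exact hv'.2
    · exact (Finset.mem_filter.1 hT0).2 v hv'.1 w hw'.1 hvw
  · -- the coefficient of X
    have h1 : ((1 - X) ^ d * PC E Finset.univ : ℤ[X]).coeff 1 = -(d : ℤ) := by
      have h2 : ((1 - X) ^ d * PC E Finset.univ : ℤ[X]) =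
          ∑ T ∈ F, X ^ T.card * (1 - X) ^ (d + (m - (U T).card)) := by
        rw [hPC, Finset.mul_sum]
        refine Finset.sum_congr rfl (fun T _ => ?_)
        rw [pow_add]; ring
      rw [h2, Polynomial.finsetSum_coeff]
      have h3 : ∀ T ∈ F, (X ^ T.card * (1 - X) ^ (d + (m - (U T).card)) : ℤ[X]).coeff 1 =
          (if T = ∅ then -((d : ℤ) + m) else 0) + (if T.card = 1 then 1 else 0) := by
        intro T _
        rw [coeff_one_term]
        by_cases hT : T = ∅
        · subst hT
          simp [U]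
        · have h4 : T.card ≠ 0 := by
            rw [Ne, Finset.card_eq_zero]; exact hT
          simp [h4, hT]
      rw [Finset.sum_congr rfl h3, Finset.sum_add_distrib, Finset.sum_ite_eq' , if_pos hem,
        ← Finset.sum_filter]
      have h5 : F.filter (fun T => T.card = 1) =
          Finset.powersetCard 1 (Finset.univ : Finset (Fin m)) := by
        ext T
        simp only [hF, Finset.mem_filter, Finset.mem_powerset, Finset.mem_powersetCard]
        constructor
        · rintro ⟨⟨h, _⟩, h'⟩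
          exact ⟨h, h'⟩
        · rintro ⟨h, h'⟩
          refine ⟨⟨h, ?_⟩, h'⟩
          obtain ⟨a, rfl⟩ := Finset.card_eq_one.1 h'
          intro v hv w hw hvw
          rw [Finset.mem_singleton] at hv hw
          exact absurd (hv.trans hw.symm) hvw
      rw [h5]
      simp
    have h6 : ((1 - X) ^ m * hR : ℤ[X]).coeff 1 = 4 - (m : ℤ) := by
      have h7 : ((1 - X) ^ m * hR : ℤ[X]) = X ^ 0 * (1 - X) ^ m + 4 * (X ^ 1 * (1 - X) ^ m) +
          X * (X * ((1 - X) ^ m * (-1 - 11 * X + 6 * X ^ 2 + 8 * X ^ 3 - 8 * X ^ 4 + 2 * X ^ 5))) := by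
        rw [hR]; ring
      rw [h7, Polynomial.coeff_add, Polynomial.coeff_add, coeff_one_term, Polynomial.coeff_X_mul,
        Polynomial.mul_coeff_zero]
      have h8 : (4 * (X ^ 1 * (1 - X) ^ m) : ℤ[X]).coeff 1 = 4 * (X ^ 1 * (1 - X) ^ m : ℤ[X]).coeff 1 := by
        exact Polynomial.coeff_C_mul (a := 4) (X ^ 1 * (1 - X) ^ m) (n := 1)
      rw [h8, coeff_one_term]
      simp
      ring
    rw [hP, h6] at h1
    omega

open Polynomial in
open Classical in
theorem PC_reindex {m : ℕ} (E : Set (Fin m →₀ ℕ)) (c : Fin 4 ↪ Fin m) :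
    PC E (Finset.univ.map c) = ∑ T ∈ indS E c, X ^ T.card *
        (1 - X) ^ ((4 - T.card) + (T ∩ loopS E c).card + (nbS E c T).card) := by
  have himg : (Finset.univ.map c).powerset.filter
      (fun T => ∀ v ∈ T, ∀ w ∈ T, v ≠ w → del v + del w ∉ E) =
      (indS E c).map (Finset.mapEmbedding c).toEmbedding := by
    ext T
    simp only [Finset.mem_filter, Finset.mem_powerset, Finset.mem_map, indS, Finset.mem_univ,
      true_and, RelEmbedding.coe_toEmbedding, Finset.mapEmbedding_apply]
    constructor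
    · rintro ⟨h1, h2⟩
      obtain ⟨T', -, rfl⟩ := Finset.subset_map_iff.1 h1
      refine ⟨T', ?_, rfl⟩
      intro i hi j hj hij
      exact h2 (c i) (Finset.mem_map_of_mem c hi) (c j) (Finset.mem_map_of_mem c hj)
        (fun h => hij (c.injective h))
    · rintro ⟨T', h1, rfl⟩
      refine ⟨Finset.map_subset_map.2 (Finset.subset_univ _), ?_⟩
      intro v hv w hw hvw
      obtain ⟨i, hi, rfl⟩ := Finset.mem_map.1 hv
      obtain ⟨j, hj, rfl⟩ := Finset.mem_map.1 hw
      exact h1 i hi j hj (fun h => hvw (by rw [h]))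
  unfold PC
  rw [himg, Finset.sum_map]
  refine Finset.sum_congr rfl (fun T _ => ?_)
  have h0 : (Finset.mapEmbedding c).toEmbedding T = T.map c := rfl
  rw [h0]
  have h1 : (Finset.univ.map c \ T.map c).card = 4 - T.card := by
    rw [Finset.card_sdiff_of_subset (Finset.map_subset_map.2 (Finset.subset_univ _)),
      Finset.card_map, Finset.card_map]
    simp
  have h2 : ((T.map c).filter (fun v => del v + del v ∈ E)).card = (T ∩ loopS E c).card := by
    rw [Finset.filter_map, Finset.card_map]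
    congr 1
    ext i
    simp [loopS]
  have h3 : (Finset.univ.filter (fun z => z ∉ Finset.univ.map c ∧
      ∃ v ∈ T.map c, del v + del z ∈ E)) = nbS E c T := by
    ext z
    simp [nbS]
  rw [h1, h2, h3, Finset.card_map]

open Polynomial in
theorem cover_of_series {m : ℕ} (K : Type u) [Field K] (E : Set (Fin m →₀ ℕ)) (hE : Quadratic E)
    (hS : SeriesMon E) (hH : IsH (monIdeal K E) hR) :
    ∃ c : Fin 4 → Fin m, Function.Injective c ∧
      (∀ v w, (∀ i, c i ≠ v) → (∀ i, c i ≠ w) → del v + del w ∉ E) ∧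
      (∑ T ∈ indS E c, X ^ T.card *
        (1 - X) ^ ((4 - T.card) + (T ∩ loopS E c).card + (nbS E c T).card) : Polynomial ℤ)
        = (1 - X) ^ 4 * hR := by
  obtain ⟨-, d, hd⟩ := hH
  obtain ⟨U, hUd, hU, hm⟩ := exists_face E d
    (PC_eq K E hE hS d hd Finset.univ (fun v _ hv => absurd (Finset.mem_univ v) hv))
  have hcard : Uᶜ.card = 4 := by
    rw [Finset.card_compl, Fintype.card_fin]
    omega
  let c : Fin 4 ↪ Fin m := (Uᶜ.orderEmbOfFin hcard).toEmbedding
  have hmap : Finset.univ.map c = Uᶜ := by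
    apply Finset.coe_injective
    rw [Finset.coe_map, Finset.coe_univ, Set.image_univ]
    exact Finset.range_orderEmbOfFin Uᶜ hcard
  have hmem : ∀ v, (∀ i, c i ≠ v) → v ∈ U := by
    intro v hv
    by_contra h
    have h1 : v ∈ Finset.univ.map c := by
      rw [hmap]; exact Finset.mem_compl.2 h
    obtain ⟨i, -, hi⟩ := Finset.mem_map.1 h1
    exact hv i hi
  refine ⟨c, c.injective, fun v w hv hw => hU v (hmem v hv) w (hmem w hw), ?_⟩
  rw [← PC_reindex E c, hmap]
  have h1 := PC_eq K E hE hS d hd Uᶜ (fun v w hv hw => hU v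
    (by simpa using hv) w (by simpa using hw))
  have h2 : ((1 - X : ℤ[X])) ^ m = (1 - X) ^ d * (1 - X) ^ 4 := by
    rw [← pow_add, ← hm]
  rw [h2, mul_assoc] at h1
  exact mul_left_cancel₀ (pow_ne_zero d one_sub_X_ne) h1

open Polynomial in
theorem cover {m : ℕ} (K : Type u) [Field K] (E : Set (Fin m →₀ ℕ)) (hE : Quadratic E)
    (hH : IsH (monIdeal K E) hR) :
    ∃ c : Fin 4 → Fin m, Function.Injective c ∧
      (∀ v w, (∀ i, c i ≠ v) → (∀ i, c i ≠ w) → del v + del w ∉ E) ∧
      (∑ T ∈ indS E c, X ^ T.card *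
        (1 - X) ^ ((4 - T.card) + (T ∩ loopS E c).card + (nbS E c T).card) : Polynomial ℤ)
        = (1 - X) ^ 4 * hR :=
  cover_of_series K E hE (fun C hC => series_mon E hE C hC) hH

end Pool.Agent.KosQ2
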