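import Mathlib

/-!
# Koszul algebras, h-vectors, graded Betti numbers: definitions for Q2 of MP_4913c2_al

`S = MvPolynomial (Fin n) K`, `I` an ideal of `S`, `R = S / I`.
-/

set_option autoImplicit false

namespace Pool.Agent.KosQ2

universe u v

variable {K : Type u} [Field K]

/-- `I` is homogeneous. -/
def Homog {n : ℕ} (I : Ideal (MvPolynomial (Fin n) K)) : Prop :=
  ∀ p ∈ I, ∀ j : ℕ, MvPolynomial.homogeneousComponent j p ∈ I

/-- The ideal `(x_1, ..., x_n)` of `S`. -/
noncomputable def irr (n : ℕ) (K : Type u) [Field K] : Ideal (MvPolynomial (Fin n) K) :=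
  RingHom.ker (MvPolynomial.constantCoeff : MvPolynomial (Fin n) K →+* K)

/-- The part of degree `j` of `S / I`. -/
noncomputable def dpart {n : ℕ} (I : Ideal (MvPolynomial (Fin n) K)) (j : ℕ) :
    Submodule K (MvPolynomial (Fin n) K ⧸ I) :=
  Submodule.map (Ideal.Quotient.mkₐ K I).toLinearMap (MvPolynomial.homogeneousSubmodule (Fin n) K j)

/-- `S / I` is Koszul: the residue field has a linear free resolution over `S / I`, given by
matrices `M 0, M 1, ...` of linear forms (`M 0` is a row whose image is the maximal ideal, and the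
kernel of each matrix is the image of the next one). -/
def Koszul {n : ℕ} (I : Ideal (MvPolynomial (Fin n) K)) : Prop :=
  ∃ (b : ℕ → ℕ)
    (M : ∀ i : ℕ, Matrix (Fin (b i)) (Fin (b (i + 1))) (MvPolynomial (Fin n) K ⧸ I)),
    b 0 = 1 ∧
    (∀ (i : ℕ) (r : Fin (b i)) (c : Fin (b (i + 1))), M i r c ∈ dpart I 1) ∧
    (∀ v : Fin (b 0) → MvPolynomial (Fin n) K ⧸ I,
      (∃ w, Matrix.mulVec (M 0) w = v) ↔
        ∀ r, v r ∈ Ideal.map (Ideal.Quotient.mk I) (irr n K)) ∧
    (∀ (i : ℕ) (v : Fin (b (i + 1)) → MvPolynomial (Fin n) K ⧸ I),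
      Matrix.mulVec (M i) v = 0 ↔ ∃ w, Matrix.mulVec (M (i + 1)) w = v)

/-- The Hilbert series of `S / I`. -/
noncomputable def hilb {n : ℕ} (I : Ideal (MvPolynomial (Fin n) K)) : PowerSeries ℤ :=
  PowerSeries.mk fun j => ((Module.finrank K (dpart I j) : ℕ) : ℤ)

/-- `h` is the h-polynomial of `S / I`: the Hilbert series is `h / (1-z)^d` with `h(1) ≠ 0`. -/
def IsH {n : ℕ} (I : Ideal (MvPolynomial (Fin n) K)) (h : Polynomial ℤ) : Prop :=
  h.eval 1 ≠ 0 ∧ ∃ d : ℕ, (1 - PowerSeries.X) ^ d * hilb I = (h : PowerSeries ℤ)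

/-- All exponents of `E` have degree two. -/
def Quadratic {m : ℕ} (E : Set (Fin m →₀ ℕ)) : Prop := ∀ e ∈ E, ∑ i, e i = 2

/-- The ideal generated by the monomials with exponents in `E`. -/
noncomputable def monIdeal (K : Type u) [Field K] {m : ℕ} (E : Set (Fin m →₀ ℕ)) :
    Ideal (MvPolynomial (Fin m) K) :=
  Ideal.span ((fun e => MvPolynomial.monomial e (1 : K)) '' E)

/-- The sign of the basis vector `e_v` in front of `e_s`. -/
def sgn {n : ℕ} (v : Fin n) (s : Finset (Fin n)) : ℤ := (-1) ^ (s.filter (· < v)).card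

/-- The Koszul complex of `S / I` on the variables; an element `f` stands for
`∑ f(s) e_s`, and `d(e_s) = ∑_{v ∈ s} ± x_v e_{s \ v}`. -/
noncomputable def kd {n : ℕ} (I : Ideal (MvPolynomial (Fin n) K)) :
    (Finset (Fin n) → MvPolynomial (Fin n) K ⧸ I) →ₗ[K]
      (Finset (Fin n) → MvPolynomial (Fin n) K ⧸ I) where
  toFun f := fun s => ∑ v ∈ sᶜ, (sgn v s : MvPolynomial (Fin n) K ⧸ I) *
    Ideal.Quotient.mk I (MvPolynomial.X v) * f (insert v s)
  map_add' f g := by
    funext s
    simp only [Pi.add_apply, mul_add, Finset.sum_add_distrib]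
  map_smul' a f := by
    funext s
    simp only [Pi.smul_apply, RingHom.id_apply, Finset.smul_sum, mul_smul_comm]

/-- Homological degree `i`, internal degree `j` of the Koszul complex: functions supported on the
sets with `i` elements, with values in the part of degree `j - i`. -/
noncomputable def kpart {n : ℕ} (I : Ideal (MvPolynomial (Fin n) K)) (i j : ℕ) :
    Submodule K (Finset (Fin n) → MvPolynomial (Fin n) K ⧸ I) where
  carrier := {f | ∀ s, (f s ≠ 0 → s.card = i ∧ i ≤ j) ∧ (s.card = i → f s ∈ dpart I (j - i))}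
  zero_mem' := fun s => ⟨fun h => absurd rfl h, fun _ => Submodule.zero_mem _⟩
  add_mem' := by
    intro f g hf hg s
    refine ⟨fun h => ?_, fun h => Submodule.add_mem _ ((hf s).2 h) ((hg s).2 h)⟩
    by_cases h1 : f s = 0
    · refine (hg s).1 (fun h2 => h ?_)
      simp [h1, h2]
    · exact (hf s).1 h1
  smul_mem' := by
    intro a f hf s
    refine ⟨fun h => (hf s).1 (fun h1 => h ?_), fun h => Submodule.smul_mem _ _ ((hf s).2 h)⟩
    simp [h1]

/-- The cycles of homological degree `i` and internal degree `j`. -/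
noncomputable def kcyc {n : ℕ} (I : Ideal (MvPolynomial (Fin n) K)) (i j : ℕ) :
    Submodule K (Finset (Fin n) → MvPolynomial (Fin n) K ⧸ I) :=
  kpart I i j ⊓ LinearMap.ker (kd I)

/-- The boundaries of homological degree `i` and internal degree `j`. -/
noncomputable def kbd {n : ℕ} (I : Ideal (MvPolynomial (Fin n) K)) (i j : ℕ) :
    Submodule K (Finset (Fin n) → MvPolynomial (Fin n) K ⧸ I) :=
  (kpart I (i + 1) j).map (kd I)

/-- The dimension of `Z / B`, for subspaces `B`, `Z` of `V` (with `B` contained in `Z`). -/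
noncomputable def quotDim (K : Type u) [Field K] {V : Type v} [AddCommGroup V] [Module K V]
    (Z B : Submodule K V) : ℕ :=
  Module.finrank K (Z ⧸ B.comap Z.subtype)

/-- The graded Betti number `β_{ij}` of `S / I` over `S`: the dimension of `Tor_i(S / I, K)_j`,
computed as cycles modulo boundaries of the Koszul complex on the variables. -/
noncomputable def betti {n : ℕ} (I : Ideal (MvPolynomial (Fin n) K)) (i j : ℕ) : ℕ :=
  quotDim K (kcyc I i j) (kbd I i j)

end Pool.Agent.KosQ2
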