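import Pool.Agent.KosQ2.Defs

/-!
# Auxiliary definitions (normal form systems, Koszul filtrations, the numbers of the example)
-/

set_option autoImplicit false

namespace Pool.Agent.KosQ2

universe u

open Polynomial in
/-- The h-polynomial of the example. -/
noncomputable def hR : Polynomial ℤ :=
  1 + 4 * X - X ^ 2 - 11 * X ^ 3 + 6 * X ^ 4 + 8 * X ^ 5 - 8 * X ^ 6 + 2 * X ^ 7

/-- Exponent of the variable `v`. -/
noncomputable abbrev del {n : ℕ} (v : Fin n) : Fin n →₀ ℕ := Finsupp.single v 1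

/-- `J` can be built from `0` by adding elements of `L` one after the other, all colon ideals
being in `F`. -/
inductive KI {R : Type u} [CommRing R] (L : Set R) (F : Set (Ideal R)) : Ideal R → Prop
  | bot : KI L F ⊥
  | step (J J' : Ideal R) (l : R) : KI L F J → l ∈ L → J' ∈ F →
      (∀ t : R, t * l ∈ J ↔ t ∈ J') → KI L F (J ⊔ Ideal.span {l})

/-- A normal form system on the monomials in `n` variables: `x^μ` has normal form `c μ * x^(t μ)`. -/
structure NF (n : ℕ) where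
  c : (Fin n →₀ ℕ) → ℤ
  t : (Fin n →₀ ℕ) → (Fin n →₀ ℕ)
  hunit : ∀ μ, c μ = 0 ∨ c μ = 1 ∨ c μ = -1
  hstep : ∀ μ i, c (μ + del i) = c μ * c (t μ + del i)
  tstep : ∀ μ i, c (μ + del i) ≠ 0 → t (μ + del i) = t (t μ + del i)
  hdeg : ∀ μ, c μ ≠ 0 → (t μ).degree = μ.degree
  hidem : ∀ μ, c μ ≠ 0 → c (t μ) = 1 ∧ t (t μ) = t μ
  hlow : ∀ μ, μ.degree ≤ 1 → c μ = 1 ∧ t μ = μ

/-- Standard monomials. -/
def NF.Std {n : ℕ} (N : NF n) (μ : Fin n →₀ ℕ) : Prop := N.c μ = 1 ∧ N.t μ = μ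

/-- The normal form map. -/
noncomputable def NF.phi {n : ℕ} (N : NF n) (K : Type u) [Field K] :
    MvPolynomial (Fin n) K →ₗ[K] MvPolynomial (Fin n) K :=
  (MvPolynomial.basisMonomials (Fin n) K).constr K
    (fun μ => MvPolynomial.monomial (N.t μ) ((N.c μ : ℤ) : K))

/-- Stable sets of monomials. -/
def NF.Stable {n : ℕ} (N : NF n) (X : Set (Fin n →₀ ℕ)) : Prop :=
  ∀ μ ∈ X, N.Std μ → ∀ i, N.c (μ + del i) ≠ 0 → N.t (μ + del i) ∈ X

/-- The combinatorial form of one step `J X = J Y + (x_i)`, `(J Y : x_i) = J Z`. -/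
structure NF.Step {n : ℕ} (N : NF n) (X Y Z : Set (Fin n →₀ ℕ)) (i : Fin n) : Prop where
  sub : ∀ μ ∈ Y, μ ∈ X
  mem : del i ∈ X
  gen : ∀ μ ∈ X, N.Std μ → μ ∈ Y ∨ ∃ ν, N.Std ν ∧ N.c (ν + del i) ≠ 0 ∧ N.t (ν + del i) = μ
  z1 : ∀ ν ∈ Z, N.Std ν → N.c (ν + del i) ≠ 0 → N.t (ν + del i) ∈ Y
  z2 : ∀ ν, ν ∉ Z → N.Std ν → N.c (ν + del i) ≠ 0 ∧ N.t (ν + del i) ∉ Y
  z3 : ∀ ν ν', ν ∉ Z → ν' ∉ Z → N.Std ν → N.Std ν' → N.t (ν + del i) = N.t (ν' + del i) → ν = ν'

/-- A combinatorial Koszul filtration: every member of the family is empty or obtained by one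
step from a member with a smaller rank. -/
structure NF.Filtration {n : ℕ} (N : NF n) {ι : Type} (X : ι → Set (Fin n →₀ ℕ))
    (rk : ι → ℕ) : Prop where
  stable : ∀ a, N.Stable (X a)
  step : ∀ a, (∀ μ ∈ X a, ¬ N.Std μ) ∨
    ∃ b c : ι, ∃ i : Fin n, rk b < rk a ∧ N.Step (X a) (X b) (X c) i
  top : ∃ a, X a = {μ | μ ≠ 0}

/-- Allowed exponents: code 0: only 0; code 1: only 1; code 2: at least 1; code 3: all. -/
def allow (k : Fin 4) (e : ℕ) : Prop :=
  if k = 0 then e = 0 else if k = 1 then e = 1 else if k = 2 then 1 ≤ e else True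

instance (k : Fin 4) (e : ℕ) : Decidable (allow k e) := by unfold allow; infer_instance

open Polynomial in
/-- `(1 - X)` times the generating function of the allowed exponents. -/
noncomputable def wt (k : Fin 4) : Polynomial ℤ :=
  if k = 0 then 1 - X else if k = 1 then X * (1 - X) else if k = 2 then X else 1

/-- The condition on a quadratic monomial ideal which excludes `Tor_4` in degree 5. -/
def NoJoin {m : ℕ} (E : Set (Fin m →₀ ℕ)) : Prop :=
  (∀ s : Finset (Fin m), s.card = 4 → ∀ v ∈ s, del v + del v ∈ E →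
    ∃ w ∈ s, w ≠ v ∧ del v + del w ∉ E) ∧
  (∀ P Q : Finset (Fin m), P.Nonempty → Q.Nonempty → Disjoint P Q → (P ∪ Q).card = 5 →
    ∃ p ∈ P, ∃ q ∈ Q, del p + del q ∉ E)

open Classical in
/-- Loops among the four chosen vertices. -/
noncomputable def loopS {m : ℕ} (E : Set (Fin m →₀ ℕ)) (c : Fin 4 → Fin m) : Finset (Fin 4) :=
  Finset.univ.filter (fun i => del (c i) + del (c i) ∈ E)

open Classical in
/-- Independent sets among the four chosen vertices. -/
noncomputable def indS {m : ℕ} (E : Set (Fin m →₀ ℕ)) (c : Fin 4 → Fin m) :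
    Finset (Finset (Fin 4)) :=
  Finset.univ.filter (fun T => ∀ i ∈ T, ∀ j ∈ T, i ≠ j → del (c i) + del (c j) ∉ E)

open Classical in
/-- Outside neighbours of a set of chosen vertices. -/
noncomputable def nbS {m : ℕ} (E : Set (Fin m →₀ ℕ)) (c : Fin 4 → Fin m) (T : Finset (Fin 4)) :
    Finset (Fin m) :=
  Finset.univ.filter (fun z => (∀ i, c i ≠ z) ∧ ∃ i ∈ T, del (c i) + del z ∈ E)

/-- The explicit quadratic monomial ideal in 9 variables. -/
def E0 : Set (Fin 9 →₀ ℕ) :=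
  {del 0 + del 0, del 0 + del 4, del 0 + del 5, del 1 + del 1, del 1 + del 4, del 1 + del 6,
    del 3 + del 5, del 3 + del 7, del 2 + del 2, del 2 + del 7, del 2 + del 8}

end Pool.Agent.KosQ2
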