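import Pool.Agent.KosQ2.ExaCore
import Pool.Agent.KosQ2.Mon
import Pool.Agent.KosQ2.MonS

/-!
# The explicit quadratic monomial algebra has h-polynomial `hR`
-/

set_option autoImplicit false

namespace Pool.Agent.KosQ2

universe u

/-- The explicit monomial algebra has h-polynomial `hR`. -/
theorem isH_E0 (K : Type u) [Field K] : Quadratic E0 ∧ IsH (monIdeal K E0) hR :=
  isH_E0_of K (hilb_mon K E0 Exa.quad) (fun C hC => series_mon E0 Exa.quad C hC)

end Pool.Agent.KosQ2
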