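import Pool.Agent.KosQ2.Defs2

/-!
# The explicit quadratic monomial algebra has h-polynomial `hR`
-/

set_option autoImplicit false

namespace Pool.Agent.KosQ2

universe u

namespace Exa

/-- The edges and loops of the explicit graph on 9 vertices. -/
def edge (v w : Fin 9) : Prop :=
  ((v = 0 ∧ w = 0) ∨ (v = 0 ∧ w = 0)) ∨ ((v = 0 ∧ w = 4) ∨ (v = 4 ∧ w = 0)) ∨
  ((v = 0 ∧ w = 5) ∨ (v = 5 ∧ w = 0)) ∨ ((v = 1 ∧ w = 1) ∨ (v = 1 ∧ w = 1)) ∨
  ((v = 1 ∧ w = 4) ∨ (v = 4 ∧ w = 1)) ∨ ((v = 1 ∧ w = 6) ∨ (v = 6 ∧ w = 1)) ∨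
  ((v = 3 ∧ w = 5) ∨ (v = 5 ∧ w = 3)) ∨ ((v = 3 ∧ w = 7) ∨ (v = 7 ∧ w = 3)) ∨
  ((v = 2 ∧ w = 2) ∨ (v = 2 ∧ w = 2)) ∨ ((v = 2 ∧ w = 7) ∨ (v = 7 ∧ w = 2)) ∨
  ((v = 2 ∧ w = 8) ∨ (v = 8 ∧ w = 2))

instance (v w : Fin 9) : Decidable (edge v w) := by unfold edge; infer_instance

theorem del_add_eq (v w a b : Fin 9) :
    del v + del w = del a + del b ↔ (v = a ∧ w = b) ∨ (v = b ∧ w = a) := by
  rw [Finsupp.single_add_single_eq_single_add_single one_ne_zero one_ne_zero]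
  simp

theorem mem_E0 (v w : Fin 9) : del v + del w ∈ E0 ↔ edge v w := by
  simp only [E0, Set.mem_insert_iff, Set.mem_singleton_iff, del_add_eq, edge]

theorem quad : Quadratic E0 := by
  intro e he
  simp only [E0, Set.mem_insert_iff, Set.mem_singleton_iff] at he
  rcases he with h | h | h | h | h | h | h | h | h | h | h <;> subst h <;>
    simp [Finset.sum_add_distrib]

/-- The exponent of `1 - X`. -/
def expo (T : Finset (Fin 9)) : ℕ :=
  (({0, 1, 2, 3} : Finset (Fin 9)) \ T).card + (T.filter (fun v => edge v v)).card +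
    (Finset.univ.filter (fun z => z ∉ ({0, 1, 2, 3} : Finset (Fin 9)) ∧ ∃ v ∈ T, edge v z)).card

theorem vals : (Finset.powerset ({0, 1, 2, 3} : Finset (Fin 9))).val.map
    (fun T => (T.card, expo T)) =
    {(0, 4), (1, 6), (1, 6), (1, 6), (1, 5), (2, 7), (2, 8), (2, 6), (2, 8), (2, 7), (2, 6),
      (3, 9), (3, 7), (3, 7), (3, 8), (4, 8)} := by
  decide

open Polynomial in
theorem sum_val : ∑ T ∈ Finset.powerset ({0, 1, 2, 3} : Finset (Fin 9)),
    (X : Polynomial ℤ) ^ T.card * (1 - X) ^ (expo T) = (1 - X) ^ 4 * hR := by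
  have h1 : ∑ T ∈ Finset.powerset ({0, 1, 2, 3} : Finset (Fin 9)),
      (X : Polynomial ℤ) ^ T.card * (1 - X) ^ (expo T) =
      (((Finset.powerset ({0, 1, 2, 3} : Finset (Fin 9))).val.map
        (fun T => (T.card, expo T))).map
        (fun p : ℕ × ℕ => (X : Polynomial ℤ) ^ p.1 * (1 - X) ^ p.2)).sum := by
    rw [Multiset.map_map]
    rfl
  rw [h1, vals]
  simp only [Multiset.insert_eq_cons, Multiset.map_cons, Multiset.sum_cons,
    Multiset.map_singleton, Multiset.sum_singleton, hR]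
  ring

end Exa

open Polynomial in
open Classical in
/-- Row K over the statements of rows F1 (`hilb_mon`) and F2 (`series_mon`) for `E0`. -/
theorem isH_E0_of (K : Type u) [Field K]
    (hilb_mon : ∀ j : ℕ, Module.finrank K (dpart (monIdeal K E0) j) =
      Nat.card {μ : Fin 9 →₀ ℕ // μ.degree = j ∧ ∀ e ∈ E0, ¬ e ≤ μ})
    (series_mon : ∀ C : Finset (Fin 9), (∀ v w, v ∉ C → w ∉ C → del v + del w ∉ E0) →
      (1 - PowerSeries.X) ^ 9 * PowerSeries.mk
        (fun j => ((Nat.card {μ : Fin 9 →₀ ℕ // μ.degree = j ∧ ∀ e ∈ E0, ¬ e ≤ μ} : ℕ) : ℤ))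
      = ((∑ T ∈ C.powerset.filter (fun T => ∀ v ∈ T, ∀ w ∈ T, v ≠ w → del v + del w ∉ E0),
          X ^ T.card * (1 - X) ^ ((C \ T).card + (T.filter (fun v => del v + del v ∈ E0)).card +
            (Finset.univ.filter (fun z => z ∉ C ∧ ∃ v ∈ T, del v + del z ∈ E0)).card) :
          Polynomial ℤ) : PowerSeries ℤ)) :
    Quadratic E0 ∧ IsH (monIdeal K E0) hR := by
  refine ⟨Exa.quad, ?_, 5, ?_⟩
  · simp [hR]
  · have hs := series_mon {0, 1, 2, 3} (by
      intro v w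
      rw [Exa.mem_E0]
      revert v w
      decide)
    have hh : hilb (monIdeal K E0) = PowerSeries.mk (fun j =>
        ((Nat.card {μ : Fin 9 →₀ ℕ // μ.degree = j ∧ ∀ e ∈ E0, ¬ e ≤ μ} : ℕ) : ℤ)) := by
      ext j
      simp [hilb, hilb_mon j]
    rw [hh]
    have hne : ((1 : PowerSeries ℤ) - PowerSeries.X) ^ 4 ≠ 0 := by
      apply pow_ne_zero
      intro h0
      have := congrArg (PowerSeries.coeff 0) h0
      simp at this
    apply mul_left_cancel₀ hne
    rw [← mul_assoc, ← pow_add]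
    refine Eq.trans hs ?_
    have hsum : (∑ T ∈ (Finset.powerset ({0, 1, 2, 3} : Finset (Fin 9))),
        (Polynomial.X : Polynomial ℤ) ^ T.card * (1 - Polynomial.X) ^ (Exa.expo T)) =
        (1 - Polynomial.X) ^ 4 * hR := Exa.sum_val
    have hc : (((1 - Polynomial.X) ^ 4 * hR : Polynomial ℤ) : PowerSeries ℤ) =
        ((1 : PowerSeries ℤ) - PowerSeries.X) ^ 4 * ((hR : Polynomial ℤ) : PowerSeries ℤ) := by
      simp
    rw [← hc, ← hsum]
    refine congrArg (fun p : Polynomial ℤ => (p : PowerSeries ℤ)) ?_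
    rw [Finset.filter_true_of_mem]
    · apply Finset.sum_congr rfl
      intro T _
      refine congrArg (fun k : ℕ => (Polynomial.X : Polynomial ℤ) ^ T.card *
        (1 - Polynomial.X) ^ k) ?_
      simp only [Exa.expo, Exa.mem_E0]
    · intro T hT v hv w hw hvw
      rw [Exa.mem_E0]
      have h1 := Finset.mem_powerset.1 hT hv
      have h2 := Finset.mem_powerset.1 hT hw
      clear hT hv hw
      revert v w
      decide

end Pool.Agent.KosQ2
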