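import Pool.Agent.KosQ2.Defs2

/-!
# A Koszul filtration gives a linear resolution
-/

set_option autoImplicit false

namespace Pool.Agent.KosQ2

universe u

variable {R : Type u} [CommRing R]

/-- Append a zero. -/
def snocZ (R : Type u) [CommRing R] (n : ℕ) : (Fin n → R) →ₗ[R] (Fin (n + 1) → R) where
  toFun v := Fin.snoc v 0
  map_add' v w := by
    funext i
    refine Fin.lastCases ?_ (fun j => ?_) i
    · simp
    · simp
  map_smul' a v := by
    funext i
    refine Fin.lastCases ?_ (fun j => ?_) i
    · simp
    · simp

/-- Submodules of `R^n` all of whose successive last coordinates form members of `F`. -/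
inductive Good (p1 : R →+ R) (F : Set (Ideal R)) : ∀ {n : ℕ}, Submodule R (Fin n → R) → Prop
  | nil (N : Submodule R (Fin 0 → R)) : Good p1 F N
  | snoc {n : ℕ} (N : Submodule R (Fin (n + 1) → R))
      (h1 : Good p1 F (N.comap (snocZ R n)))
      (h2 : N.map (LinearMap.proj (Fin.last n)) ∈ F)
      (h3 : ∀ v ∈ N, (fun i => p1 (v i)) ∈ N) : Good p1 F N

/-- Append a column. -/
def addCol {n m : ℕ} (M : Matrix (Fin n) (Fin m) R) (w : Fin n → R) :
    Matrix (Fin n) (Fin (m + 1)) R :=
  fun i => Fin.snoc (M i) (w i)

theorem addCol_mulVec {n m : ℕ} (M : Matrix (Fin n) (Fin m) R) (w : Fin n → R)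
    (s : Fin (m + 1) → R) :
    (addCol M w).mulVec s = M.mulVec (fun j => s j.castSucc) + s (Fin.last m) • w := by
  funext i
  simp only [Matrix.mulVec, dotProduct, addCol, Pi.add_apply, Pi.smul_apply, smul_eq_mul]
  rw [Fin.sum_univ_castSucc]
  simp [mul_comm]

/-- Append a zero row. -/
def addRow {n m : ℕ} (M : Matrix (Fin n) (Fin m) R) : Matrix (Fin (n + 1)) (Fin m) R :=
  fun i j => (Fin.snoc (fun i' => M i' j) 0 : Fin (n + 1) → R) i

theorem addRow_mulVec {n m : ℕ} (M : Matrix (Fin n) (Fin m) R) (s : Fin m → R) :
    (addRow M).mulVec s = snocZ R n (M.mulVec s) := by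
  funext i
  refine Fin.lastCases ?_ (fun j => ?_) i
  · simp [Matrix.mulVec, dotProduct, addRow, snocZ]
  · simp [Matrix.mulVec, dotProduct, addRow, snocZ]

theorem Good.matrix {L : Set R} {p1 p2 : R →+ R}
    (h0 : (0 : R) ∈ L) (hp1L : ∀ r, p1 r ∈ L) (hp1 : ∀ l ∈ L, p1 l = l)
    (hp2 : ∀ l ∈ L, ∀ s, p2 (l * s) = l * p1 s)
    {F : Set (Ideal R)} (hF : ∀ J ∈ F, KI L F J) {n : ℕ} {N : Submodule R (Fin n → R)}
    (hN : Good p1 F N) :
    ∃ (m : ℕ) (M : Matrix (Fin n) (Fin m) R), (∀ i j, M i j ∈ L) ∧
      (∀ v, v ∈ N ↔ ∃ w, M.mulVec w = v) ∧ Good p1 F (LinearMap.ker M.mulVecLin) := by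
  have hclosed : ∀ {a b : ℕ} (M : Matrix (Fin a) (Fin b) R), (∀ i j, M i j ∈ L) →
      ∀ s ∈ LinearMap.ker M.mulVecLin, (fun i => p1 (s i)) ∈ LinearMap.ker M.mulVecLin := by
    intro a b M hM s hs
    rw [LinearMap.mem_ker] at hs ⊢
    funext i
    have h1 : M.mulVecLin s i = 0 := by rw [hs]; rfl
    simp only [Matrix.mulVecLin_apply, Matrix.mulVec, dotProduct, Pi.zero_apply] at h1 ⊢
    have h2 : ∑ j, M i j * p1 (s j) = p2 (∑ j, M i j * s j) := by
      rw [map_sum]
      exact Finset.sum_congr rfl (fun j _ => (hp2 _ (hM i j) _).symm)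
    rw [h2, h1, map_zero]
  induction hN with
  | nil N =>
    refine ⟨0, fun i => i.elim0, fun i => i.elim0, fun v => ?_, Good.nil _⟩
    constructor
    · intro _
      exact ⟨0, Subsingleton.elim _ _⟩
    · intro _
      have h1 : v = 0 := Subsingleton.elim _ _
      rw [h1]
      exact N.zero_mem
  | @snoc n N h1 h2 h3 ih =>
    obtain ⟨m', M', hL', hr', hk'⟩ := ih
    have key : ∀ J : Ideal R, KI L F J → J ≤ N.map (LinearMap.proj (Fin.last n)) →
        ∃ (m : ℕ) (M : Matrix (Fin (n + 1)) (Fin m) R), (∀ i j, M i j ∈ L) ∧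
          (∀ v, (v ∈ N ∧ v (Fin.last n) ∈ J) ↔ ∃ w, M.mulVec w = v) ∧
          Good p1 F (LinearMap.ker M.mulVecLin) := by
      intro J hJ
      induction hJ with
      | bot =>
        intro _
        refine ⟨m', addRow M', ?_, ?_, ?_⟩
        · intro i j
          refine Fin.lastCases ?_ (fun i' => ?_) i
          · simpa [addRow] using h0
          · simpa [addRow] using hL' i' j
        · intro v
          constructor
          · rintro ⟨hv, hv0⟩
            rw [Ideal.mem_bot] at hv0
            have hv1 : snocZ R n (fun i => v i.castSucc) = v := by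
              funext i
              refine Fin.lastCases ?_ (fun j => ?_) i
              · simp [snocZ, hv0]
              · simp [snocZ]
            have hv2 : (fun i : Fin n => v i.castSucc) ∈ N.comap (snocZ R n) := by
              rw [Submodule.mem_comap, hv1]
              exact hv
            obtain ⟨w, hw⟩ := (hr' _).1 hv2
            exact ⟨w, by rw [addRow_mulVec, hw, hv1]⟩
          · rintro ⟨w, hw⟩
            rw [addRow_mulVec] at hw
            have h4 : M'.mulVec w ∈ N.comap (snocZ R n) := (hr' _).2 ⟨w, rfl⟩
            rw [Submodule.mem_comap, hw] at h4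
            refine ⟨h4, ?_⟩
            rw [← hw]
            simp [snocZ]
        · have h5 : LinearMap.ker (addRow M').mulVecLin = LinearMap.ker M'.mulVecLin := by
            ext s
            simp only [LinearMap.mem_ker, Matrix.mulVecLin_apply, addRow_mulVec]
            constructor
            · intro h
              funext i
              have h6 := congrFun h i.castSucc
              simpa [snocZ] using h6
            · intro h
              rw [h, map_zero]
          rw [h5]
          exact hk'
      | step J J' l _ hl hJ'F hcol ihJ =>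
        intro hle
        have hleJ : J ≤ N.map (LinearMap.proj (Fin.last n)) := le_trans le_sup_left hle
        obtain ⟨m, M, hML, hMr, hMk⟩ := ihJ hleJ
        have hlmem : l ∈ N.map (LinearMap.proj (Fin.last n)) :=
          hle (Ideal.mem_sup_right (Ideal.mem_span_singleton_self l))
        obtain ⟨w0, hw0, hw0l⟩ := hlmem
        have hw0l' : w0 (Fin.last n) = l := hw0l
        set w : Fin (n + 1) → R := fun i => p1 (w0 i) with hwdef
        have hwN : w ∈ N := h3 w0 hw0
        have hwl : w (Fin.last n) = l := by
          simp only [hwdef]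
          rw [hw0l', hp1 l hl]
        have hnewL : ∀ i j, addCol M w i j ∈ L := by
          intro i j
          refine Fin.lastCases ?_ (fun j' => ?_) j
          · simpa [addCol] using hp1L (w0 i)
          · simpa [addCol] using hML i j'
        refine ⟨m + 1, addCol M w, hnewL, ?_, ?_⟩
        · intro v
          constructor
          · rintro ⟨hv, hvJ⟩
            rw [Submodule.mem_sup] at hvJ
            obtain ⟨j, hj, y, hy, hjy⟩ := hvJ
            rw [Ideal.mem_span_singleton'] at hy
            obtain ⟨t, rfl⟩ := hy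
            have h6 : v - t • w ∈ N := N.sub_mem hv (N.smul_mem t hwN)
            have h7 : (v - t • w) (Fin.last n) ∈ J := by
              have h8 : (v - t • w) (Fin.last n) = j := by
                simp only [Pi.sub_apply, Pi.smul_apply, smul_eq_mul, hwl]
                rw [← hjy]
                ring
              rw [h8]
              exact hj
            obtain ⟨s, hs⟩ := (hMr _).1 ⟨h6, h7⟩
            refine ⟨Fin.snoc s t, ?_⟩
            rw [addCol_mulVec]
            have h9 : (fun j : Fin m => (Fin.snoc s t : Fin (m + 1) → R) j.castSucc) = s := by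
              funext j
              simp
            rw [h9, hs]
            simp
          · rintro ⟨s, hs⟩
            rw [addCol_mulVec] at hs
            have h6 := (hMr _).2 ⟨fun j => s j.castSucc, rfl⟩
            rw [← hs]
            refine ⟨N.add_mem h6.1 (N.smul_mem _ hwN), ?_⟩
            rw [Pi.add_apply, Pi.smul_apply, hwl, smul_eq_mul]
            exact Submodule.add_mem_sup h6.2
              (Ideal.mul_mem_left _ _ (Ideal.mem_span_singleton_self l))
        · have hker' : (LinearMap.ker (addCol M w).mulVecLin).comap (snocZ R m) =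
              LinearMap.ker M.mulVecLin := by
            ext s
            simp only [Submodule.mem_comap, LinearMap.mem_ker, Matrix.mulVecLin_apply,
              addCol_mulVec]
            have h9 : (fun j : Fin m => (snocZ R m s) j.castSucc) = s := by
              funext j
              simp [snocZ]
            have h10 : (snocZ R m s) (Fin.last m) = 0 := by simp [snocZ]
            rw [h9, h10, zero_smul, add_zero]
          have hlast : (LinearMap.ker (addCol M w).mulVecLin).map
              (LinearMap.proj (Fin.last m)) = J' := by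
            ext t
            rw [Submodule.mem_map]
            constructor
            · rintro ⟨s, hs, hst⟩
              have hst' : s (Fin.last m) = t := hst
              rw [LinearMap.mem_ker, Matrix.mulVecLin_apply, addCol_mulVec, hst'] at hs
              have h6 := (hMr _).2 ⟨fun j => s j.castSucc, rfl⟩
              rw [← hcol t]
              have h11 := congrFun hs (Fin.last n)
              rw [Pi.add_apply, Pi.smul_apply, hwl, smul_eq_mul, Pi.zero_apply] at h11
              have h12 : t * l = -(M.mulVec (fun j => s j.castSucc)) (Fin.last n) :=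
                eq_neg_of_add_eq_zero_right h11
              rw [h12]
              exact J.neg_mem h6.2
            · intro ht
              have htl : t * l ∈ J := (hcol t).2 ht
              have h6 : -(t • w) ∈ N := N.neg_mem (N.smul_mem t hwN)
              have h7 : (-(t • w)) (Fin.last n) ∈ J := by
                rw [Pi.neg_apply, Pi.smul_apply, hwl, smul_eq_mul]
                exact J.neg_mem htl
              obtain ⟨s, hs⟩ := (hMr _).1 ⟨h6, h7⟩
              refine ⟨Fin.snoc s t, ?_, by simp⟩
              rw [LinearMap.mem_ker, Matrix.mulVecLin_apply, addCol_mulVec]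
              have h9 : (fun j : Fin m => (Fin.snoc s t : Fin (m + 1) → R) j.castSucc) = s := by
                funext j
                simp
              rw [h9, hs]
              simp
          refine Good.snoc _ ?_ ?_ (hclosed _ hnewL)
          · rw [hker']
            exact hMk
          · rw [hlast]
            exact hJ'F
    obtain ⟨m, M, hML, hMr, hMk⟩ := key _ (hF _ h2) le_rfl
    refine ⟨m, M, hML, fun v => ?_, hMk⟩
    rw [← hMr v]
    constructor
    · intro hv
      exact ⟨hv, Submodule.mem_map_of_mem hv⟩
    · exact fun hv => hv.1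

theorem res_of_filtration {R : Type u} [CommRing R] (L : Set R) (p1 p2 : R →+ R)
    (h0 : (0 : R) ∈ L) (hp1L : ∀ r, p1 r ∈ L) (hp1 : ∀ l ∈ L, p1 l = l)
    (hp2 : ∀ l ∈ L, ∀ s, p2 (l * s) = l * p1 s)
    (F : Set (Ideal R)) (hF : ∀ J ∈ F, KI L F J) (m : Ideal R) (hm : m ∈ F)
    (hmp : ∀ r ∈ m, p1 r ∈ m) :
    ∃ (b : ℕ → ℕ) (M : ∀ i : ℕ, Matrix (Fin (b i)) (Fin (b (i + 1))) R),
      b 0 = 1 ∧ (∀ i r c, M i r c ∈ L) ∧
      (∀ v : Fin (b 0) → R, (∃ w, Matrix.mulVec (M 0) w = v) ↔ ∀ r, v r ∈ m) ∧
      (∀ (i : ℕ) (v : Fin (b (i + 1)) → R),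
        Matrix.mulVec (M i) v = 0 ↔ ∃ w, Matrix.mulVec (M (i + 1)) w = v) := by
  classical
  let N0 : Submodule R (Fin 1 → R) := Submodule.pi Set.univ (fun _ => m)
  have hN0mem : ∀ v : Fin 1 → R, v ∈ N0 ↔ ∀ r, v r ∈ m := by
    intro v
    simp [N0, Submodule.mem_pi]
  have hN0 : Good p1 F N0 := by
    refine Good.snoc (n := 0) N0 (Good.nil _) ?_ ?_
    · have h1 : N0.map (LinearMap.proj (Fin.last 0)) = m := by
        ext t
        rw [Submodule.mem_map]
        constructor
        · rintro ⟨s, hs, hst⟩
          have hst' : s (Fin.last 0) = t := hst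
          rw [← hst']
          exact (hN0mem s).1 hs _
        · intro ht
          exact ⟨fun _ => t, (hN0mem _).2 (fun _ => ht), rfl⟩
      rw [h1]
      exact hm
    · intro v hv
      rw [hN0mem] at hv ⊢
      exact fun r => hmp _ (hv r)
  have hmat : ∀ s : (Σ n : ℕ, {N : Submodule R (Fin n → R) // Good p1 F N}),
      ∃ (m : ℕ) (M : Matrix (Fin s.1) (Fin m) R), (∀ i j, M i j ∈ L) ∧
      (∀ v, v ∈ s.2.1 ↔ ∃ w, M.mulVec w = v) ∧ Good p1 F (LinearMap.ker M.mulVecLin) :=
    fun s => Good.matrix h0 hp1L hp1 hp2 hF s.2.2
  choose mm MM hML hMr hMk using hmat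
  let state : ℕ → (Σ n : ℕ, {N : Submodule R (Fin n → R) // Good p1 F N}) := fun i =>
    Nat.rec ⟨1, N0, hN0⟩ (fun _ s => ⟨mm s, LinearMap.ker (MM s).mulVecLin, hMk s⟩) i
  refine ⟨fun i => (state i).1, fun i => MM (state i), rfl, fun i => hML (state i), ?_, ?_⟩
  · intro v
    exact (hMr (state 0) v).symm.trans (hN0mem v)
  · intro i v
    exact Iff.trans Iff.rfl (hMr (state (i + 1)) v)

end Pool.Agent.KosQ2
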