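import Pool.Agent.KosQ2.Mon

/-!
# The ideal of a normal form system
-/

set_option autoImplicit false

namespace Pool.Agent.KosQ2

open MvPolynomial

universe u

namespace NF

variable {n : ℕ} (N : NF n) (K : Type u) [Field K]

theorem phi_monomial (μ : Fin n →₀ ℕ) (a : K) :
    N.phi K (monomial μ a) = monomial (N.t μ) (((N.c μ : ℤ) : K) * a) := by
  have h1 : (monomial μ a : MvPolynomial (Fin n) K) = a • basisMonomials (Fin n) K μ := by
    rw [coe_basisMonomials, smul_monomial, smul_eq_mul, mul_one]
  rw [h1, map_smul, NF.phi, Module.Basis.constr_basis, smul_monomial, smul_eq_mul, mul_comm]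

/-- `phi` fixes the polynomials whose monomials are fixed. -/
theorem phi_fix (q : MvPolynomial (Fin n) K)
    (hq : ∀ μ ∈ q.support, N.c μ = 1 ∧ N.t μ = μ) : N.phi K q = q := by
  conv_lhs => rw [← support_sum_monomial_coeff q]
  rw [map_sum]
  conv_rhs => rw [← support_sum_monomial_coeff q]
  refine Finset.sum_congr rfl (fun μ hμ => ?_)
  obtain ⟨h1, h2⟩ := hq μ hμ
  rw [phi_monomial, h1, h2, Int.cast_one, one_mul]

theorem phi_phi (μ : Fin n →₀ ℕ) (a : K) :
    N.phi K (N.phi K (monomial μ a)) = N.phi K (monomial μ a) := by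
  rw [phi_monomial, phi_monomial]
  by_cases h : N.c μ = 0
  · simp [h]
  · obtain ⟨h1, h2⟩ := N.hidem μ h
    rw [h1, h2, Int.cast_one, one_mul]

theorem phi_X_mul (i : Fin n) (p : MvPolynomial (Fin n) K) :
    N.phi K (X i * p) = N.phi K (X i * N.phi K p) := by
  have key : (N.phi K) ∘ₗ (LinearMap.mulLeft K (X i)) =
      (N.phi K) ∘ₗ (LinearMap.mulLeft K (X i)) ∘ₗ (N.phi K) := by
    refine (basisMonomials (Fin n) K).ext (fun μ => ?_)
    simp only [coe_basisMonomials, LinearMap.comp_apply, LinearMap.mulLeft_apply]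
    have hx : ∀ (ν : Fin n →₀ ℕ) (b : K),
        (X i * monomial ν b : MvPolynomial (Fin n) K) = monomial (ν + del i) b := by
      intro ν b
      rw [X, monomial_mul, one_mul, add_comm]
    rw [phi_monomial, hx, hx, phi_monomial, phi_monomial]
    have hs := N.hstep μ i
    by_cases h : N.c (μ + del i) = 0
    · rw [h] at hs
      rw [h, ← mul_assoc, ← Int.cast_mul, mul_comm (N.c (N.t μ + del i)), ← hs]
      simp
    · rw [← N.tstep μ i h, ← mul_assoc, ← Int.cast_mul, mul_comm (N.c (N.t μ + del i)), ← hs]
  have := LinearMap.congr_fun key p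
  simpa only [LinearMap.comp_apply, LinearMap.mulLeft_apply] using this

theorem phi_mul_zero (q p : MvPolynomial (Fin n) K) (hp : N.phi K p = 0) :
    N.phi K (q * p) = 0 := by
  induction q using MvPolynomial.induction_on with
  | C a => rw [C_mul', map_smul, hp, smul_zero]
  | add q1 q2 h1 h2 => rw [add_mul, map_add, h1, h2, add_zero]
  | mul_X q i h =>
    rw [mul_comm q (X i), mul_assoc, phi_X_mul, h, mul_zero, map_zero]

/-- The ideal of the normal form system. -/
noncomputable def kerI : Ideal (MvPolynomial (Fin n) K) where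
  carrier := {p | N.phi K p = 0}
  add_mem' := by
    intro p q hp hq
    change N.phi K p = 0 at hp
    change N.phi K q = 0 at hq
    change N.phi K (p + q) = 0
    rw [map_add, hp, hq, add_zero]
  zero_mem' := by
    change N.phi K 0 = 0
    rw [map_zero]
  smul_mem' := by
    intro q p hp
    exact N.phi_mul_zero K q p hp

theorem mem_kerI (p : MvPolynomial (Fin n) K) : p ∈ N.kerI K ↔ N.phi K p = 0 := Iff.rfl

theorem phi_hom (j : ℕ) (p : MvPolynomial (Fin n) K) :
    N.phi K (homogeneousComponent j p) = homogeneousComponent j (N.phi K p) := by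
  have hm : ∀ (ν : Fin n →₀ ℕ) (b : K), homogeneousComponent j (monomial ν b) =
      if ν.degree = j then monomial ν b else 0 := by
    intro ν b
    by_cases h : ν.degree = j
    · rw [if_pos h]
      have h1 : (monomial ν b : MvPolynomial (Fin n) K).IsHomogeneous j :=
        isHomogeneous_monomial b h
      rw [homogeneousComponent_of_mem ((mem_homogeneousSubmodule _ _).2 h1), if_pos rfl]
    · rw [if_neg h]
      have h1 : (monomial ν b : MvPolynomial (Fin n) K).IsHomogeneous ν.degree :=
        isHomogeneous_monomial b rfl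
      rw [homogeneousComponent_of_mem ((mem_homogeneousSubmodule _ _).2 h1),
        if_neg (fun h2 => h h2.symm)]
  have key : (N.phi K) ∘ₗ (homogeneousComponent j) =
      (homogeneousComponent j) ∘ₗ (N.phi K) := by
    refine (basisMonomials (Fin n) K).ext (fun μ => ?_)
    simp only [coe_basisMonomials, LinearMap.comp_apply]
    rw [phi_monomial, hm, hm]
    by_cases h : N.c μ = 0
    · rw [h, Int.cast_zero, zero_mul, map_zero, ite_self]
      split_ifs
      · rw [phi_monomial, h, Int.cast_zero, zero_mul, map_zero]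
      · rw [map_zero]
    · rw [N.hdeg μ h]
      split_ifs
      · rw [phi_monomial]
      · rw [map_zero]
  have := LinearMap.congr_fun key p
  simpa only [LinearMap.comp_apply] using this

theorem homog_kerI : Homog (N.kerI K) := by
  intro p hp j
  rw [mem_kerI] at hp ⊢
  rw [phi_hom, hp, map_zero]

theorem X_mem_irr (i : Fin n) : (X i : MvPolynomial (Fin n) K) ∈ irr n K := by
  rw [irr, RingHom.mem_ker, constantCoeff_X]

theorem monomial_mem_irr_sq (μ : Fin n →₀ ℕ) (a : K) (h : 2 ≤ μ.degree) :
    (monomial μ a : MvPolynomial (Fin n) K) ∈ irr n K ^ 2 := by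
  have hd : ∀ ν : Fin n →₀ ℕ, 1 ≤ ν.degree → ∃ i, ∃ ν' : Fin n →₀ ℕ,
      ν = ν' + del i ∧ ν.degree = ν'.degree + 1 := by
    intro ν hν
    have h1 : ν ≠ 0 := by
      rintro rfl
      simp at hν
    obtain ⟨i, hi⟩ := Finsupp.ne_iff.1 h1
    have hle : del i ≤ ν := by
      rw [Finsupp.single_le_iff]
      exact Nat.one_le_iff_ne_zero.2 hi
    refine ⟨i, ν - del i, (tsub_add_cancel_of_le hle).symm, ?_⟩
    conv_lhs => rw [← tsub_add_cancel_of_le hle]
    rw [map_add, Finsupp.degree_single]
  obtain ⟨i, ν, h1, h2⟩ := hd μ (by omega)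
  obtain ⟨k, ρ, h3, h4⟩ := hd ν (by omega)
  have h5 : (monomial μ a : MvPolynomial (Fin n) K) = monomial ρ a * (X k * X i) := by
    rw [X, X, monomial_mul, monomial_mul, one_mul, mul_one, h1, h3, add_assoc]
  rw [h5, pow_two]
  exact Ideal.mul_mem_left _ _ (Ideal.mul_mem_mul (X_mem_irr K k) (X_mem_irr K i))

theorem kerI_le : N.kerI K ≤ irr n K ^ 2 := by
  intro p hp
  have hlow : ∀ j, j ≤ 1 → homogeneousComponent j p = 0 := by
    intro j hj
    have h1 : N.phi K (homogeneousComponent j p) = homogeneousComponent j p := by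
      apply phi_fix
      intro μ hμ
      apply N.hlow
      have h2 := homogeneousComponent_isHomogeneous j p
      have h3 : μ.degree = j := by
        by_contra hne
        rw [mem_support_iff, coeff_homogeneousComponent, if_neg hne] at hμ
        exact hμ rfl
      rw [h3]; exact hj
    have h2 := N.homog_kerI K p hp j
    rw [mem_kerI, h1] at h2
    exact h2
  have hc : ∀ μ : Fin n →₀ ℕ, μ ∈ p.support → 2 ≤ μ.degree := by
    intro μ hμ
    by_contra hlt
    have h1 := hlow μ.degree (by omega)
    have h2 : coeff μ (homogeneousComponent μ.degree p) = coeff μ p := by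
      rw [coeff_homogeneousComponent, if_pos rfl]
    rw [h1, coeff_zero] at h2
    exact (mem_support_iff.1 hμ) h2.symm
  rw [← support_sum_monomial_coeff p]
  exact Ideal.sum_mem _ (fun μ hμ => monomial_mem_irr_sq K μ _ (hc μ hμ))

theorem finrank_kerI (j : ℕ) : Module.finrank K (dpart (N.kerI K) j) =
    Nat.card {μ : Fin n →₀ ℕ // μ.degree = j ∧ N.Std μ} := by
  classical
  have hfin : {μ : Fin n →₀ ℕ | μ.degree = j ∧ N.Std μ}.Finite :=
    (degree_finite n j).subset (fun μ hμ => hμ.1)
  have key : Module.finrank K (Submodule.map (Ideal.Quotient.mkₐ K (N.kerI K)).toLinearMap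
      (homogeneousSubmodule (Fin n) K j)) = hfin.toFinset.card := by
    apply finrank_piece
    · intro u hu
      exact ((Set.Finite.mem_toFinset hfin).1 hu).1
    · intro u hu
      refine ⟨N.phi K (monomial u 1), ?_, ?_⟩
      · intro v hv
        rw [phi_monomial, Finset.mem_coe, mul_one] at hv
        have hne : N.c u ≠ 0 := by
          intro h0
          rw [h0, Int.cast_zero, map_zero, support_zero] at hv
          simp at hv
        have hv2 := Finset.mem_singleton.1 (support_monomial_subset hv)
        rw [Finset.mem_coe, Set.Finite.mem_toFinset, hv2]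
        exact ⟨(N.hdeg u hne).trans hu, N.hidem u hne⟩
      · rw [mem_kerI, map_sub, phi_phi, sub_self]
    · intro q hq hqI
      rw [mem_kerI] at hqI
      have h1 : N.phi K q = q := by
        apply phi_fix
        intro μ hμ
        exact ((Set.Finite.mem_toFinset hfin).1 (hq (Finset.mem_coe.2 hμ))).2
      rw [← h1, hqI]
  rw [dpart, key]
  exact (Nat.card_eq_card_finite_toFinset hfin).symm

theorem exists_ideal {n : ℕ} (N : NF n) (K : Type u) [Field K] :
    ∃ I : Ideal (MvPolynomial (Fin n) K), (∀ p, p ∈ I ↔ N.phi K p = 0) ∧ Homog I ∧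
      I ≤ irr n K ^ 2 ∧
      ∀ j, Module.finrank K (dpart I j) = Nat.card {μ : Fin n →₀ ℕ // μ.degree = j ∧ N.Std μ} :=
  ⟨N.kerI K, N.mem_kerI K, N.homog_kerI K, N.kerI_le K, N.finrank_kerI K⟩

end NF

end Pool.Agent.KosQ2
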