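import Pool.Agent.KosQ2.Filt

/-!
# A combinatorial Koszul filtration of a normal form system gives Koszulness
-/

set_option autoImplicit false

namespace Pool.Agent.KosQ2

universe u

namespace NFK

variable {n : ℕ} (N : NF n) (K : Type u) [Field K]

theorem phi_monomial (μ : Fin n →₀ ℕ) (a : K) :
    N.phi K (MvPolynomial.monomial μ a) = MvPolynomial.monomial (N.t μ) (a * ((N.c μ : ℤ) : K)) := by
  have h1 : (MvPolynomial.monomial μ a : MvPolynomial (Fin n) K) =
      a • MvPolynomial.basisMonomials (Fin n) K μ := by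
    rw [MvPolynomial.coe_basisMonomials, MvPolynomial.smul_monomial, smul_eq_mul, mul_one]
  rw [h1, map_smul, NF.phi, Module.Basis.constr_basis, MvPolynomial.smul_monomial, smul_eq_mul]

theorem phi_sum (p : MvPolynomial (Fin n) K) :
    N.phi K p = ∑ μ ∈ p.support,
      MvPolynomial.monomial (N.t μ) (MvPolynomial.coeff μ p * ((N.c μ : ℤ) : K)) := by
  conv_lhs => rw [p.as_sum]
  rw [map_sum]
  exact Finset.sum_congr rfl (fun μ _ => phi_monomial N K μ _)

theorem phi_mul_sum (i : Fin n) (p : MvPolynomial (Fin n) K) :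
    N.phi K (MvPolynomial.X i * p) = ∑ μ ∈ p.support,
      MvPolynomial.monomial (N.t (μ + del i))
        (MvPolynomial.coeff μ p * ((N.c (μ + del i) : ℤ) : K)) := by
  conv_lhs => rw [p.as_sum]
  rw [Finset.mul_sum, map_sum]
  refine Finset.sum_congr rfl (fun μ _ => ?_)
  rw [← phi_monomial]
  congr 1
  rw [MvPolynomial.X, MvPolynomial.monomial_mul, one_mul, add_comm]

theorem phi_X_mul (i : Fin n) (p : MvPolynomial (Fin n) K) :
    N.phi K (MvPolynomial.X i * p) = N.phi K (MvPolynomial.X i * N.phi K p) := by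
  induction p using MvPolynomial.induction_on' with
  | monomial μ a =>
    rw [phi_monomial, MvPolynomial.X, MvPolynomial.monomial_mul, MvPolynomial.monomial_mul,
      phi_monomial, phi_monomial, one_mul, one_mul]
    rw [add_comm (Finsupp.single i 1) μ, add_comm (Finsupp.single i 1) (N.t μ)]
    by_cases h : N.c (μ + del i) = 0
    · have h1 := N.hstep μ i
      rw [h] at h1
      rw [h, mul_assoc, ← Int.cast_mul, ← h1]
      simp
    · rw [N.tstep μ i h, N.hstep μ i, Int.cast_mul, mul_assoc]
  | add p q hp hq =>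
    rw [mul_add, map_add, hp, hq, map_add, mul_add, map_add]

theorem phi_phi (p : MvPolynomial (Fin n) K) : N.phi K (N.phi K p) = N.phi K p := by
  induction p using MvPolynomial.induction_on' with
  | monomial μ a =>
    rw [phi_monomial, phi_monomial]
    by_cases h : N.c μ = 0
    · rw [h]
      simp
    · rw [(N.hidem μ h).1, (N.hidem μ h).2]
      simp
  | add p q hp hq => rw [map_add, map_add, hp, hq]

theorem std_of_coeff (p : MvPolynomial (Fin n) K) (μ : Fin n →₀ ℕ)
    (h : MvPolynomial.coeff μ (N.phi K p) ≠ 0) : N.Std μ := by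
  rw [phi_sum, MvPolynomial.coeff_sum] at h
  obtain ⟨ν, _, hν⟩ := Finset.exists_ne_zero_of_sum_ne_zero h
  rw [MvPolynomial.coeff_monomial] at hν
  split_ifs at hν with h1
  · have h2 : N.c ν ≠ 0 := by
      intro h3
      rw [h3] at hν
      simp at hν
    rw [← h1]
    exact N.hidem ν h2
  · exact absurd rfl hν

theorem phi_std (μ : Fin n →₀ ℕ) (h : N.Std μ) (a : K) :
    N.phi K (MvPolynomial.monomial μ a) = MvPolynomial.monomial μ a := by
  rw [phi_monomial, h.1, h.2]
  simp

theorem coeff_zero_phi (p : MvPolynomial (Fin n) K) :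
    MvPolynomial.coeff 0 (N.phi K p) = MvPolynomial.coeff 0 p := by
  induction p using MvPolynomial.induction_on' with
  | monomial μ a =>
    rw [phi_monomial, MvPolynomial.coeff_monomial, MvPolynomial.coeff_monomial]
    by_cases h : μ = 0
    · subst h
      have h1 := N.hlow 0 (by simp)
      rw [h1.1, h1.2]
      simp
    · rw [if_neg h]
      by_cases hc : N.c μ = 0
      · rw [hc]
        simp
      · rw [if_neg]
        intro h2
        have h3 := N.hdeg μ hc
        rw [h2, map_zero] at h3
        exact h ((Finsupp.degree_eq_zero_iff μ).1 h3.symm)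
  | add p q hp hq => rw [map_add, MvPolynomial.coeff_add, hp, hq, MvPolynomial.coeff_add]

theorem hc_phi (j : ℕ) (p : MvPolynomial (Fin n) K) :
    MvPolynomial.homogeneousComponent j (N.phi K p) =
      N.phi K (MvPolynomial.homogeneousComponent j p) := by
  induction p using MvPolynomial.induction_on' with
  | monomial μ a =>
    rw [phi_monomial]
    by_cases hc : N.c μ = 0
    · rw [hc]
      rw [MvPolynomial.homogeneousComponent_of_mem
        (show MvPolynomial.monomial μ a ∈ MvPolynomial.homogeneousSubmodule (Fin n) K μ.degree from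
          MvPolynomial.isHomogeneous_monomial a rfl)]
      split_ifs
      · rw [phi_monomial, hc]
        simp
      · simp
    · rw [MvPolynomial.homogeneousComponent_of_mem
        (show MvPolynomial.monomial μ a ∈ MvPolynomial.homogeneousSubmodule (Fin n) K μ.degree from
          MvPolynomial.isHomogeneous_monomial a rfl)]
      rw [MvPolynomial.homogeneousComponent_of_mem
        (show MvPolynomial.monomial (N.t μ) (a * ((N.c μ : ℤ) : K)) ∈
          MvPolynomial.homogeneousSubmodule (Fin n) K μ.degree from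
          MvPolynomial.isHomogeneous_monomial _ (N.hdeg μ hc))]
      split_ifs
      · rw [phi_monomial]
      · simp
  | add p q hp hq => rw [map_add, map_add, hp, hq, map_add, map_add]

theorem hc_mul {p q : MvPolynomial (Fin n) K} {k j : ℕ}
    (hp : p ∈ MvPolynomial.homogeneousSubmodule (Fin n) K k) :
    MvPolynomial.homogeneousComponent (k + j) (p * q) =
      p * MvPolynomial.homogeneousComponent j q := by
  conv_lhs => rw [← MvPolynomial.sum_homogeneousComponent q]
  rw [Finset.mul_sum, map_sum]
  have h1 : ∀ i, MvPolynomial.homogeneousComponent (k + j)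
      (p * MvPolynomial.homogeneousComponent i q) =
      if i = j then p * MvPolynomial.homogeneousComponent j q else 0 := by
    intro i
    have h2 : p * MvPolynomial.homogeneousComponent i q ∈
        MvPolynomial.homogeneousSubmodule (Fin n) K (k + i) :=
      MvPolynomial.IsHomogeneous.mul hp (MvPolynomial.homogeneousComponent_isHomogeneous i q)
    rw [MvPolynomial.homogeneousComponent_of_mem h2]
    by_cases h3 : i = j
    · subst h3
      simp
    · have h4 : ¬ (k + j = k + i) := fun h => h3 (Nat.add_left_cancel h).symm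
      rw [if_neg h3, if_neg h4]
  rw [Finset.sum_congr rfl (fun i _ => h1 i)]
  rw [Finset.sum_ite_eq' (Finset.range (q.totalDegree + 1)) j
    (fun _ => p * MvPolynomial.homogeneousComponent j q)]
  split_ifs with h3
  · rfl
  · rw [Finset.mem_range, not_lt] at h3
    rw [MvPolynomial.homogeneousComponent_eq_zero _ _ (by omega), mul_zero]

variable {N K}
variable {I : Ideal (MvPolynomial (Fin n) K)} (hI : ∀ p, p ∈ I ↔ N.phi K p = 0)

include hI

theorem mk_eq_iff (p q : MvPolynomial (Fin n) K) :
    Ideal.Quotient.mk I p = Ideal.Quotient.mk I q ↔ N.phi K p = N.phi K q := by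
  rw [Ideal.Quotient.eq, hI, map_sub, sub_eq_zero]

theorem mk_phi (p : MvPolynomial (Fin n) K) :
    Ideal.Quotient.mk I (N.phi K p) = Ideal.Quotient.mk I p := by
  rw [mk_eq_iff hI, phi_phi]

theorem exists_nf : ∃ f : (MvPolynomial (Fin n) K ⧸ I) →+ MvPolynomial (Fin n) K,
    ∀ p, f (Ideal.Quotient.mk I p) = N.phi K p := by
  have h1 : ∀ r : MvPolynomial (Fin n) K ⧸ I, ∃ q, ∀ p, Ideal.Quotient.mk I p = r →
      N.phi K p = q := by
    intro r
    obtain ⟨p0, hp0⟩ := Ideal.Quotient.mk_surjective r
    refine ⟨N.phi K p0, fun p hp => ?_⟩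
    rw [← mk_eq_iff hI, hp, hp0]
  choose f hf using h1
  refine ⟨⟨⟨f, (hf 0 0 (map_zero _)).symm.trans (map_zero _)⟩, fun r s => ?_⟩, fun p => ?_⟩
  · obtain ⟨p, hp⟩ := Ideal.Quotient.mk_surjective r
    obtain ⟨q, hq⟩ := Ideal.Quotient.mk_surjective s
    show f (r + s) = f r + f s
    rw [← hf r p hp, ← hf s q hq, ← map_add]
    exact (hf (r + s) (p + q) (by rw [map_add, hp, hq])).symm
  · exact (hf _ p rfl).symm

/-- The ideal of the classes whose normal form is supported in `X`. -/
theorem exists_J (X : Set (Fin n →₀ ℕ)) (hX : N.Stable X) :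
    ∃ J : Ideal (MvPolynomial (Fin n) K ⧸ I), ∀ p, Ideal.Quotient.mk I p ∈ J ↔
      ∀ μ, μ ∉ X → MvPolynomial.coeff μ (N.phi K p) = 0 := by
  obtain ⟨f, hf⟩ := exists_nf hI
  refine ⟨{ carrier := {r | ∀ μ, μ ∉ X → MvPolynomial.coeff μ (f r) = 0}, add_mem' := ?_,
            zero_mem' := ?_, smul_mem' := ?_ }, fun p => ?_⟩
  · intro r s hr hs μ hμ
    rw [map_add, MvPolynomial.coeff_add, hr μ hμ, hs μ hμ, add_zero]
  · intro μ _
    rw [map_zero, MvPolynomial.coeff_zero]
  · intro s r hr
    obtain ⟨q, rfl⟩ := Ideal.Quotient.mk_surjective s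
    have hX1 : ∀ (i : Fin n) (r : MvPolynomial (Fin n) K ⧸ I),
        (∀ μ, μ ∉ X → MvPolynomial.coeff μ (f r) = 0) →
        ∀ μ, μ ∉ X →
          MvPolynomial.coeff μ (f (Ideal.Quotient.mk I (MvPolynomial.X i) * r)) = 0 := by
      intro i r hr μ hμ
      obtain ⟨p, rfl⟩ := Ideal.Quotient.mk_surjective r
      rw [hf] at hr
      rw [← map_mul, hf, phi_X_mul, phi_mul_sum, MvPolynomial.coeff_sum]
      refine Finset.sum_eq_zero (fun ν hν => ?_)
      rw [MvPolynomial.coeff_monomial]
      split_ifs with h1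
      · have h2 : MvPolynomial.coeff ν (N.phi K p) ≠ 0 := MvPolynomial.mem_support_iff.1 hν
        have h3 : N.Std ν := std_of_coeff N K p ν h2
        have h4 : ν ∈ X := by
          by_contra h5
          exact h2 (hr ν h5)
        by_cases h5 : N.c (ν + del i) = 0
        · rw [h5]
          simp
        · exact absurd (h1 ▸ hX ν h4 h3 i h5) hμ
      · rfl
    show ∀ μ, μ ∉ X → MvPolynomial.coeff μ (f (Ideal.Quotient.mk I q * r)) = 0
    induction q using MvPolynomial.induction_on generalizing r with
    | C a =>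
      intro μ hμ
      obtain ⟨p, rfl⟩ := Ideal.Quotient.mk_surjective r
      have h1 := hr μ hμ
      rw [hf] at h1
      rw [← map_mul, hf, ← MvPolynomial.smul_eq_C_mul, map_smul, MvPolynomial.coeff_smul, h1,
        smul_zero]
    | add p q hp hq =>
      intro μ hμ
      rw [map_add, add_mul, map_add, MvPolynomial.coeff_add, hp hr μ hμ, hq hr μ hμ, add_zero]
    | mul_X p i hp =>
      intro μ hμ
      rw [map_mul (Ideal.Quotient.mk I), mul_assoc]
      exact hp (hX1 i r hr) μ hμ
  · show (∀ μ, μ ∉ X → MvPolynomial.coeff μ (f (Ideal.Quotient.mk I p)) = 0) ↔ _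
    rw [hf]

theorem exists_p (j : ℕ) : ∃ f : (MvPolynomial (Fin n) K ⧸ I) →+ (MvPolynomial (Fin n) K ⧸ I),
    ∀ p, f (Ideal.Quotient.mk I p) =
      Ideal.Quotient.mk I (MvPolynomial.homogeneousComponent j p) := by
  obtain ⟨f, hf⟩ := exists_nf hI
  refine ⟨((Ideal.Quotient.mk I : MvPolynomial (Fin n) K →+* _).toAddMonoidHom.comp
    (MvPolynomial.homogeneousComponent j : MvPolynomial (Fin n) K →ₗ[K] _).toAddMonoidHom).comp f,
    fun p => ?_⟩
  show Ideal.Quotient.mk I (MvPolynomial.homogeneousComponent j (f (Ideal.Quotient.mk I p))) = _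
  rw [hf, hc_phi, mk_phi hI]

/-- The two statements of one step. -/
theorem step_J {X Y Z : Set (Fin n →₀ ℕ)} {i : Fin n} (hs : N.Step X Y Z i)
    {JX JY JZ : Ideal (MvPolynomial (Fin n) K ⧸ I)}
    (hX : ∀ p, Ideal.Quotient.mk I p ∈ JX ↔
      ∀ μ, μ ∉ X → MvPolynomial.coeff μ (N.phi K p) = 0)
    (hY : ∀ p, Ideal.Quotient.mk I p ∈ JY ↔
      ∀ μ, μ ∉ Y → MvPolynomial.coeff μ (N.phi K p) = 0)
    (hZ : ∀ p, Ideal.Quotient.mk I p ∈ JZ ↔
      ∀ μ, μ ∉ Z → MvPolynomial.coeff μ (N.phi K p) = 0) :
    JX = JY ⊔ Ideal.span {Ideal.Quotient.mk I (MvPolynomial.X i)} ∧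
      ∀ t, t * Ideal.Quotient.mk I (MvPolynomial.X i) ∈ JY ↔ t ∈ JZ := by
  constructor
  · apply le_antisymm
    · intro r hr
      obtain ⟨p, rfl⟩ := Ideal.Quotient.mk_surjective r
      rw [hX] at hr
      rw [← mk_phi hI p, (N.phi K p).as_sum, map_sum]
      refine Ideal.sum_mem _ (fun μ hμ => ?_)
      have h2 : MvPolynomial.coeff μ (N.phi K p) ≠ 0 := MvPolynomial.mem_support_iff.1 hμ
      have h3 : N.Std μ := std_of_coeff N K p μ h2
      have h4 : μ ∈ X := by
        by_contra h5
        exact h2 (hr μ h5)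
      generalize MvPolynomial.coeff μ (N.phi K p) = a
      rcases hs.gen μ h4 h3 with h5 | ⟨ν, hν, hc, ht⟩
      · refine Ideal.mem_sup_left ?_
        rw [hY]
        intro ν hν
        rw [phi_std N K μ h3, MvPolynomial.coeff_monomial, if_neg]
        intro h6
        rw [h6] at h5
        exact hν h5
      · refine Ideal.mem_sup_right ?_
        rw [Ideal.mem_span_singleton']
        refine ⟨Ideal.Quotient.mk I (MvPolynomial.monomial ν (a * ((N.c (ν + del i) : ℤ) : K))), ?_⟩
        rw [← map_mul, mk_eq_iff hI, phi_std N K μ h3, MvPolynomial.X, MvPolynomial.monomial_mul,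
          mul_one, phi_monomial, ht]
        have h6 : (((N.c (ν + del i) : ℤ) : K)) * (((N.c (ν + del i) : ℤ) : K)) = 1 := by
          rcases N.hunit (ν + del i) with h | h | h
          · exact absurd h hc
          · rw [h]
            simp
          · rw [h]
            simp
        rw [mul_assoc, h6, mul_one]
    · apply sup_le
      · intro r hr
        obtain ⟨p, rfl⟩ := Ideal.Quotient.mk_surjective r
        rw [hY] at hr
        rw [hX]
        exact fun μ hμ => hr μ (fun h => hμ (hs.sub μ h))
      · rw [Ideal.span_singleton_le_iff_mem, hX]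
        intro μ hμ
        rw [MvPolynomial.X, phi_monomial]
        have h1 := N.hlow (del i) (by simp [del, Finsupp.degree_single])
        rw [h1.1, h1.2, MvPolynomial.coeff_monomial, if_neg]
        intro h2
        exact hμ (h2 ▸ hs.mem)
  · intro t
    obtain ⟨p, rfl⟩ := Ideal.Quotient.mk_surjective t
    rw [← map_mul, hY, hZ, mul_comm p, phi_X_mul, phi_mul_sum]
    constructor
    · intro h ν hν
      by_contra ha
      have h3 : N.Std ν := std_of_coeff N K p ν ha
      obtain ⟨hc, hnY⟩ := hs.z2 ν hν h3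
      have h4 := h _ hnY
      rw [MvPolynomial.coeff_sum, Finset.sum_eq_single ν] at h4
      · rw [MvPolynomial.coeff_monomial, if_pos rfl] at h4
        rcases mul_eq_zero.1 h4 with h5 | h5
        · exact ha h5
        · rcases N.hunit (ν + del i) with h6 | h6 | h6
          · exact hc h6
          · rw [h6] at h5
            simp at h5
          · rw [h6] at h5
            simp at h5
      · intro ν' hν' hne
        have h5 : MvPolynomial.coeff ν' (N.phi K p) ≠ 0 := MvPolynomial.mem_support_iff.1 hν'
        have h6 : N.Std ν' := std_of_coeff N K p ν' h5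
        rw [MvPolynomial.coeff_monomial]
        split_ifs with h7
        · by_cases h8 : N.c (ν' + del i) = 0
          · rw [h8]
            simp
          · by_cases h9 : ν' ∈ Z
            · exact absurd (h7 ▸ hs.z1 ν' h9 h6 h8) hnY
            · exact absurd (hs.z3 ν' ν h9 hν h6 h3 h7) hne
        · rfl
      · intro h5
        exact absurd (MvPolynomial.mem_support_iff.2 ha) h5
    · intro h μ hμ
      rw [MvPolynomial.coeff_sum]
      refine Finset.sum_eq_zero (fun ν hν => ?_)
      have h2 : MvPolynomial.coeff ν (N.phi K p) ≠ 0 := MvPolynomial.mem_support_iff.1 hν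
      have h3 : N.Std ν := std_of_coeff N K p ν h2
      have h4 : ν ∈ Z := by
        by_contra h5
        exact h2 (h ν h5)
      rw [MvPolynomial.coeff_monomial]
      split_ifs with h1
      · by_cases h5 : N.c (ν + del i) = 0
        · rw [h5]
          simp
        · exact absurd (h1 ▸ hs.z1 ν h4 h3 h5) hμ
      · rfl

end NFK

/-- A normal form system with a combinatorial Koszul filtration defines a Koszul algebra. -/
theorem NF.koszul {n : ℕ} (N : NF n) (K : Type u) [Field K] {ι : Type}
    (X : ι → Set (Fin n →₀ ℕ)) (rk : ι → ℕ) (hX : N.Filtration X rk)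
    (I : Ideal (MvPolynomial (Fin n) K)) (hI : ∀ p, p ∈ I ↔ N.phi K p = 0) : Koszul I := by
  choose J hJ using fun a => NFK.exists_J hI (X a) (hX.stable a)
  obtain ⟨p1, hp1⟩ := NFK.exists_p hI 1
  obtain ⟨p2, hp2⟩ := NFK.exists_p hI 2
  have hXL : ∀ i : Fin n, Ideal.Quotient.mk I (MvPolynomial.X i) ∈
      ((dpart I 1 : Submodule K (MvPolynomial (Fin n) K ⧸ I)) :
        Set (MvPolynomial (Fin n) K ⧸ I)) := by
    intro i
    exact ⟨MvPolynomial.X i, MvPolynomial.isHomogeneous_X K i, rfl⟩
  have hKI : ∀ (k : ℕ) (a : ι), rk a = k →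
      KI ((dpart I 1 : Submodule K (MvPolynomial (Fin n) K ⧸ I)) :
        Set (MvPolynomial (Fin n) K ⧸ I)) (Set.range J) (J a) := by
    intro k
    induction k using Nat.strong_induction_on with
    | _ k ih =>
      intro a ha
      rcases hX.step a with h | ⟨b, c, i, hb, hs⟩
      · have h1 : J a = ⊥ := by
          rw [eq_bot_iff]
          intro r hr
          obtain ⟨p, rfl⟩ := Ideal.Quotient.mk_surjective r
          rw [hJ] at hr
          rw [Ideal.mem_bot, ← NFK.mk_phi hI p]
          have h2 : N.phi K p = 0 := by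
            ext μ
            rw [MvPolynomial.coeff_zero]
            by_contra h3
            exact h μ (by
              by_contra h4
              exact h3 (hr μ h4)) (NFK.std_of_coeff N K p μ h3)
          rw [h2, map_zero]
        rw [h1]
        exact KI.bot
      · obtain ⟨h1, h2⟩ := NFK.step_J hI hs (hJ a) (hJ b) (hJ c)
        rw [h1]
        exact KI.step (J b) (J c) _ (ih (rk b) (by omega) b rfl) (hXL i) ⟨c, rfl⟩ h2
  obtain ⟨a0, ha0⟩ := hX.top
  have htop : J a0 = Ideal.map (Ideal.Quotient.mk I) (irr n K) := by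
    apply le_antisymm
    · intro r hr
      obtain ⟨p, rfl⟩ := Ideal.Quotient.mk_surjective r
      rw [hJ] at hr
      rw [← NFK.mk_phi hI p]
      refine Ideal.mem_map_of_mem _ ?_
      rw [irr, RingHom.mem_ker, MvPolynomial.constantCoeff_eq]
      refine hr 0 ?_
      rw [ha0]
      simp
    · rw [Ideal.map_le_iff_le_comap]
      intro p hp
      rw [irr, RingHom.mem_ker, MvPolynomial.constantCoeff_eq] at hp
      rw [Ideal.mem_comap, hJ]
      intro μ hμ
      rw [ha0] at hμ
      have h1 : μ = 0 := by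
        by_contra h2
        exact hμ h2
      rw [h1, NFK.coeff_zero_phi, hp]
  have hmain := res_of_filtration
    ((dpart I 1 : Submodule K (MvPolynomial (Fin n) K ⧸ I)) : Set (MvPolynomial (Fin n) K ⧸ I))
    p1 p2 (Submodule.zero_mem _) ?_ ?_ ?_ (Set.range J) ?_
    (Ideal.map (Ideal.Quotient.mk I) (irr n K)) ⟨a0, htop⟩ ?_
  · exact hmain
  · intro r
    obtain ⟨p, rfl⟩ := Ideal.Quotient.mk_surjective r
    rw [hp1]
    exact ⟨MvPolynomial.homogeneousComponent 1 p,
      MvPolynomial.homogeneousComponent_isHomogeneous 1 p, rfl⟩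
  · rintro l ⟨q, hq, rfl⟩
    show p1 (Ideal.Quotient.mk I q) = Ideal.Quotient.mk I q
    rw [hp1, MvPolynomial.homogeneousComponent_of_mem hq, if_pos rfl]
  · rintro l ⟨q, hq, rfl⟩ s
    obtain ⟨p, rfl⟩ := Ideal.Quotient.mk_surjective s
    show p2 (Ideal.Quotient.mk I q * Ideal.Quotient.mk I p) =
      Ideal.Quotient.mk I q * p1 (Ideal.Quotient.mk I p)
    have h1 : MvPolynomial.homogeneousComponent 2 (q * p) =
        q * MvPolynomial.homogeneousComponent 1 p := NFK.hc_mul K (k := 1) (j := 1) hq
    rw [← map_mul, hp2, hp1, ← map_mul, h1]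
  · rintro _ ⟨a, rfl⟩
    exact hKI _ a rfl
  · intro r hr
    rw [← htop] at hr ⊢
    obtain ⟨p, rfl⟩ := Ideal.Quotient.mk_surjective r
    rw [hp1, hJ, ← NFK.hc_phi]
    intro μ hμ
    rw [ha0] at hμ
    have h1 : μ = 0 := by
      by_contra h2
      exact hμ h2
    rw [h1, MvPolynomial.coeff_homogeneousComponent, if_neg]
    simp

end Pool.Agent.KosQ2
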