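import Pool.Agent.KosQ2.Defs2

/-!
# The normal form system of the nine variable ring (row E1)

Variables `0, ..., 8` are `a b c d x1 x2 x3 y1 y2`; relations `ac = ad = b^2 = 0`, `ab = bd`,
`a^2 = -bc`, `x_i y_j = 0`.
-/

set_option autoImplicit false
set_option linter.unusedSimpArgs false
set_option linter.unnecessarySeqFocus false

namespace Pool.Agent.KosQ2

/-! ### The part in `a b c d` -/

/-- Coefficient of the normal form of `a^A b^B c^C d^D`. -/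
def cc (q : ℕ × ℕ × ℕ × ℕ) : ℤ :=
  if q.1 = 0 ∧ q.2.1 = 0 then 1
  else if q.1 = 0 ∧ q.2.1 = 1 ∧ q.2.2.1 + q.2.2.2 ≤ 1 then 1
  else if q.1 = 1 ∧ q.2.1 ≤ 1 ∧ q.2.2.1 = 0 ∧ q.2.2.2 = 0 then 1
  else if q.1 = 2 ∧ q.2.1 = 0 ∧ q.2.2.1 = 0 ∧ q.2.2.2 = 0 then -1 else 0

/-- Exponents of the normal form of `a^A b^B c^C d^D`. -/
def tt (q : ℕ × ℕ × ℕ × ℕ) : ℕ × ℕ × ℕ × ℕ :=
  if q = (1, 1, 0, 0) then (0, 1, 0, 1) else if q = (2, 0, 0, 0) then (0, 1, 1, 0) else q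

/-- Multiplication by one of the first four variables. -/
def e4 (i : Fin 4) (q : ℕ × ℕ × ℕ × ℕ) : ℕ × ℕ × ℕ × ℕ :=
  (q.1 + (if i = 0 then 1 else 0), q.2.1 + (if i = 1 then 1 else 0),
    q.2.2.1 + (if i = 2 then 1 else 0), q.2.2.2 + (if i = 3 then 1 else 0))

theorem cc_unit (q : ℕ × ℕ × ℕ × ℕ) : cc q = 0 ∨ cc q = 1 ∨ cc q = -1 := by
  unfold cc; split_ifs <;> simp

theorem cc_step (q : ℕ × ℕ × ℕ × ℕ) (i : Fin 4) : cc (e4 i q) = cc q * cc (e4 i (tt q)) := by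
  obtain ⟨A, B, C, D⟩ := q
  rcases A with _ | _ | _ | A <;> rcases B with _ | _ | B <;> rcases C with _ | _ | C <;>
    rcases D with _ | _ | D <;> fin_cases i <;> simp [cc, tt, e4] <;> omega

theorem tt_step (q : ℕ × ℕ × ℕ × ℕ) (i : Fin 4) (h : cc (e4 i q) ≠ 0) :
    tt (e4 i q) = tt (e4 i (tt q)) := by
  obtain ⟨A, B, C, D⟩ := q
  rcases A with _ | _ | _ | A <;> rcases B with _ | _ | B <;> rcases C with _ | _ | C <;>
    rcases D with _ | _ | D <;> fin_cases i <;> simp [cc, tt, e4] at h ⊢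

theorem tt_deg (q : ℕ × ℕ × ℕ × ℕ) :
    (tt q).1 + (tt q).2.1 + (tt q).2.2.1 + (tt q).2.2.2 = q.1 + q.2.1 + q.2.2.1 + q.2.2.2 := by
  unfold tt
  split_ifs with h1 h2
  · subst h1; rfl
  · subst h2; rfl
  · rfl

theorem tt_idem (q : ℕ × ℕ × ℕ × ℕ) (h : cc q ≠ 0) : cc (tt q) = 1 ∧ tt (tt q) = tt q := by
  obtain ⟨A, B, C, D⟩ := q
  rcases A with _ | _ | _ | A <;> rcases B with _ | _ | B <;> rcases C with _ | _ | C <;>
    rcases D with _ | _ | D <;> simp [cc, tt] at h ⊢ <;> omega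

theorem cc_low (q : ℕ × ℕ × ℕ × ℕ) (h : q.1 + q.2.1 + q.2.2.1 + q.2.2.2 ≤ 1) :
    cc q = 1 ∧ tt q = q := by
  obtain ⟨A, B, C, D⟩ := q
  simp only at h
  unfold cc tt
  simp only [Prod.mk.injEq]
  constructor
  · split_ifs <;> first | rfl | omega
  · split_ifs <;> first | rfl | omega

/-! ### All nine variables -/

/-- The first four exponents. -/
def pr (μ : Fin 9 →₀ ℕ) : ℕ × ℕ × ℕ × ℕ := (μ 0, μ 1, μ 2, μ 3)

/-- Replace the first four exponents. -/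
noncomputable def put (q : ℕ × ℕ × ℕ × ℕ) (μ : Fin 9 →₀ ℕ) : Fin 9 →₀ ℕ :=
  Finsupp.equivFunOnFinite.symm
    ![q.1, q.2.1, q.2.2.1, q.2.2.2, μ 4, μ 5, μ 6, μ 7, μ 8]

/-- Some `x` and some `y` occur. -/
def xy (μ : Fin 9 →₀ ℕ) : Prop := 0 < μ 4 + μ 5 + μ 6 ∧ 0 < μ 7 + μ 8

instance (μ : Fin 9 →₀ ℕ) : Decidable (xy μ) := by unfold xy; infer_instance

/-- Coefficient of the normal form. -/
def c9 (μ : Fin 9 →₀ ℕ) : ℤ := if xy μ then 0 else cc (pr μ)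

/-- Exponents of the normal form. -/
noncomputable def t9 (μ : Fin 9 →₀ ℕ) : Fin 9 →₀ ℕ := put (tt (pr μ)) μ

theorem put_apply (q : ℕ × ℕ × ℕ × ℕ) (μ : Fin 9 →₀ ℕ) (i : Fin 9) :
    put q μ i = ![q.1, q.2.1, q.2.2.1, q.2.2.2, μ 4, μ 5, μ 6, μ 7, μ 8] i := rfl

theorem pr_put (q : ℕ × ℕ × ℕ × ℕ) (μ : Fin 9 →₀ ℕ) : pr (put q μ) = q := by
  simp [pr, put_apply]

theorem put_pr (μ : Fin 9 →₀ ℕ) : put (pr μ) μ = μ := by
  ext i; fin_cases i <;> simp [put_apply, pr]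

theorem put_put (q q' : ℕ × ℕ × ℕ × ℕ) (μ : Fin 9 →₀ ℕ) : put q (put q' μ) = put q μ := by
  ext i; fin_cases i <;> simp [put_apply]

theorem xy_put (q : ℕ × ℕ × ℕ × ℕ) (μ : Fin 9 →₀ ℕ) : xy (put q μ) ↔ xy μ := by
  simp [xy, put_apply]

/-- Index of one of the first four variables. -/
def lo (i : Fin 4) : Fin 9 := i.castLE (by norm_num)

theorem pr_add_lo (μ : Fin 9 →₀ ℕ) (i : Fin 4) : pr (μ + del (lo i)) = e4 i (pr μ) := by
  fin_cases i <;> simp [pr, e4, lo, del, Finsupp.single_apply]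

theorem put_add_lo (q : ℕ × ℕ × ℕ × ℕ) (μ : Fin 9 →₀ ℕ) (i : Fin 4) :
    put q (μ + del (lo i)) = put q μ := by
  ext j; fin_cases i <;> fin_cases j <;> simp [put_apply, lo, del, Finsupp.single_apply]

theorem put_lo (q : ℕ × ℕ × ℕ × ℕ) (μ : Fin 9 →₀ ℕ) (i : Fin 4) :
    put q μ + del (lo i) = put (e4 i q) μ := by
  ext j; fin_cases i <;> fin_cases j <;> simp [put_apply, lo, e4, del, Finsupp.single_apply]

theorem xy_add_lo (μ : Fin 9 →₀ ℕ) (i : Fin 4) : xy (μ + del (lo i)) ↔ xy μ := by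
  fin_cases i <;> simp [xy, lo, del, Finsupp.single_apply]

theorem pr_add_hi (μ : Fin 9 →₀ ℕ) (i : Fin 9) (hi : 4 ≤ i.val) : pr (μ + del i) = pr μ := by
  fin_cases i <;> simp at hi <;> simp [pr, del, Finsupp.single_apply]

theorem put_add_hi (q : ℕ × ℕ × ℕ × ℕ) (μ : Fin 9 →₀ ℕ) (i : Fin 9) (hi : 4 ≤ i.val) :
    put q (μ + del i) = put q μ + del i := by
  ext j; fin_cases i <;> simp at hi <;> fin_cases j <;>
    simp [put_apply, del, Finsupp.single_apply]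

theorem xy_mono (μ : Fin 9 →₀ ℕ) (i : Fin 9) (h : xy μ) : xy (μ + del i) := by
  unfold xy at h ⊢
  simp only [Finsupp.add_apply]
  omega

theorem c9_put (q : ℕ × ℕ × ℕ × ℕ) (μ : Fin 9 →₀ ℕ) :
    c9 (put q μ) = if xy μ then 0 else cc q := by
  unfold c9
  simp only [xy_put, pr_put]

theorem t9_put (q : ℕ × ℕ × ℕ × ℕ) (μ : Fin 9 →₀ ℕ) : t9 (put q μ) = put (tt q) μ := by
  unfold t9
  rw [pr_put, put_put]

theorem degree9 (μ : Fin 9 →₀ ℕ) :
    μ.degree = μ 0 + μ 1 + μ 2 + μ 3 + μ 4 + μ 5 + μ 6 + μ 7 + μ 8 := by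
  rw [Finsupp.degree_eq_sum]
  simp [Fin.sum_univ_succ]
  ring

theorem c9_ne {μ : Fin 9 →₀ ℕ} (h : c9 μ ≠ 0) : ¬ xy μ ∧ cc (pr μ) ≠ 0 := by
  unfold c9 at h
  split_ifs at h with h1
  · exact absurd rfl h
  · exact ⟨h1, h⟩

theorem lo_or_hi (i : Fin 9) : (∃ j : Fin 4, i = lo j) ∨ 4 ≤ i.val := by
  by_cases h : i.val < 4
  · exact Or.inl ⟨⟨i.val, h⟩, rfl⟩
  · exact Or.inr (by omega)

/-- The normal form system of the ring `R`. -/
noncomputable def nf9 : NF 9 where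
  c := c9
  t := t9
  hunit μ := by
    unfold c9
    split_ifs
    · exact Or.inl rfl
    · exact cc_unit _
  hstep μ i := by
    rcases lo_or_hi i with ⟨j, rfl⟩ | hi
    · have e1 : t9 μ + del (lo j) = put (e4 j (tt (pr μ))) μ := put_lo _ _ _
      rw [e1, c9_put]
      unfold c9
      simp only [xy_add_lo, pr_add_lo]
      split_ifs
      · simp
      · exact cc_step _ _
    · have e1 : t9 μ + del i = put (tt (pr μ)) (μ + del i) := (put_add_hi _ _ _ hi).symm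
      rw [e1, c9_put]
      unfold c9
      rw [pr_add_hi μ i hi]
      by_cases h1 : xy (μ + del i)
      · simp [h1]
      · have h2 : ¬ xy μ := fun h => h1 (xy_mono μ i h)
        simp only [h1, h2, if_false]
        by_cases h3 : cc (pr μ) = 0
        · simp [h3]
        · rw [(tt_idem _ h3).1, mul_one]
  tstep μ i h := by
    have h' := c9_ne h
    rcases lo_or_hi i with ⟨j, rfl⟩ | hi
    · have e1 : t9 μ + del (lo j) = put (e4 j (tt (pr μ))) μ := put_lo _ _ _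
      rw [e1, t9_put]
      unfold t9
      rw [pr_add_lo, put_add_lo]
      rw [pr_add_lo] at h'
      rw [tt_step _ _ h'.2]
    · have e1 : t9 μ + del i = put (tt (pr μ)) (μ + del i) := (put_add_hi _ _ _ hi).symm
      rw [e1, t9_put]
      unfold t9
      rw [pr_add_hi μ i hi]
      rw [pr_add_hi μ i hi] at h'
      rw [(tt_idem _ h'.2).2]
  hdeg μ h := by
    rw [degree9, degree9]
    have h1 := tt_deg (pr μ)
    have h2 : pr μ = (μ 0, μ 1, μ 2, μ 3) := rfl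
    have e : ∀ i, t9 μ i = put (tt (pr μ)) μ i := fun i => rfl
    simp only [e, put_apply]
    simp only [h2] at h1 ⊢
    simp at h1 ⊢
    omega
  hidem μ h := by
    have h' := c9_ne h
    have e1 : t9 μ = put (tt (pr μ)) μ := rfl
    rw [e1, c9_put, t9_put, if_neg h'.1, (tt_idem _ h'.2).1, (tt_idem _ h'.2).2]
    exact ⟨rfl, rfl⟩
  hlow μ h := by
    rw [degree9] at h
    have h1 := cc_low (pr μ) (by simp only [pr]; omega)
    have h2 : ¬ xy μ := by unfold xy; omega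
    refine ⟨?_, ?_⟩
    · unfold c9; rw [if_neg h2, h1.1]
    · unfold t9; rw [h1.2, put_pr]

theorem nf9_xy (i j : Fin 9) (hi : i = 4 ∨ i = 5 ∨ i = 6) (hj : j = 7 ∨ j = 8) :
    nf9.c (del i + del j) = 0 := by
  have h : xy (del i + del j) := by
    unfold xy
    rcases hi with rfl | rfl | rfl <;> rcases hj with rfl | rfl <;>
      simp [del, Finsupp.single_apply]
  show c9 _ = 0
  unfold c9
  rw [if_pos h]

/-- Standard monomials of `nf9`. -/
theorem nf9_std (μ : Fin 9 →₀ ℕ) : nf9.Std μ ↔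
    ¬ xy μ ∧ ((μ 0 = 0 ∧ μ 1 = 0) ∨ (μ 0 = 0 ∧ μ 1 = 1 ∧ μ 2 + μ 3 ≤ 1) ∨
      (μ 0 = 1 ∧ μ 1 = 0 ∧ μ 2 = 0 ∧ μ 3 = 0)) := by
  have h0 : nf9.Std μ ↔ (c9 μ = 1 ∧ t9 μ = μ) := Iff.rfl
  rw [h0]
  have h1 : t9 μ = μ ↔ tt (pr μ) = pr μ := by
    constructor
    · intro h
      have := congrArg pr h
      unfold t9 at this
      rwa [pr_put] at this
    · intro h
      unfold t9
      rw [h, put_pr]
  rw [h1]
  have h2 : pr μ = (μ 0, μ 1, μ 2, μ 3) := rfl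
  unfold c9
  rw [h2]
  unfold cc tt
  simp only [Prod.mk.injEq]
  generalize μ 0 = A
  generalize μ 1 = B
  generalize μ 2 = C
  generalize μ 3 = D
  by_cases hxy : xy μ
  · simp [hxy]
  · simp only [hxy, if_false, not_false_eq_true, true_and]
    constructor
    · rintro ⟨h3, h4⟩
      split_ifs at h3 h4 <;> simp at h3 h4 <;> omega
    · intro h
      split_ifs <;> simp <;> omega

end Pool.Agent.KosQ2
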