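import Pool.Agent.KosQ2.Series
import Pool.Agent.KosQ2.Ring

/-!
# The h-polynomial of the nine variable ring
-/

set_option autoImplicit false

namespace Pool.Agent.KosQ2

/-- indicator of an allowed exponent. -/
def ind (k : Fin 4) (e : ℕ) : ℤ := if allow k e then 1 else 0

theorem ind0 (e : ℕ) : ind 0 e = if e = 0 then 1 else 0 := by simp [ind, allow]
theorem ind1 (e : ℕ) : ind 1 e = if e = 1 then 1 else 0 := by simp [ind, allow]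
theorem ind3 (e : ℕ) : ind 3 e = 1 := by simp [ind, allow]

/-- the five boxes for `a b c d`. -/
def A1 : Fin 5 → Fin 4 → Fin 4 :=
  ![![0, 0, 3, 3], ![0, 1, 0, 0], ![0, 1, 1, 0], ![0, 1, 0, 1], ![1, 0, 0, 0]]

/-- the three boxes for `x1 x2 x3 y1 y2`. -/
def A2 : Fin 3 → Fin 5 → Fin 4 :=
  ![![3, 3, 3, 0, 0], ![0, 0, 0, 3, 3], ![0, 0, 0, 0, 0]]

/-- the signs. -/
def ep2 : Fin 3 → ℤ := ![1, 1, -1]

/-- the boxes for the nine variables. -/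
def A9 (k : Fin 5 × Fin 3) : Fin 9 → Fin 4 :=
  ![A1 k.1 0, A1 k.1 1, A1 k.1 2, A1 k.1 3, A2 k.2 0, A2 k.2 1, A2 k.2 2, A2 k.2 3, A2 k.2 4]

/-- the signs for the nine variables. -/
def ep9 (k : Fin 5 × Fin 3) : ℤ := ep2 k.2

theorem sum1 (a b c d : ℕ) :
    (∑ k : Fin 5, ind (A1 k 0) a * ind (A1 k 1) b * ind (A1 k 2) c * ind (A1 k 3) d) =
      if ((a = 0 ∧ b = 0) ∨ (a = 0 ∧ b = 1 ∧ c + d ≤ 1) ∨ (a = 1 ∧ b = 0 ∧ c = 0 ∧ d = 0))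
        then 1 else 0 := by
  simp only [Fin.sum_univ_five, A1, Matrix.cons_val, ind0, ind1, ind3]
  rcases a with _ | _ | a <;> rcases b with _ | _ | b <;> rcases c with _ | _ | c <;>
    rcases d with _ | _ | d <;> (simp; try omega)

theorem sum2 (x1 x2 x3 y1 y2 : ℕ) :
    (∑ k : Fin 3, ep2 k * (ind (A2 k 0) x1 * ind (A2 k 1) x2 * ind (A2 k 2) x3 * ind (A2 k 3) y1 *
      ind (A2 k 4) y2)) =
      if ¬ (0 < x1 + x2 + x3 ∧ 0 < y1 + y2) then 1 else 0 := by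
  simp only [Fin.sum_univ_three, A2, ep2, Matrix.cons_val, ind0, ind3]
  rcases x1 with _ | x1 <;> rcases x2 with _ | x2 <;> rcases x3 with _ | x3 <;>
    rcases y1 with _ | y1 <;> rcases y2 with _ | y2 <;> simp

theorem sum9 (μ : Fin 9 →₀ ℕ) :
    (if (¬ xy μ ∧ ((μ 0 = 0 ∧ μ 1 = 0) ∨ (μ 0 = 0 ∧ μ 1 = 1 ∧ μ 2 + μ 3 ≤ 1) ∨
      (μ 0 = 1 ∧ μ 1 = 0 ∧ μ 2 = 0 ∧ μ 3 = 0))) then (1 : ℤ) else 0) =
      ∑ k : Fin 5 × Fin 3, ep9 k * ∏ v, (if allow (A9 k v) (μ v) then (1 : ℤ) else 0) := by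
  have h1 : ∀ k : Fin 5 × Fin 3,
      ep9 k * ∏ v, (if allow (A9 k v) (μ v) then (1 : ℤ) else 0) =
      (ind (A1 k.1 0) (μ 0) * ind (A1 k.1 1) (μ 1) * ind (A1 k.1 2) (μ 2) *
        ind (A1 k.1 3) (μ 3)) *
      (ep2 k.2 * (ind (A2 k.2 0) (μ 4) * ind (A2 k.2 1) (μ 5) * ind (A2 k.2 2) (μ 6) *
        ind (A2 k.2 3) (μ 7) * ind (A2 k.2 4) (μ 8))) := by
    intro k
    have h2 : ∏ v, (if allow (A9 k v) (μ v) then (1 : ℤ) else 0) =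
        ∏ v, ind (A9 k v) (μ v) := rfl
    rw [h2]
    simp only [Fin.prod_univ_succ, Fin.prod_univ_zero, A9, ep9]
    simp only [Matrix.cons_val_zero, Matrix.cons_val_succ, Fin.succ_zero_eq_one,
      Fin.succ_one_eq_two, Matrix.cons_val_one, Matrix.cons_val]
    have e3 : (Fin.succ (2 : Fin 8) : Fin 9) = 3 := rfl
    have e4 : (Fin.succ (Fin.succ (2 : Fin 7)) : Fin 9) = 4 := rfl
    have e5 : (Fin.succ (Fin.succ (Fin.succ (2 : Fin 6))) : Fin 9) = 5 := rfl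
    have e6 : (Fin.succ (Fin.succ (Fin.succ (Fin.succ (2 : Fin 5)))) : Fin 9) = 6 := rfl
    have e7 : (Fin.succ (Fin.succ (Fin.succ (Fin.succ (Fin.succ (2 : Fin 4))))) : Fin 9) = 7 := rfl
    have e8 : (Fin.succ (Fin.succ (Fin.succ (Fin.succ (Fin.succ (Fin.succ (2 : Fin 3)))))) :
      Fin 9) = 8 := rfl
    rw [e3, e4, e5, e6, e7, e8]
    ring
  rw [Finset.sum_congr rfl (fun k _ => h1 k), Fintype.sum_prod_type]
  simp only [← Finset.mul_sum]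
  rw [sum2, ← Finset.sum_mul, sum1]
  have hx : xy μ ↔ (0 < μ 4 + μ 5 + μ 6 ∧ 0 < μ 7 + μ 8) := Iff.rfl
  by_cases h2 : ¬ (0 < μ 4 + μ 5 + μ 6 ∧ 0 < μ 7 + μ 8)
  · rw [if_pos h2, mul_one]
    by_cases h3 : ((μ 0 = 0 ∧ μ 1 = 0) ∨ (μ 0 = 0 ∧ μ 1 = 1 ∧ μ 2 + μ 3 ≤ 1) ∨
      (μ 0 = 1 ∧ μ 1 = 0 ∧ μ 2 = 0 ∧ μ 3 = 0))
    · rw [if_pos h3, if_pos ⟨fun h => h2 (hx.1 h), h3⟩]
    · rw [if_neg h3, if_neg (fun h => h3 h.2)]
  · rw [if_neg h2, mul_zero, if_neg (fun h => h2 (fun h' => h.1 (hx.2 h')))]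

open Polynomial in
theorem poly9 : (∑ k : Fin 5 × Fin 3, Polynomial.C (ep9 k) * ∏ v, wt (A9 k v) : Polynomial ℤ) =
    (1 - X) ^ 4 * hR := by
  have h1 : ∀ k : Fin 5 × Fin 3,
      Polynomial.C (ep9 k) * ∏ v, wt (A9 k v) =
      (wt (A1 k.1 0) * wt (A1 k.1 1) * wt (A1 k.1 2) * wt (A1 k.1 3)) *
      (Polynomial.C (ep2 k.2) * (wt (A2 k.2 0) * wt (A2 k.2 1) * wt (A2 k.2 2) *
        wt (A2 k.2 3) * wt (A2 k.2 4))) := by
    intro k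
    simp only [Fin.prod_univ_succ, Fin.prod_univ_zero, A9, ep9]
    simp only [Matrix.cons_val_zero, Matrix.cons_val_succ, Fin.succ_zero_eq_one,
      Fin.succ_one_eq_two, Matrix.cons_val_one, Matrix.cons_val]
    ring
  rw [Finset.sum_congr rfl (fun k _ => h1 k), Fintype.sum_prod_type]
  simp only [← Finset.mul_sum]
  rw [← Finset.sum_mul]
  have w0 : wt 0 = 1 - X := by simp [wt]
  have w1 : wt 1 = X * (1 - X) := by simp [wt]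
  have w3 : wt 3 = 1 := by simp [wt]
  simp only [Fin.sum_univ_five, Fin.sum_univ_three, A1, A2, ep2, Matrix.cons_val, w0, w1, w3, hR,
    map_one, map_neg]
  ring

theorem hilb9 :
    (1 - PowerSeries.X) ^ 5 *
      PowerSeries.mk (fun j => ((Nat.card {μ : Fin 9 →₀ ℕ // μ.degree = j ∧ nf9.Std μ} : ℕ) : ℤ)) =
      (hR : PowerSeries ℤ) := by
  have h0 : (1 - PowerSeries.X : PowerSeries ℤ) ^ 4 ≠ 0 := by
    refine pow_ne_zero _ (fun h => ?_)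
    have := congrArg (PowerSeries.coeff 0) h
    simp at this
  apply mul_left_cancel₀ h0
  rw [← mul_assoc, ← pow_add]
  have h1 := series_of_boxes (fun μ : Fin 9 →₀ ℕ => (¬ xy μ ∧ ((μ 0 = 0 ∧ μ 1 = 0) ∨
      (μ 0 = 0 ∧ μ 1 = 1 ∧ μ 2 + μ 3 ≤ 1) ∨
      (μ 0 = 1 ∧ μ 1 = 0 ∧ μ 2 = 0 ∧ μ 3 = 0)))) ep9 A9 sum9
  rw [poly9] at h1
  have h2 : (PowerSeries.mk (fun j =>
      ((Nat.card {μ : Fin 9 →₀ ℕ // μ.degree = j ∧ nf9.Std μ} : ℕ) : ℤ))) =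
      PowerSeries.mk (fun j => ((Nat.card {μ : Fin 9 →₀ ℕ // μ.degree = j ∧
      (¬ xy μ ∧ ((μ 0 = 0 ∧ μ 1 = 0) ∨
      (μ 0 = 0 ∧ μ 1 = 1 ∧ μ 2 + μ 3 ≤ 1) ∨
      (μ 0 = 1 ∧ μ 1 = 0 ∧ μ 2 = 0 ∧ μ 3 = 0)))} : ℕ) : ℤ)) := by
    ext j
    rw [PowerSeries.coeff_mk, PowerSeries.coeff_mk]
    congr 1
    exact Nat.card_congr (Equiv.subtypeEquivRight (fun μ => by rw [nf9_std]))
  rw [h2]
  rw [show 4 + 5 = 9 from rfl, h1]
  rw [Polynomial.coe_mul, Polynomial.coe_pow, Polynomial.coe_sub, Polynomial.coe_one,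
    Polynomial.coe_X]

end Pool.Agent.KosQ2
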