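import Pool.Agent.KosQ2.Ring

/-!
# The combinatorial Koszul filtration of the nine variable ring (row E2)
-/

set_option autoImplicit false
set_option linter.unusedSimpArgs false
set_option linter.unnecessarySeqFocus false

namespace Pool.Agent.KosQ2

/-! ### The seven ideals in `a b c d` -/

/-- The ideals `0, (a), (c), (c,d), (a,c), (a,c,d), (a,b,c,d)`. -/
def I0 (k : ℕ) (q : ℕ × ℕ × ℕ × ℕ) : Prop :=
  match k with
  | 0 => False
  | 1 => 1 ≤ q.1 ∨ (q.2.1 = 1 ∧ q.2.2.1 + q.2.2.2 = 1)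
  | 2 => 1 ≤ q.2.2.1
  | 3 => 1 ≤ q.2.2.1 + q.2.2.2
  | 4 => 1 ≤ q.1 ∨ 1 ≤ q.2.2.1 ∨ (q.2.1 = 1 ∧ q.2.2.2 = 1)
  | 5 => 1 ≤ q.1 ∨ 1 ≤ q.2.2.1 + q.2.2.2
  | _ => 1 ≤ q.1 + q.2.1 + q.2.2.1 + q.2.2.2

/-- Standard exponents. -/
def Sc (q : ℕ × ℕ × ℕ × ℕ) : Prop := cc q = 1 ∧ tt q = q

/-- The core form of one step. -/
structure CoreStep (k y z : ℕ) (j : Fin 4) : Prop where
  sub : ∀ q, I0 y q → I0 k q
  mem : I0 k (e4 j (0, 0, 0, 0))
  gen : ∀ q, I0 k q → Sc q → I0 y q ∨ ∃ q', Sc q' ∧ cc (e4 j q') ≠ 0 ∧ tt (e4 j q') = q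
  z1 : ∀ q, I0 z q → Sc q → cc (e4 j q) ≠ 0 → I0 y (tt (e4 j q))
  z2 : ∀ q, ¬ I0 z q → Sc q → cc (e4 j q) ≠ 0 ∧ ¬ I0 y (tt (e4 j q))
  z3 : ∀ q q', ¬ I0 z q → ¬ I0 z q' → Sc q → Sc q' → tt (e4 j q) = tt (e4 j q') → q = q'

theorem Sc_iff (q : ℕ × ℕ × ℕ × ℕ) : Sc q ↔
    ((q.1 = 0 ∧ q.2.1 = 0) ∨ (q.1 = 0 ∧ q.2.1 = 1 ∧ q.2.2.1 + q.2.2.2 ≤ 1) ∨
      (q.1 = 1 ∧ q.2.1 = 0 ∧ q.2.2.1 = 0 ∧ q.2.2.2 = 0)) := by
  obtain ⟨A, B, C, D⟩ := q
  unfold Sc cc tt
  simp only [Prod.mk.injEq]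
  constructor
  · rintro ⟨h3, h4⟩
    split_ifs at h3 h4 <;> simp at h3 h4 <;> omega
  · intro h
    split_ifs <;> simp <;> omega

theorem Sc_cases (q : ℕ × ℕ × ℕ × ℕ) (h : Sc q) : (∃ C D, q = (0, 0, C, D)) ∨ q = (0, 1, 0, 0) ∨
    q = (0, 1, 1, 0) ∨ q = (0, 1, 0, 1) ∨ q = (1, 0, 0, 0) := by
  rw [Sc_iff] at h
  obtain ⟨A, B, C, D⟩ := q
  simp only at h
  rcases h with ⟨rfl, rfl⟩ | ⟨rfl, rfl, h⟩ | ⟨rfl, rfl, rfl, rfl⟩
  · exact Or.inl ⟨C, D, rfl⟩
  · right
    simp only [Prod.mk.injEq, true_and]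
    omega
  · simp

theorem Sc_00 (C D : ℕ) : Sc (0, 0, C, D) := by simp [Sc, cc, tt]
theorem Sc_0100 : Sc (0, 1, 0, 0) := by simp [Sc, cc, tt]
theorem Sc_1000 : Sc (1, 0, 0, 0) := by simp [Sc, cc, tt]

theorem a00 (C D : ℕ) : e4 0 (0, 0, C, D) = (1, 0, C, D) := by simp [e4]
theorem b00 (C D : ℕ) : e4 1 (0, 0, C, D) = (0, 1, C, D) := by simp [e4]
theorem c00 (C D : ℕ) : e4 2 (0, 0, C, D) = (0, 0, C + 1, D) := by simp [e4]
theorem d00 (C D : ℕ) : e4 3 (0, 0, C, D) = (0, 0, C, D + 1) := by simp [e4]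
theorem cc10 (C D : ℕ) : cc (1, 0, C, D) = if C = 0 ∧ D = 0 then 1 else 0 := by simp [cc]
theorem cc01 (C D : ℕ) : cc (0, 1, C, D) = if C + D ≤ 1 then 1 else 0 := by simp [cc]
theorem cc00 (C D : ℕ) : cc (0, 0, C, D) = 1 := by simp [cc]
theorem tt10 (C D : ℕ) : tt (1, 0, C, D) = (1, 0, C, D) := by simp [tt]
theorem tt01 (C D : ℕ) : tt (0, 1, C, D) = (0, 1, C, D) := by simp [tt]
theorem tt00 (C D : ℕ) : tt (0, 0, C, D) = (0, 0, C, D) := by simp [tt]

theorem stable0 (k : ℕ) (q : ℕ × ℕ × ℕ × ℕ) (j : Fin 4) (h : I0 k q) (hs : Sc q)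
    (hc : cc (e4 j q) ≠ 0) : I0 k (tt (e4 j q)) := by
  rcases Sc_cases q hs with ⟨C, D, rfl⟩ | rfl | rfl | rfl | rfl
  · have hj : j = 0 ∨ j = 1 ∨ j = 2 ∨ j = 3 := by fin_cases j <;> simp
    rcases hj with rfl | rfl | rfl | rfl
    · rw [a00, cc10] at hc
      rw [a00, tt10]
      split_ifs at hc with h0
      · obtain ⟨rfl, rfl⟩ := h0
        rcases k with _ | _ | _ | _ | _ | _ | k <;> simp [I0] at h ⊢
      · exact absurd rfl hc
    · rw [b00, cc01] at hc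
      rw [b00, tt01]
      split_ifs at hc with h0
      · rcases k with _ | _ | _ | _ | _ | _ | k <;> simp [I0] at h ⊢ <;> omega
      · exact absurd rfl hc
    · rw [c00, tt00]
      rcases k with _ | _ | _ | _ | _ | _ | k <;> simp [I0] at h ⊢ <;> omega
    · rw [d00, tt00]
      rcases k with _ | _ | _ | _ | _ | _ | k <;> simp [I0] at h ⊢ <;> omega
  all_goals
    fin_cases j <;> simp [cc, tt, e4] at hc ⊢ <;>
      rcases k with _ | _ | _ | _ | _ | _ | k <;> simp [I0] at h ⊢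

theorem step1 : CoreStep 1 0 3 0 where
  sub q h := h.elim
  mem := by simp [I0, e4]
  gen q h hs := by
    right
    rcases Sc_cases q hs with ⟨C, D, rfl⟩ | rfl | rfl | rfl | rfl
    · simp [I0] at h
    · simp [I0] at h
    · exact ⟨(1, 0, 0, 0), Sc_1000, by simp [cc, e4], by simp [tt, e4]⟩
    · exact ⟨(0, 1, 0, 0), Sc_0100, by simp [cc, e4], by simp [tt, e4]⟩
    · exact ⟨(0, 0, 0, 0), Sc_00 0 0, by simp [cc, e4], by simp [tt, e4]⟩
  z1 q h hs hc := by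
    rcases Sc_cases q hs with ⟨C, D, rfl⟩ | rfl | rfl | rfl | rfl
    · rw [a00, cc10] at hc
      simp [I0] at h
      split_ifs at hc with h0
      · omega
      · exact absurd rfl hc
    all_goals simp [I0, cc, tt, e4] at h hc ⊢
  z2 q h hs := by
    rcases Sc_cases q hs with ⟨C, D, rfl⟩ | rfl | rfl | rfl | rfl
    · simp [I0] at h
      obtain ⟨rfl, rfl⟩ : C = 0 ∧ D = 0 := by omega
      simp [I0, cc, tt, e4]
    all_goals simp [I0, cc, tt, e4] at h ⊢
  z3 q q' h h' hs hs' heq := by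
    rcases Sc_cases q hs with ⟨C, D, rfl⟩ | rfl | rfl | rfl | rfl <;>
    rcases Sc_cases q' hs' with ⟨C', D', rfl⟩ | rfl | rfl | rfl | rfl <;>
    simp [I0, tt, e4] at h h' heq ⊢ <;> omega

theorem step2 : CoreStep 2 0 1 2 where
  sub q h := h.elim
  mem := by simp [I0, e4]
  gen q h hs := by
    right
    rcases Sc_cases q hs with ⟨C, D, rfl⟩ | rfl | rfl | rfl | rfl
    · simp [I0] at h
      obtain ⟨C', rfl⟩ : ∃ C', C = C' + 1 := ⟨C - 1, by omega⟩
      exact ⟨(0, 0, C', D), Sc_00 _ _, by rw [c00, cc00]; simp, by rw [c00, tt00]⟩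
    · simp [I0] at h
    · exact ⟨(0, 1, 0, 0), Sc_0100, by simp [cc, e4], by simp [tt, e4]⟩
    · simp [I0] at h
    · simp [I0] at h
  z1 q h hs hc := by
    rcases Sc_cases q hs with ⟨C, D, rfl⟩ | rfl | rfl | rfl | rfl
    all_goals simp [I0, cc, tt, e4] at h hc ⊢
  z2 q h hs := by
    rcases Sc_cases q hs with ⟨C, D, rfl⟩ | rfl | rfl | rfl | rfl
    all_goals simp [I0, cc, tt, e4] at h ⊢
  z3 q q' h h' hs hs' heq := by
    rcases Sc_cases q hs with ⟨C, D, rfl⟩ | rfl | rfl | rfl | rfl <;>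
    rcases Sc_cases q' hs' with ⟨C', D', rfl⟩ | rfl | rfl | rfl | rfl <;>
    simp [I0, tt, e4] at h h' heq ⊢ <;> omega

theorem step3 : CoreStep 3 2 4 3 where
  sub q h := by simp only [I0] at h ⊢; omega
  mem := by simp [I0, e4]
  gen q h hs := by
    rcases Sc_cases q hs with ⟨C, D, rfl⟩ | rfl | rfl | rfl | rfl
    · by_cases hC : C = 0
      · right
        subst hC
        simp [I0] at h
        obtain ⟨D', rfl⟩ : ∃ D', D = D' + 1 := ⟨D - 1, by omega⟩
        exact ⟨(0, 0, 0, D'), Sc_00 _ _, by rw [d00, cc00]; simp, by rw [d00, tt00]⟩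
      · left; simp [I0]; omega
    · simp [I0] at h
    · left; simp [I0]
    · right; exact ⟨(0, 1, 0, 0), Sc_0100, by simp [cc, e4], by simp [tt, e4]⟩
    · simp [I0] at h
  z1 q h hs hc := by
    rcases Sc_cases q hs with ⟨C, D, rfl⟩ | rfl | rfl | rfl | rfl
    all_goals simp [I0, cc, tt, e4] at h hc ⊢
    omega
  z2 q h hs := by
    rcases Sc_cases q hs with ⟨C, D, rfl⟩ | rfl | rfl | rfl | rfl
    all_goals simp [I0, cc, tt, e4] at h ⊢
    omega
  z3 q q' h h' hs hs' heq := by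
    rcases Sc_cases q hs with ⟨C, D, rfl⟩ | rfl | rfl | rfl | rfl <;>
    rcases Sc_cases q' hs' with ⟨C', D', rfl⟩ | rfl | rfl | rfl | rfl <;>
    simp [I0, tt, e4] at h h' heq ⊢ <;> omega

theorem step4 : CoreStep 4 2 5 0 where
  sub q h := by simp only [I0] at h ⊢; omega
  mem := by simp [I0, e4]
  gen q h hs := by
    rcases Sc_cases q hs with ⟨C, D, rfl⟩ | rfl | rfl | rfl | rfl
    · left; simp [I0] at h ⊢; omega
    · simp [I0] at h
    · left; simp [I0]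
    · right; exact ⟨(0, 1, 0, 0), Sc_0100, by simp [cc, e4], by simp [tt, e4]⟩
    · right; exact ⟨(0, 0, 0, 0), Sc_00 0 0, by simp [cc, e4], by simp [tt, e4]⟩
  z1 q h hs hc := by
    rcases Sc_cases q hs with ⟨C, D, rfl⟩ | rfl | rfl | rfl | rfl
    · rw [a00, cc10] at hc
      simp [I0] at h
      split_ifs at hc with h0
      · omega
      · exact absurd rfl hc
    all_goals simp [I0, cc, tt, e4] at h hc ⊢
  z2 q h hs := by
    rcases Sc_cases q hs with ⟨C, D, rfl⟩ | rfl | rfl | rfl | rfl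
    · simp [I0] at h
      obtain ⟨rfl, rfl⟩ : C = 0 ∧ D = 0 := by omega
      simp [I0, cc, tt, e4]
    all_goals simp [I0, cc, tt, e4] at h ⊢
  z3 q q' h h' hs hs' heq := by
    rcases Sc_cases q hs with ⟨C, D, rfl⟩ | rfl | rfl | rfl | rfl <;>
    rcases Sc_cases q' hs' with ⟨C', D', rfl⟩ | rfl | rfl | rfl | rfl <;>
    simp [I0, tt, e4] at h h' heq ⊢ <;> omega

theorem step5 : CoreStep 5 3 6 0 where
  sub q h := by simp only [I0] at h ⊢; omega
  mem := by simp [I0, e4]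
  gen q h hs := by
    rcases Sc_cases q hs with ⟨C, D, rfl⟩ | rfl | rfl | rfl | rfl
    · left; simp [I0] at h ⊢; omega
    · simp [I0] at h
    · left; simp [I0]
    · left; simp [I0]
    · right; exact ⟨(0, 0, 0, 0), Sc_00 0 0, by simp [cc, e4], by simp [tt, e4]⟩
  z1 q h hs hc := by
    rcases Sc_cases q hs with ⟨C, D, rfl⟩ | rfl | rfl | rfl | rfl
    · rw [a00, cc10] at hc
      simp [I0] at h
      split_ifs at hc with h0
      · omega
      · exact absurd rfl hc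
    all_goals simp [I0, cc, tt, e4] at h hc ⊢
  z2 q h hs := by
    rcases Sc_cases q hs with ⟨C, D, rfl⟩ | rfl | rfl | rfl | rfl
    · simp [I0] at h
      obtain ⟨rfl, rfl⟩ : C = 0 ∧ D = 0 := by omega
      simp [I0, cc, tt, e4]
    all_goals simp [I0, cc, tt, e4] at h ⊢
  z3 q q' h h' hs hs' heq := by
    rcases Sc_cases q hs with ⟨C, D, rfl⟩ | rfl | rfl | rfl | rfl <;>
    rcases Sc_cases q' hs' with ⟨C', D', rfl⟩ | rfl | rfl | rfl | rfl <;>
    simp [I0, tt, e4] at h h' heq ⊢ <;> omega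

theorem step6 : CoreStep 6 5 6 1 where
  sub q h := by simp only [I0] at h ⊢; omega
  mem := by simp [I0, e4]
  gen q h hs := by
    rcases Sc_cases q hs with ⟨C, D, rfl⟩ | rfl | rfl | rfl | rfl
    · left; simp [I0] at h ⊢; omega
    · right; exact ⟨(0, 0, 0, 0), Sc_00 0 0, by simp [cc, e4], by simp [tt, e4]⟩
    · left; simp [I0]
    · left; simp [I0]
    · left; simp [I0]
  z1 q h hs hc := by
    rcases Sc_cases q hs with ⟨C, D, rfl⟩ | rfl | rfl | rfl | rfl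
    · rw [b00, cc01] at hc
      rw [b00, tt01]
      simp [I0] at h ⊢
      omega
    all_goals simp [I0, cc, tt, e4] at h hc ⊢
  z2 q h hs := by
    rcases Sc_cases q hs with ⟨C, D, rfl⟩ | rfl | rfl | rfl | rfl
    · simp [I0] at h
      obtain ⟨rfl, rfl⟩ : C = 0 ∧ D = 0 := by omega
      simp [I0, cc, tt, e4]
    all_goals simp [I0, cc, tt, e4] at h ⊢
  z3 q q' h h' hs hs' heq := by
    rcases Sc_cases q hs with ⟨C, D, rfl⟩ | rfl | rfl | rfl | rfl <;>
    rcases Sc_cases q' hs' with ⟨C', D', rfl⟩ | rfl | rfl | rfl | rfl <;>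
    simp [I0, tt, e4] at h h' heq ⊢ <;> omega

/-! ### The lift to nine variables -/

theorem std_iff (μ : Fin 9 →₀ ℕ) : nf9.Std μ ↔ ¬ xy μ ∧ Sc (pr μ) := by
  rw [nf9_std, Sc_iff]
  rfl

theorem put_hi (q : ℕ × ℕ × ℕ × ℕ) (μ : Fin 9 →₀ ℕ) (i : Fin 9) (hi : 4 ≤ i.val) :
    put q μ i = μ i := by
  fin_cases i <;> simp at hi <;> simp [put_apply]

/-- The monomials of the ideal number `a.1`, with the variables (from the last five) in `a.2`
added. -/
def Xf (a : Fin 7 × Finset (Fin 9)) : Set (Fin 9 →₀ ℕ) :=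
  {μ | I0 a.1.val (pr μ) ∨ ∃ i ∈ a.2, 4 ≤ i.val ∧ 0 < μ i}

/-- Rank of a member of the filtration. -/
def rkf (a : Fin 7 × Finset (Fin 9)) : ℕ :=
  (![0, 1, 1, 2, 2, 3, 4] : Fin 7 → ℕ) a.1 + (a.2.filter (fun i => 4 ≤ i.val)).card

theorem t9_lo (μ : Fin 9 →₀ ℕ) (j : Fin 4) :
    t9 (μ + del (lo j)) = put (tt (e4 j (pr μ))) μ := by
  unfold t9
  rw [pr_add_lo, put_add_lo]

theorem t9_hi (μ : Fin 9 →₀ ℕ) (hs : Sc (pr μ)) (i : Fin 9) (hi : 4 ≤ i.val) :
    t9 (μ + del i) = μ + del i := by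
  unfold t9
  rw [pr_add_hi μ i hi, hs.2, put_add_hi _ _ _ hi, put_pr]

theorem c9_lo (μ : Fin 9 →₀ ℕ) (hx : ¬ xy μ) (j : Fin 4) :
    c9 (μ + del (lo j)) = cc (e4 j (pr μ)) := by
  unfold c9
  rw [if_neg (fun h => hx ((xy_add_lo μ j).1 h)), pr_add_lo]

theorem mem_Xf (a : Fin 7 × Finset (Fin 9)) (μ : Fin 9 →₀ ℕ) :
    μ ∈ Xf a ↔ (I0 a.1.val (pr μ) ∨ ∃ i ∈ a.2, 4 ≤ i.val ∧ 0 < μ i) := Iff.rfl

theorem stable9 (a : Fin 7 × Finset (Fin 9)) : nf9.Stable (Xf a) := by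
  intro μ hμ hs i hc
  rw [std_iff] at hs
  obtain ⟨hx, hs⟩ := hs
  change c9 (μ + del i) ≠ 0 at hc
  change t9 (μ + del i) ∈ Xf a
  rw [mem_Xf] at hμ ⊢
  rcases lo_or_hi i with ⟨j, rfl⟩ | hi
  · rw [c9_lo μ hx] at hc
    rw [t9_lo]
    rcases hμ with h | ⟨i', hi', h4, h0⟩
    · left
      rw [pr_put]
      exact stable0 _ _ _ h hs hc
    · right
      exact ⟨i', hi', h4, by rw [put_hi _ _ _ h4]; exact h0⟩
  · rw [t9_hi μ hs i hi]
    rcases hμ with h | ⟨i', hi', h4, h0⟩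
    · left
      rw [pr_add_hi μ i hi]
      exact h
    · right
      exact ⟨i', hi', h4, by rw [Finsupp.add_apply]; omega⟩

/-- The variables killed by a variable. -/
def opp (i : Fin 9) : Finset (Fin 9) := if i.val ≤ 6 then {7, 8} else {4, 5, 6}

theorem xy_opp (ν : Fin 9 →₀ ℕ) (hx : ¬ xy ν) (i : Fin 9) (hi : 4 ≤ i.val) :
    xy (ν + del i) ↔ ∃ j ∈ opp i, 0 < ν j := by
  unfold xy at hx ⊢
  have h : i = 4 ∨ i = 5 ∨ i = 6 ∨ i = 7 ∨ i = 8 := by
    fin_cases i <;> simp at hi ⊢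
  rcases h with rfl | rfl | rfl | rfl | rfl <;>
    simp [opp, del, Finsupp.single_apply] <;> omega

theorem opp_hi (i j : Fin 9) (h : j ∈ opp i) : 4 ≤ j.val := by
  unfold opp at h
  split_ifs at h
  · simp at h
    rcases h with rfl | rfl <;> simp
  · simp at h
    rcases h with rfl | rfl | rfl <;> simp

theorem step_hi (k : Fin 7) (G : Finset (Fin 9)) (i : Fin 9) (hi : 4 ≤ i.val) (hG : i ∈ G) :
    nf9.Step (Xf (k, G)) (Xf (k, G.erase i)) (Xf (k, G.erase i ∪ opp i)) i where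
  sub μ h := by
    rw [mem_Xf] at h ⊢
    rcases h with h | ⟨j, hj, h4, h0⟩
    · exact Or.inl h
    · exact Or.inr ⟨j, Finset.mem_of_mem_erase hj, h4, h0⟩
  mem := by
    rw [mem_Xf]
    exact Or.inr ⟨i, hG, hi, by simp [del]⟩
  gen μ h hs := by
    rw [mem_Xf] at h
    rcases h with h | ⟨j, hj, h4, h0⟩
    · exact Or.inl (Or.inl h)
    · by_cases hji : j = i
      · right
        subst hji
        rw [std_iff] at hs
        obtain ⟨hx, hs⟩ := hs
        have e : μ - del j + del j = μ := by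
          apply tsub_add_cancel_of_le
          intro l
          by_cases hl : l = j
          · subst hl; simp [del]; omega
          · simp [del, Finsupp.single_apply, Ne.symm hl]
        refine ⟨μ - del j, ?_, ?_, ?_⟩
        · rw [std_iff]
          refine ⟨fun hh => hx (by rw [← e]; exact xy_mono _ _ hh), ?_⟩
          have e2 := pr_add_hi (μ - del j) j hi
          rw [e] at e2
          rw [← e2]
          exact hs
        · rw [e]
          change c9 μ ≠ 0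
          unfold c9
          rw [if_neg hx, hs.1]
          exact one_ne_zero
        · rw [e]
          change t9 μ = μ
          unfold t9
          rw [hs.2, put_pr]
      · exact Or.inl (Or.inr ⟨j, Finset.mem_erase.2 ⟨hji, hj⟩, h4, h0⟩)
  z1 ν h hs hc := by
    rw [std_iff] at hs
    obtain ⟨hx, hs⟩ := hs
    change c9 (ν + del i) ≠ 0 at hc
    change t9 (ν + del i) ∈ _
    rw [t9_hi ν hs i hi]
    rw [mem_Xf] at h ⊢
    rcases h with h | ⟨j, hj, h4, h0⟩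
    · left
      rw [pr_add_hi ν i hi]
      exact h
    · rcases Finset.mem_union.1 hj with hj | hj
      · exact Or.inr ⟨j, hj, h4, by rw [Finsupp.add_apply]; omega⟩
      · exact absurd ((xy_opp ν hx i hi).2 ⟨j, hj, h0⟩) (c9_ne hc).1
  z2 ν h hs := by
    rw [std_iff] at hs
    obtain ⟨hx, hs⟩ := hs
    change c9 (ν + del i) ≠ 0 ∧ t9 (ν + del i) ∉ _
    rw [t9_hi ν hs i hi]
    rw [mem_Xf] at h ⊢
    refine ⟨?_, ?_⟩
    · unfold c9
      rw [if_neg, pr_add_hi ν i hi, hs.1]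
      · exact one_ne_zero
      · rw [xy_opp ν hx i hi]
        rintro ⟨j, hj, h0⟩
        exact h (Or.inr ⟨j, Finset.mem_union.2 (Or.inr hj), opp_hi i j hj, h0⟩)
    · rintro (h1 | ⟨j, hj, h4, h0⟩)
      · rw [pr_add_hi ν i hi] at h1
        exact h (Or.inl h1)
      · refine h (Or.inr ⟨j, Finset.mem_union.2 (Or.inl hj), h4, ?_⟩)
        have hne : i ≠ j := (Finset.mem_erase.1 hj).1.symm
        rw [Finsupp.add_apply] at h0
        simpa [del, Finsupp.single_apply, hne] using h0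
  z3 ν ν' _ _ hs hs' heq := by
    rw [std_iff] at hs hs'
    change t9 (ν + del i) = t9 (ν' + del i) at heq
    rw [t9_hi ν hs.2 i hi, t9_hi ν' hs'.2 i hi] at heq
    exact add_right_cancel heq

theorem step_lo (k y z : Fin 7) (j : Fin 4) (H : CoreStep k.val y.val z.val j)
    (G : Finset (Fin 9)) (hG : ∀ i ∈ G, ¬ 4 ≤ i.val) :
    nf9.Step (Xf (k, G)) (Xf (y, G)) (Xf (z, G)) (lo j) := by
  have hm : ∀ (a : Fin 7) (μ : Fin 9 →₀ ℕ), μ ∈ Xf (a, G) ↔ I0 a.val (pr μ) := by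
    intro a μ
    rw [mem_Xf]
    constructor
    · rintro (h | ⟨i, hi, h4, -⟩)
      · exact h
      · exact absurd h4 (hG i hi)
    · exact Or.inl
  refine ⟨?_, ?_, ?_, ?_, ?_, ?_⟩
  · intro μ h
    rw [hm] at h ⊢
    exact H.sub _ h
  · rw [hm]
    have e := pr_add_lo 0 j
    rw [zero_add] at e
    rw [e]
    exact H.mem
  · intro μ h hs
    rw [hm] at h ⊢
    rw [std_iff] at hs
    rcases H.gen _ h hs.2 with h1 | ⟨q', h1, h2, h3⟩
    · exact Or.inl h1
    · right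
      refine ⟨put q' μ, ?_, ?_, ?_⟩
      · rw [std_iff, xy_put, pr_put]
        exact ⟨hs.1, h1⟩
      · change c9 _ ≠ 0
        rw [put_lo, c9_put, if_neg hs.1]
        exact h2
      · change t9 _ = _
        rw [put_lo, t9_put, h3, put_pr]
  · intro ν h hs hc
    rw [hm] at h ⊢
    rw [std_iff] at hs
    change c9 _ ≠ 0 at hc
    change I0 _ (pr (t9 (ν + del (lo j))))
    rw [c9_lo ν hs.1] at hc
    rw [t9_lo, pr_put]
    exact H.z1 _ h hs.2 hc
  · intro ν h hs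
    rw [hm] at h ⊢
    rw [std_iff] at hs
    change c9 _ ≠ 0 ∧ ¬ I0 _ (pr (t9 (ν + del (lo j))))
    rw [c9_lo ν hs.1, t9_lo, pr_put]
    exact H.z2 _ h hs.2
  · intro ν ν' h h' hs hs' heq
    rw [hm] at h h'
    rw [std_iff] at hs hs'
    change t9 (ν + del (lo j)) = t9 (ν' + del (lo j)) at heq
    rw [t9_lo, t9_lo] at heq
    have e1 := congrArg pr heq
    rw [pr_put, pr_put] at e1
    have e2 := H.z3 _ _ h h' hs.2 hs'.2 e1
    have e3 := congrArg (put (pr ν)) heq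
    rw [put_put, put_put, put_pr, e2, put_pr] at e3
    exact e3

theorem filt9 : nf9.Filtration Xf rkf where
  stable := stable9
  step := by
    rintro ⟨k, G⟩
    by_cases h : ∃ i ∈ G, 4 ≤ i.val
    · right
      obtain ⟨i, hG, hi⟩ := h
      refine ⟨(k, G.erase i), (k, G.erase i ∪ opp i), i, ?_, step_hi k G i hi hG⟩
      unfold rkf
      have e : (G.erase i).filter (fun i => 4 ≤ i.val) = (G.filter (fun i => 4 ≤ i.val)).erase i := by
        ext l
        simp only [Finset.mem_filter, Finset.mem_erase]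
        tauto
      have hc := Finset.card_erase_lt_of_mem (s := G.filter (fun i => 4 ≤ i.val)) (a := i)
        (Finset.mem_filter.2 ⟨hG, hi⟩)
      simp only [e]
      omega
    · have hG : ∀ i ∈ G, ¬ 4 ≤ i.val := fun i hi h4 => h ⟨i, hi, h4⟩
      have hk : k = 0 ∨ k = 1 ∨ k = 2 ∨ k = 3 ∨ k = 4 ∨ k = 5 ∨ k = 6 := by
        fin_cases k <;> simp
      rcases hk with rfl | rfl | rfl | rfl | rfl | rfl | rfl
      · left
        intro μ hμ
        rw [mem_Xf] at hμ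
        rcases hμ with hμ | ⟨i, hi, h4, -⟩
        · exact absurd hμ (by simp [I0])
        · exact absurd h4 (hG i hi)
      · right
        exact ⟨(0, G), (3, G), lo 0, by simp [rkf], step_lo 1 0 3 0 step1 G hG⟩
      · right
        exact ⟨(0, G), (1, G), lo 2, by simp [rkf], step_lo 2 0 1 2 step2 G hG⟩
      · right
        exact ⟨(2, G), (4, G), lo 3, by simp [rkf], step_lo 3 2 4 3 step3 G hG⟩
      · right
        exact ⟨(2, G), (5, G), lo 0, by simp [rkf], step_lo 4 2 5 0 step4 G hG⟩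
      · right
        exact ⟨(3, G), (6, G), lo 0, by simp [rkf], step_lo 5 3 6 0 step5 G hG⟩
      · right
        exact ⟨(5, G), (6, G), lo 1, by simp [rkf], step_lo 6 5 6 1 step6 G hG⟩
  top := by
    refine ⟨(6, Finset.univ), ?_⟩
    ext μ
    rw [mem_Xf]
    have e0 : μ = 0 ↔ μ.degree = 0 := by
      rw [Finsupp.degree_eq_zero_iff]
    simp only [Set.mem_ofPred_eq, ne_eq, e0, degree9]
    have e1 : I0 ((6 : Fin 7), (Finset.univ : Finset (Fin 9))).1.val (pr μ) ↔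
        1 ≤ μ 0 + μ 1 + μ 2 + μ 3 := Iff.rfl
    rw [e1]
    constructor
    · rintro (h | ⟨i, -, h4, h0⟩)
      · omega
      · have h : i = 4 ∨ i = 5 ∨ i = 6 ∨ i = 7 ∨ i = 8 := by
          fin_cases i <;> simp at h4 ⊢
        rcases h with rfl | rfl | rfl | rfl | rfl <;> omega
    · intro h
      by_cases h1 : 1 ≤ μ 0 + μ 1 + μ 2 + μ 3
      · exact Or.inl h1
      · right
        by_cases h4 : 0 < μ 4
        · exact ⟨4, Finset.mem_univ _, by simp, h4⟩
        by_cases h5 : 0 < μ 5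
        · exact ⟨5, Finset.mem_univ _, by simp, h5⟩
        by_cases h6 : 0 < μ 6
        · exact ⟨6, Finset.mem_univ _, by simp, h6⟩
        by_cases h7 : 0 < μ 7
        · exact ⟨7, Finset.mem_univ _, by simp, h7⟩
        exact ⟨8, Finset.mem_univ _, by simp, by omega⟩

/-- Row E2: `nf9` has a combinatorial Koszul filtration. -/
theorem exists_filt9 : ∃ (ι : Type) (X : ι → Set (Fin 9 →₀ ℕ)) (rk : ι → ℕ),
    nf9.Filtration X rk :=
  ⟨_, _, _, filt9⟩

end Pool.Agent.KosQ2
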