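import Pool.Agent.KosQ2.Defs2

/-!
# Generating functions of unions of boxes
-/

set_option autoImplicit false

namespace Pool.Agent.KosQ2

/-- Indicator series of the allowed exponents. -/
noncomputable def gser (k : Fin 4) : PowerSeries ℤ :=
  PowerSeries.mk (fun e => if allow k e then (1 : ℤ) else 0)

theorem coeff_gser (k : Fin 4) (e : ℕ) :
    PowerSeries.coeff e (gser k) = if allow k e then (1 : ℤ) else 0 := by
  simp [gser]

theorem one_sub_gser (k : Fin 4) : (1 - PowerSeries.X) * gser k = (wt k : PowerSeries ℤ) := by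
  ext e
  rw [sub_mul, one_mul, map_sub]
  rcases e with _ | e
  · rw [PowerSeries.coeff_zero_X_mul, coeff_gser]
    fin_cases k <;> simp [allow, wt]
  · rw [PowerSeries.coeff_succ_X_mul, coeff_gser, coeff_gser, Polynomial.coeff_coe]
    fin_cases k
    · rcases e with _ | e <;> simp [allow, wt, Polynomial.coeff_X, Polynomial.coeff_one]
    · rcases e with _ | _ | e <;> simp [allow, wt, Polynomial.coeff_X, Polynomial.coeff_one]
    · rcases e with _ | e <;> simp [allow, wt, Polynomial.coeff_X]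
    · rcases e with _ | e <;> simp [allow, wt, Polynomial.coeff_one]

theorem card_eq_sum {n : ℕ} (P : (Fin n →₀ ℕ) → Prop) [DecidablePred P] (j : ℕ) :
    ((Nat.card {μ : Fin n →₀ ℕ // μ.degree = j ∧ P μ} : ℕ) : ℤ) =
      ∑ μ ∈ Finset.finsuppAntidiag (Finset.univ : Finset (Fin n)) j,
        (if P μ then (1 : ℤ) else 0) := by
  classical
  have h : Nat.card {μ : Fin n →₀ ℕ // μ.degree = j ∧ P μ} =
      ((Finset.finsuppAntidiag (Finset.univ : Finset (Fin n)) j).filter P).card := by
    refine Nat.subtype_card _ (fun μ => ?_)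
    simp only [Finset.mem_filter, Finset.mem_finsuppAntidiag, Finset.subset_univ, and_true]
    rw [← Finsupp.degree_eq_sum μ]
  rw [h, Finset.card_filter]
  push_cast
  rfl

theorem series_of_boxes {n : ℕ} (P : (Fin n →₀ ℕ) → Prop) [DecidablePred P] {ι : Type} [Fintype ι]
    (ep : ι → ℤ) (A : ι → Fin n → Fin 4)
    (hP : ∀ μ, (if P μ then (1 : ℤ) else 0) =
      ∑ k, ep k * ∏ v, (if allow (A k v) (μ v) then (1 : ℤ) else 0)) :
    (1 - PowerSeries.X) ^ n *
      PowerSeries.mk (fun j => ((Nat.card {μ : Fin n →₀ ℕ // μ.degree = j ∧ P μ} : ℕ) : ℤ)) =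
      ((∑ k, Polynomial.C (ep k) * ∏ v, wt (A k v) : Polynomial ℤ) : PowerSeries ℤ) := by
  have h1 : PowerSeries.mk
      (fun j => ((Nat.card {μ : Fin n →₀ ℕ // μ.degree = j ∧ P μ} : ℕ) : ℤ)) =
      ∑ k, PowerSeries.C (ep k) * ∏ v, gser (A k v) := by
    ext j
    rw [PowerSeries.coeff_mk, card_eq_sum, map_sum]
    rw [Finset.sum_congr rfl (fun μ _ => hP μ), Finset.sum_comm]
    refine Finset.sum_congr rfl (fun k _ => ?_)
    rw [PowerSeries.coeff_C_mul, PowerSeries.coeff_prod, Finset.mul_sum]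
    refine Finset.sum_congr rfl (fun μ _ => ?_)
    congr 1
    exact Finset.prod_congr rfl (fun v _ => (coeff_gser _ _).symm)
  rw [h1, Finset.mul_sum]
  have h2 : ∀ k, (1 - PowerSeries.X) ^ n * (PowerSeries.C (ep k) * ∏ v, gser (A k v)) =
      ((Polynomial.C (ep k) * ∏ v, wt (A k v) : Polynomial ℤ) : PowerSeries ℤ) := by
    intro k
    have h3 : (1 - PowerSeries.X : PowerSeries ℤ) ^ n = ∏ _v : Fin n, (1 - PowerSeries.X) := by
      simp
    rw [mul_left_comm, h3, ← Finset.prod_mul_distrib]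
    rw [Finset.prod_congr rfl (fun v _ => one_sub_gser (A k v))]
    rw [Polynomial.coe_mul, Polynomial.coe_C]
    congr 1
    exact (map_prod (Polynomial.coeToPowerSeries.ringHom (R := ℤ)) (fun v => wt (A k v))
      Finset.univ).symm
  rw [Finset.sum_congr rfl (fun k _ => h2 k)]
  exact (map_sum (Polynomial.coeToPowerSeries.ringHom (R := ℤ))
    (fun k => Polynomial.C (ep k) * ∏ v, wt (A k v)) Finset.univ).symm

end Pool.Agent.KosQ2
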